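import Pool.Agent.H386R3.CC.Ball

set_option autoImplicit false

/-!
# Assembly
-/

namespace Pool.Agent.H386R3.CC

open Set

namespace CubeComplex

variable {V ι : Type} {X : CubeComplex V ι}

theorem corner_ind {P : Corner → Prop} (a : Corner) (ha : P a)
    (hf : ∀ b k, P b → P (flip b k)) (b : Corner) : P b := by
  have step : ∀ (a : Corner) (k : Fin 3) (w : Bool), P a → P (Function.update a k w) := by
    intro a k w hK
    by_cases hw : w = a k
    · subst hw; rw [Function.update_eq_self]; exact hK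
    · have hv' : w = !a k := by
        cases w <;> cases h4 : a k <;> simp_all
      have hfl : Function.update a k w = flip a k := by rw [hv']; rfl
      rw [hfl]
      exact hf _ _ hK
  have e : Function.update (Function.update (Function.update a 0 (b 0)) 1 (b 1)) 2 (b 2) = b := by
    funext k
    fin_cases k <;> simp
  rw [← e]
  exact step _ _ _ (step _ _ _ (step _ _ _ ha))

/-- Cubes sharing a corner and its three neighbours are equal. -/
theorem cube_eq {i j : ι} {a : Corner} (h0 : X.Mem (X.corner i a) j)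
    (h : ∀ k, X.Mem (X.corner i (flip a k)) j) : i = j := by
  by_contra hij
  rcases X.face i j hij with hf | ⟨α, K, ⟨k, hk⟩, hf⟩
  · obtain ⟨b, hb⟩ := h0
    exact hf a b hb.symm
  · have conv : ∀ b, X.Mem (X.corner i b) j → ∃ c, X.corner i b = X.corner j c :=
      fun b ⟨c, hc⟩ => ⟨c, hc.symm⟩
    have h1 := (hf a).1 (conv a h0) k hk
    have h2 := (hf (flip a k)).1 (conv _ (h k)) k hk
    rw [flip_apply, if_pos rfl, h1] at h2
    cases h3 : α k <;> rw [h3] at h2 <;> exact absurd h2 (by decide)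

section

variable {E : Type*} [NormedAddCommGroup E] [NormedSpace ℝ E] {B : Set E}
  (hX : X.FlagLinks) (hB : Convex ℝ B) (φ : X.realization ≃ₜ B)

/-- The hyperplane dual to the edges of the cube `i` in direction `k`. -/
noncomputable def hk (i : ι) (k : Fin 3) : Hy (X.toCat hX hB φ) :=
  hyp (X.toCat hX hB φ) (X.corner i fun _ => false) (X.corner i (flip (fun _ => false) k))

theorem sq_corner (i : ι) (a : Corner) {j k : Fin 3} (hjk : j ≠ k) :
    X.Sq (X.corner i a) (X.corner i (flip a j)) (X.corner i (flip (flip a j) k))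
      (X.corner i (flip a k)) := ⟨i, a, j, k, hjk, rfl, rfl, rfl, rfl⟩

theorem hk_eq (i : ι) (k : Fin 3) (a : Corner) :
    hyp (X.toCat hX hB φ) (X.corner i a) (X.corner i (flip a k)) = hk hX hB φ i k := by
  refine corner_ind (P := fun a => hyp (X.toCat hX hB φ) (X.corner i a) (X.corner i (flip a k)) =
    hk hX hB φ i k) (fun _ => false) rfl ?_ a
  intro b j hb
  rw [← hb]
  by_cases hjk : j = k
  · subst hjk
    rw [flip_flip, hyp_comm]
  · exact (hyp_opp (C := X.toCat hX hB φ) (sq_corner i b hjk)).symm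

theorem hk_ne (i : ι) {j k : Fin 3} (hjk : j ≠ k) : hk hX hB φ i j ≠ hk hX hB φ i k :=
  hyp_ne_of_sq (C := X.toCat hX hB φ) (sq_corner i _ hjk)

theorem hk_inj (i : ι) : Function.Injective (hk hX hB φ i) := by
  intro j k h
  by_contra hjk
  exact hk_ne hX hB φ i hjk h

theorem hk_cross (i : ι) {j k : Fin 3} (hjk : j ≠ k) :
    Cross (X.toCat hX hB φ) (hk hX hB φ i j) (hk hX hB φ i k) :=
  ⟨_, _, _, _, sq_corner i _ hjk, rfl, rfl⟩

theorem adj_corner (i : ι) (a : Corner) (k : Fin 3) :
    X.Adj (X.corner i a) (X.corner i (flip a k)) := ⟨i, a, k, rfl, rfl⟩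

/-- Choose a corner of the cube `i` on prescribed sides. -/
theorem exists_side (i : ι) (q : V) : ∃ a : Corner, ∀ k,
    ¬ Sep (X.toCat hX hB φ) (hk hX hB φ i k) q (X.corner i a) := by
  classical
  let C := X.toCat hX hB φ
  -- fix coordinates one at a time
  have step : ∀ (a : Corner) (k : Fin 3), ∃ w : Bool,
      ¬ Sep C (hk hX hB φ i k) q (X.corner i (Function.update a k w)) ∧
      ∀ j, j ≠ k → (Sep C (hk hX hB φ i j) q (X.corner i (Function.update a k w)) ↔
        Sep C (hk hX hB φ i j) q (X.corner i a)) := by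
    intro a k
    by_cases hs : Sep C (hk hX hB φ i k) q (X.corner i a)
    · refine ⟨!a k, ?_, ?_⟩
      · have h1 : Sep C (hk hX hB φ i k) (X.corner i a) (X.corner i (flip a k)) :=
          (sep_adj (C := C) _ (adj_corner i a k)).2 (hk_eq hX hB φ i k a)
        intro h2
        exact ((sep_trans (C := C) _ q (X.corner i a) (X.corner i (flip a k))).1 h2).1 hs h1
      · intro j hj
        have h1 : ¬ Sep C (hk hX hB φ i j) (X.corner i a) (X.corner i (flip a k)) := by
          intro h1
          have h2 := (sep_adj (C := C) _ (adj_corner i a k)).1 h1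
          rw [hk_eq hX hB φ i k a] at h2
          exact hk_ne hX hB φ i hj h2.symm
        have h3 := sep_trans (C := C) (hk hX hB φ i j) q (X.corner i a) (X.corner i (flip a k))
        show Sep C (hk hX hB φ i j) q (X.corner i (flip a k)) ↔ _
        constructor
        · intro h4; exact (h3.1 h4).2 h1
        · intro h4; exact h3.2 ⟨fun _ => h1, fun _ => h4⟩
    · refine ⟨a k, ?_, ?_⟩
      · rw [Function.update_eq_self]; exact hs
      · intro j _; rw [Function.update_eq_self]
  let a0 : Corner := fun _ => false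
  obtain ⟨w0, h0, h0'⟩ := step a0 0
  obtain ⟨w1, h1, h1'⟩ := step (Function.update a0 0 w0) 1
  obtain ⟨w2, h2, h2'⟩ := step (Function.update (Function.update a0 0 w0) 1 w1) 2
  refine ⟨Function.update (Function.update (Function.update a0 0 w0) 1 w1) 2 w2, ?_⟩
  intro k
  fin_cases k
  · intro h
    exact h0 ((h1' 0 (by decide)).1 ((h2' 0 (by decide)).1 h))
  · intro h
    exact h1 ((h2' 1 (by decide)).1 h)
  · exact h2

/-- The three hyperplanes of a cube determine it. -/
theorem triple_inj (i j : ι) (hT : ∀ k, ∃ l, hk hX hB φ i k = hk hX hB φ j l) : i = j := by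
  let C := X.toCat hX hB φ
  choose π hπ using hT
  have πinj : Function.Injective π := by
    intro a b hab
    apply hk_inj hX hB φ i
    rw [hπ a, hπ b, hab]
  set q : V := X.corner j fun _ => false with hq
  obtain ⟨a, ha⟩ := exists_side hX hB φ i q
  have hsp : ∀ k l, k ≠ l → C.Sp q (X.corner j (flip (fun _ => false) (π k)))
      (X.corner j (flip (fun _ => false) (π l))) := by
    intro k l hkl
    exact ⟨_, sq_corner j _ (fun h => hkl (πinj h))⟩
  have hhyp : ∀ k, hyp C (X.corner i a) (X.corner i (flip a k)) =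
      hyp C q (X.corner j (flip (fun _ => false) (π k))) := by
    intro k
    rw [hk_eq hX hB φ i k a, hπ k]
    rfl
  have hpq : X.corner i a = q := by
    refine corner_unique (C := C) (a := X.corner i (flip a 0)) (b := X.corner i (flip a 1))
      (c := X.corner i (flip a 2)) (a' := X.corner j (flip (fun _ => false) (π 0)))
      (b' := X.corner j (flip (fun _ => false) (π 1)))
      (c' := X.corner j (flip (fun _ => false) (π 2)))
      (adj_corner _ _ _) (adj_corner _ _ _) (adj_corner _ _ _)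
      (adj_corner _ _ _) (adj_corner _ _ _) (adj_corner _ _ _)
      (hhyp 0) (hhyp 1) (hhyp 2) ?_ ?_ ?_ (hsp 0 1 (by decide)) (hsp 0 2 (by decide))
      (hsp 1 2 (by decide))
    · rw [hk_eq hX hB φ i 0 a]; exact ha 0
    · rw [hk_eq hX hB φ i 1 a]; exact ha 1
    · rw [hk_eq hX hB φ i 2 a]; exact ha 2
  refine cube_eq (a := a) ⟨_, hpq.symm⟩ fun k => ⟨flip (fun _ => false) (π k), ?_⟩
  refine (hyp_inj (C := C) (x := X.corner i a) (adj_corner i a k) ?_ ?_).symm
  · rw [hpq]; exact adj_corner j _ _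
  · rw [hhyp k, hpq]

end

/-! ### Boundary squares dual to a pair of crossing hyperplanes -/

section

variable (hX : X.FlagLinks) (φ : X.realization ≃ₜ Metric.closedBall (0 : E3) 1)

/-- The combinatorial structure of a cubulated ball. -/
noncomputable abbrev cat : CatS V := X.toCat hX (convex_closedBall (0 : E3) 1) φ

open Classical in
/-- The vertices of a set of points of the realization. -/
noncomputable def verts (s : Set (V → ℝ)) : Set V := {v | (Pi.single v 1 : V → ℝ) ∈ s}

/-- The hyperplanes dual to the edges of a set of points of the realization. -/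
noncomputable def dual (s : Set (V → ℝ)) : Set (Hy (cat hX φ)) :=
  {h | ∃ x ∈ verts s, ∃ y ∈ verts s, X.Adj x y ∧ hyp (cat hX φ) x y = h}

theorem verts_square (i : ι) (l : Fin 3) (ε : Bool) :
    verts (X.square i l ε) = {v | ∃ a : Corner, a l = ε ∧ X.corner i a = v} := by
  classical
  ext v
  constructor
  · rintro ⟨t, ht, htl, he⟩
    have hv : X.point i t v ≠ 0 := by
      rw [← he]; simp
    obtain ⟨a, rfl⟩ := point_mem hv
    refine ⟨a, ?_, rfl⟩
    by_contra hc
    apply hv
    rw [point_corner]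
    unfold weight
    refine Finset.prod_eq_zero (Finset.mem_univ l) ?_
    rw [htl]
    cases h1 : a l <;> cases h2 : ε <;> simp_all
  · rintro ⟨a, ha, rfl⟩
    refine ⟨cpt a, fun k => by unfold cpt; split_ifs <;> norm_num, ?_, ?_⟩
    · unfold cpt; rw [ha]
    · rw [point_cpt]

theorem dual_square (i : ι) (l : Fin 3) (ε : Bool) :
    dual hX φ (X.square i l ε) =
      {h | ∃ k, k ≠ l ∧ hk hX (convex_closedBall (0 : E3) 1) φ i k = h} := by
  ext h
  unfold dual
  rw [verts_square]
  constructor
  · rintro ⟨x, ⟨a, ha, rfl⟩, y, ⟨b, hb, rfl⟩, hadj, rfl⟩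
    obtain ⟨k, hk'⟩ := mem_of_adj (X := X) (i := i) rfl ⟨b, rfl⟩ hadj
    have : flip a k = b := X.inj i hk'
    subst this
    refine ⟨k, ?_, (hk_eq hX (convex_closedBall (0 : E3) 1) φ i k a).symm⟩
    rintro rfl
    rw [flip_apply, if_pos rfl, ha] at hb
    cases ε <;> exact absurd hb (by decide)
  · rintro ⟨k, hkl, rfl⟩
    let a : Corner := fun _ => ε
    refine ⟨X.corner i a, ⟨a, rfl, rfl⟩, X.corner i (flip a k), ⟨flip a k, ?_, rfl⟩,
      adj_corner i a k, hk_eq hX (convex_closedBall (0 : E3) 1) φ i k a⟩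
    rw [flip_apply, if_neg (Ne.symm hkl)]

theorem third : ∀ j k : Fin 3, j ≠ k → ∃ l, l ≠ j ∧ l ≠ k ∧ ∀ m, m ≠ l → m = j ∨ m = k := by
  decide

/-- A corner of a square at which the square has a unique third direction gives a boundary
square. -/
theorem boundary_of_unique {p a b : V} (hab : (cat hX φ).Sp p a b)
    (huniq : ∀ c d, (cat hX φ).Sp p a c → (cat hX φ).Sp p b c → (cat hX φ).Sp p a d →
      (cat hX φ).Sp p b d → c = d) :
    ∃ s ∈ X.boundarySquares φ,
      dual hX φ s = {hyp (cat hX φ) p a, hyp (cat hX φ) p b} ∧ p ∈ verts s ∧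
      ∀ v ∈ verts s, v = p ∨ Sep (cat hX φ) (hyp (cat hX φ) p a) v p ∨
        Sep (cat hX φ) (hyp (cat hX φ) p b) v p := by
  obtain ⟨z, i, α, j, k, hjk, h1, h2, h3, h4⟩ := hab
  subst h1 h2 h4
  obtain ⟨l, hlj, hlk, hm⟩ := third j k hjk
  have ej := hk_eq hX (convex_closedBall (0 : E3) 1) φ i j α
  have ek := hk_eq hX (convex_closedBall (0 : E3) 1) φ i k α
  refine ⟨X.square i l (α l), ?_, ?_, ?_, ?_⟩
  · apply free_boundary
    intro i' hi'
    have m0 := hi' α rfl
    have mj := hi' (flip α j) (by rw [flip_apply, if_neg hlj])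
    have mk := hi' (flip α k) (by rw [flip_apply, if_neg hlk])
    obtain ⟨β, hβ⟩ := m0
    obtain ⟨j', hj'⟩ := mem_of_adj (X := X) hβ mj (adj_corner i α j)
    obtain ⟨k', hk'⟩ := mem_of_adj (X := X) hβ mk (adj_corner i α k)
    have hjk' : j' ≠ k' := by
      rintro rfl
      have := X.inj i (hj'.symm.trans hk')
      exact hjk (flip_inj α j k this)
    obtain ⟨l', hlj', hlk', _⟩ := third j' k' hjk'
    have e := huniq (X.corner i (flip α l)) (X.corner i' (flip β l'))
      ⟨_, sq_corner i α hlj.symm⟩ ⟨_, sq_corner i α hlk.symm⟩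
      ⟨X.corner i' (flip (flip β j') l'), by
        rw [← hj', ← hβ]; exact sq_corner i' β hlj'.symm⟩
      ⟨X.corner i' (flip (flip β k') l'), by
        rw [← hk', ← hβ]; exact sq_corner i' β hlk'.symm⟩
    refine (cube_eq (a := α) ⟨β, hβ⟩ ?_).symm
    intro m
    by_cases hml : m = l
    · subst hml
      rw [e]; exact ⟨_, rfl⟩
    · rcases hm m hml with rfl | rfl
      · exact mj
      · exact mk
  · rw [dual_square, ej, ek]
    ext h
    simp only [mem_ofPred_eq, mem_insert_iff, mem_singleton_iff]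
    constructor
    · rintro ⟨m, hml, rfl⟩
      rcases hm m hml with rfl | rfl
      · exact Or.inl rfl
      · exact Or.inr rfl
    · rintro (rfl | rfl)
      · exact ⟨j, hlj.symm, rfl⟩
      · exact ⟨k, hlk.symm, rfl⟩
  · rw [verts_square]; exact ⟨α, rfl, rfl⟩
  · intro v hv
    rw [verts_square] at hv
    obtain ⟨β, hβ, rfl⟩ := hv
    rw [ej, ek]
    -- separation from the corner α detects the coordinates
    have sepk : ∀ m γ, (Sep (cat hX φ) (hk hX (convex_closedBall (0 : E3) 1) φ i m)
        (X.corner i γ) (X.corner i α) ↔ γ m ≠ α m) := by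
      intro m γ
      refine corner_ind (P := fun γ => (Sep (cat hX φ)
        (hk hX (convex_closedBall (0 : E3) 1) φ i m) (X.corner i γ) (X.corner i α) ↔
          γ m ≠ α m)) α ?_ ?_ γ
      · simp only [ne_eq, not_true_eq_false, iff_false]
        exact not_sep_self _ _
      · intro δ n hδ
        have hadj := adj_corner (X := X) i δ n
        have h5 := sep_trans (C := cat hX φ) (hk hX (convex_closedBall (0 : E3) 1) φ i m)
          (X.corner i (flip δ n)) (X.corner i δ) (X.corner i α)
        have h6 : Sep (cat hX φ) (hk hX (convex_closedBall (0 : E3) 1) φ i m)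
            (X.corner i (flip δ n)) (X.corner i δ) ↔ n = m := by
          rw [sep_adj (C := cat hX φ) _ hadj.symm, hyp_comm, hk_eq]
          exact ⟨fun h => hk_inj hX _ φ i h, fun h => by rw [h]⟩
        rw [h5, h6, hδ, flip_apply]
        by_cases hnm : n = m
        · subst hnm
          simp only [true_iff, if_true]
          cases h7 : δ n <;> cases h8 : α n <;> simp
        · rw [if_neg (Ne.symm hnm)]
          simp [hnm]
    by_cases hj : β j = α j
    · by_cases hk2 : β k = α k
      · left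
        congr 1
        funext m
        by_cases hml : m = l
        · rw [hml]; exact hβ
        · rcases hm m hml with rfl | rfl <;> assumption
      · right; right
        exact (sepk k β).2 hk2
    · right; left
      exact (sepk j β).2 hj

/-- Every pair of crossing hyperplanes is dual to at least two boundary squares. -/
theorem two_squares [Finite V] {h k : Hy (cat hX φ)} (hc : Cross (cat hX φ) h k) :
    ∃ s1 ∈ X.boundarySquares φ, ∃ s2 ∈ X.boundarySquares φ, s1 ≠ s2 ∧
      dual hX φ s1 = {h, k} ∧ dual hX φ s2 = {h, k} := by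
  obtain ⟨p0, y0, z0, w0, hs0, rfl, rfl⟩ := hc
  set h := hyp (cat hX φ) p0 y0 with hh
  set k := hyp (cat hX φ) p0 w0 with hkk
  have hc : Cross (cat hX φ) h k := ⟨p0, y0, z0, w0, hs0, rfl, rfl⟩
  let Z : Set V := {p | Nh (cat hX φ) h p ∧ Nh (cat hX φ) k p ∧ ¬ Sep (cat hX φ) h p p0 ∧
    ¬ Sep (cat hX φ) k p p0}
  have hZ0 : p0 ∈ Z := ⟨⟨y0, (cat hX φ).sq_adj hs0, rfl⟩,
    ⟨w0, (cat hX φ).adj_symm ((cat hX φ).sq_adj (SqS.rot3 hs0)), rfl⟩,
    not_sep_self _ _, not_sep_self _ _⟩
  have farthest : ∀ q : V, ∃ p ∈ Z, ∀ p' ∈ Z, dd (cat hX φ) p' q ≤ dd (cat hX φ) p q := by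
    intro q
    obtain ⟨p, hp, hmax⟩ := Set.exists_max_image Z (fun p => dd (cat hX φ) p q) (Set.toFinite Z)
      ⟨p0, hZ0⟩
    exact ⟨p, hp, hmax⟩
  have trans' : ∀ (g : Hy (cat hX φ)) (a b c : V), ¬ Sep (cat hX φ) g a b →
      ¬ Sep (cat hX φ) g b c → ¬ Sep (cat hX φ) g a c := by
    intro g a b c h1 h2 h3
    exact h1 (((sep_trans g a b c).1 h3).2 h2)
  have symm' : ∀ (g : Hy (cat hX φ)) (a b : V), ¬ Sep (cat hX φ) g a b →
      ¬ Sep (cat hX φ) g b a := fun g a b h1 h2 => h1 h2.symm
  have main : ∀ q : V, ∀ p ∈ Z, (∀ p' ∈ Z, dd (cat hX φ) p' q ≤ dd (cat hX φ) p q) →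
      ∃ s ∈ X.boundarySquares φ, dual hX φ s = {h, k} ∧ p ∈ verts s ∧
        ∀ v ∈ verts s, v = p ∨ Sep (cat hX φ) h v p ∨ Sep (cat hX φ) k v p := by
    intro q p hp hmax
    obtain ⟨⟨a, ha, hae⟩, ⟨b, hb, hbe⟩, hp3, hp4⟩ := hp
    have hab : (cat hX φ).Sp p a b := span_of_cross ha hb (by rw [hae, hbe]; exact hc)
    have := boundary_of_unique hX φ hab (by
      intro c d c1 c2 d1 d2
      refine extremal (C := cat hX φ) (q := q) hae hbe hab ?_ c1 c2 d1 d2
      intro p' n1 n2 n3 n4
      exact hmax p' ⟨n1, n2, trans' h p' p p0 n3 hp3, trans' k p' p p0 n4 hp4⟩)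
    rw [hae, hbe] at this
    exact this
  obtain ⟨p1, hp1, hmax1⟩ := farthest p0
  obtain ⟨p2, hp2, hmax2⟩ := farthest p1
  obtain ⟨s1, hs1, d1, v1, u1⟩ := main p0 p1 hp1 hmax1
  obtain ⟨s2, hs2, d2, v2, u2⟩ := main p1 p2 hp2 hmax2
  refine ⟨s1, hs1, s2, hs2, ?_, d1, d2⟩
  -- p1 ≠ p2
  have hne : p2 ≠ p1 := by
    intro he
    obtain ⟨⟨a, ha, hae⟩, ⟨b, hb, hbe⟩, hp3, hp4⟩ := hp1
    obtain ⟨z, i, α, j, l, hjl, h1, h2, h3, h4⟩ : (cat hX φ).Sp p1 a b :=
      span_of_cross ha hb (by rw [hae, hbe]; exact hc)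
    obtain ⟨m, hmj, hml, _⟩ := third j l hjl
    have hcm : X.corner i (flip α m) ∈ Z := by
      have ea : hyp (cat hX φ) (X.corner i α) (X.corner i (flip α j)) = h := by
        rw [h1, h2]; exact hae
      have eb : hyp (cat hX φ) (X.corner i α) (X.corner i (flip α l)) = k := by
        rw [h1, h4]; exact hbe
      rw [hk_eq] at ea eb
      have hsm : ∀ n, n ≠ m → ¬ Sep (cat hX φ) (hk hX (convex_closedBall (0 : E3) 1) φ i n)
          (X.corner i (flip α m)) (X.corner i α) := by
        intro n hn hs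
        have := (sep_adj (C := cat hX φ) _ (adj_corner i α m).symm).1 hs
        rw [hyp_comm, hk_eq] at this
        exact hn (hk_inj hX _ φ i this).symm
      refine ⟨⟨X.corner i (flip (flip α m) j), adj_corner i _ _, ?_⟩,
        ⟨X.corner i (flip (flip α m) l), adj_corner i _ _, ?_⟩, ?_, ?_⟩
      · rw [hk_eq]; exact ea
      · rw [hk_eq]; exact eb
      · have := hsm j hmj.symm
        rw [ea, h1] at this
        exact trans' h _ p1 p0 this hp3
      · have := hsm l hml.symm
        rw [eb, h1] at this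
        exact trans' k _ p1 p0 this hp4
    have h5 := hmax2 _ hcm
    rw [he, dd_self] at h5
    have h6 := eq_of_dd h5
    rw [← h1] at h6
    exact flip_ne α m (X.inj i h6)
  intro he
  rw [← he] at v2
  rcases u1 p2 v2 with h | h | h
  · exact hne h
  · exact trans' _ p2 p0 p1 hp2.2.2.1 (symm' _ _ _ hp1.2.2.1) h
  · exact trans' _ p2 p0 p1 hp2.2.2.2 (symm' _ _ _ hp1.2.2.2) h

end

theorem finite_vertices [Finite ι] (X : CubeComplex V ι) : Finite V := by
  have : Function.Surjective (fun q : ι × Corner => X.corner q.1 q.2) := by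
    intro v
    obtain ⟨i, a, h⟩ := X.cover v
    exact ⟨(i, a), h⟩
  exact Finite.of_surjective _ this

theorem finite_squares [Finite ι] (X : CubeComplex V ι) : X.squares.Finite := by
  have : X.squares = Set.range (fun q : ι × Fin 3 × Bool => X.square q.1 q.2.1 q.2.2) := by
    ext s
    constructor
    · rintro ⟨i, l, ε, rfl⟩; exact ⟨(i, l, ε), rfl⟩
    · rintro ⟨⟨i, l, ε⟩, rfl⟩; exact ⟨i, l, ε, rfl⟩
  rw [this]
  exact Set.finite_range _

/-- The isoperimetric comparison. -/
theorem main [Finite ι] (X : CubeComplex V ι) (hX : X.FlagLinks)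
    (φ : X.realization ≃ₜ Metric.closedBall (0 : E3) 1) :
    ∃ S : Finset (Fin 3 → ℤ), S.card = Nat.card ι ∧
      (bdry S).ncard ≤ (X.boundarySquares φ).ncard := by
  classical
  have := X.finite_vertices
  have : Fintype ι := Fintype.ofFinite ι
  let C := cat hX φ
  have : Finite (Hy C) := Quotient.finite _
  have : Fintype (Hy C) := Fintype.ofFinite _
  let T : ι → Finset (Hy C) := fun i =>
    Finset.univ.image (hk hX (convex_closedBall (0 : E3) 1) φ i)
  obtain ⟨S, hS1, hS2⟩ := graph_count (Cross C) (fun _ _ h => h.symm) (fun _ h => h.ne rfl)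
    (fun a b c d h1 h2 h3 h4 h5 h6 => no_four h1 h2 h3 h4 h5 h6) T
    (by
      intro i j hij
      refine triple_inj hX (convex_closedBall (0 : E3) 1) φ i j fun k => ?_
      have : hk hX (convex_closedBall (0 : E3) 1) φ i k ∈ T j := by
        rw [← hij]
        exact Finset.mem_image_of_mem _ (Finset.mem_univ k)
      obtain ⟨l, _, hl⟩ := Finset.mem_image.1 this
      exact ⟨l, hl.symm⟩)
    (by
      intro i
      rw [Finset.card_image_of_injective _ (hk_inj hX (convex_closedBall (0 : E3) 1) φ i)]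
      rfl)
    (by
      intro i x hx y hy hxy
      obtain ⟨j, _, rfl⟩ := Finset.mem_image.1 hx
      obtain ⟨k, _, rfl⟩ := Finset.mem_image.1 hy
      exact hk_cross hX _ φ i (fun h => hxy (by rw [h])))
  refine ⟨S, by rw [hS1, Nat.card_eq_fintype_card], hS2.trans ?_⟩
  -- inject ordered crossing pairs into the boundary squares
  let e : Hy C → ℕ := fun h => (Fintype.equivFin (Hy C) h : ℕ)
  have he : Function.Injective e := fun a b h => (Fintype.equivFin (Hy C)).injective (Fin.ext h)
  have hex : ∀ h k : Hy C, ∃ s : Set (V → ℝ) × Set (V → ℝ), Cross C h k →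
      s.1 ∈ X.boundarySquares φ ∧ s.2 ∈ X.boundarySquares φ ∧ s.1 ≠ s.2 ∧
        dual hX φ s.1 = {h, k} ∧ dual hX φ s.2 = {h, k} := by
    intro h k
    by_cases hc : Cross C h k
    · obtain ⟨s1, a1, s2, a2, a3, a4, a5⟩ := two_squares hX φ hc
      exact ⟨(s1, s2), fun _ => ⟨a1, a2, a3, a4, a5⟩⟩
    · exact ⟨(∅, ∅), fun h => absurd h hc⟩
  choose s hs using hex
  let f : Hy C × Hy C → Set (V → ℝ) := fun p => if e p.1 < e p.2 then (s p.1 p.2).1
    else (s p.2 p.1).2
  have hf : ∀ p : Hy C × Hy C, Cross C p.1 p.2 → f p ∈ X.boundarySquares φ ∧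
      dual hX φ (f p) = {p.1, p.2} := by
    rintro ⟨h, k⟩ hc
    simp only [f]
    split_ifs
    · exact ⟨(hs h k hc).1, (hs h k hc).2.2.2.1⟩
    · have h1 := hs k h hc.symm
      refine ⟨h1.2.1, ?_⟩
      rw [h1.2.2.2.2]
      exact Set.pair_comm k h
  have hfin : (X.boundarySquares φ).Finite := X.finite_squares.subset fun s hs => hs.1
  rw [← Set.ncard_coe_finset]
  refine Set.ncard_le_ncard_of_injOn f ?_ ?_ hfin
  · intro p hp
    have hp' : Cross C p.1 p.2 := by simpa using hp
    exact (hf p hp').1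
  · rintro ⟨h, k⟩ hp ⟨h', k'⟩ hp' heq
    have c1 : Cross C h k := by simpa using hp
    have c2 : Cross C h' k' := by simpa using hp'
    have e1 := (hf (h, k) c1).2
    have e2 := (hf (h', k') c2).2
    rw [heq] at e1
    simp only at e1 e2
    have hpair : ({h, k} : Set (Hy C)) = {h', k'} := e1.symm.trans e2
    rcases Set.pair_eq_pair_iff.1 hpair with ⟨rfl, rfl⟩ | ⟨rfl, rfl⟩
    · rfl
    · exfalso
      have hne : e h ≠ e k := fun h' => c1.ne (he h')
      simp only [f] at heq
      rcases lt_or_gt_of_ne hne with hlt | hlt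
      · rw [if_pos hlt, if_neg (by omega)] at heq
        exact (hs h k c1).2.2.1 heq
      · rw [if_neg (by omega), if_pos hlt] at heq
        exact (hs k h c1.symm).2.2.1 heq.symm

end CubeComplex

end Pool.Agent.H386R3.CC
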