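import Pool.Agent.H386R3.CC.Poly

set_option autoImplicit false

/-!
# Triangles and edges in `K₄`-free graphs, and polycubes
-/

namespace Pool.Agent.H386R3.CC

open Finset

variable {H ι : Type*}

/-- Mantel's theorem, on ordered pairs. -/
theorem mantel [DecidableEq H] (R : H → H → Prop) [DecidableRel R] (hsymm : ∀ x y, R x y → R y x)
    (N : Finset H) (htri : ∀ x ∈ N, ∀ y ∈ N, ∀ z ∈ N, R x y → R y z → R x z → False) :
    2 * ((N ×ˢ N).filter fun p => R p.1 p.2).card ≤ N.card ^ 2 := by
  let D : H → Finset H := fun k => N.filter fun l => R k l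
  have hs : ((N ×ˢ N).filter fun p => R p.1 p.2).card = ∑ k ∈ N, (D k).card := by
    rw [card_filter, sum_product]
    refine sum_congr rfl fun k _ => ?_
    rw [← card_filter]
  set s := ∑ k ∈ N, (D k).card with hs'
  rw [hs]
  have h1 : ∀ k ∈ N, ∀ l ∈ D k, (D k).card + (D l).card ≤ N.card := by
    intro k hk l hl
    rw [← card_union_of_disjoint]
    · exact card_le_card (union_subset (filter_subset _ _) (filter_subset _ _))
    · rw [disjoint_left]
      intro z hz1 hz2
      simp only [D, mem_filter] at hz1 hz2 hl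
      exact htri k hk l hl.1 z hz1.1 hl.2 hz2.2 hz1.2
  have h2 : ∑ k ∈ N, ∑ l ∈ D k, ((D k).card + (D l).card) ≤ s * N.card := by
    rw [hs', sum_mul]
    refine sum_le_sum fun k hk => ?_
    calc ∑ l ∈ D k, ((D k).card + (D l).card) ≤ ∑ l ∈ D k, N.card :=
          sum_le_sum fun l hl => h1 k hk l hl
      _ = (D k).card * N.card := by rw [sum_const, smul_eq_mul]
  have h3 : ∑ k ∈ N, ∑ l ∈ D k, ((D k).card + (D l).card) = 2 * ∑ k ∈ N, (D k).card ^ 2 := by
    simp only [sum_add_distrib, sum_const, smul_eq_mul]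
    have h4 : ∑ k ∈ N, ∑ l ∈ D k, (D l).card = ∑ k ∈ N, (D k).card * (D k).card := by
      have e1 : ∀ k, ∑ l ∈ D k, (D l).card = ∑ l ∈ N, if R k l then (D l).card else 0 := by
        intro k
        simp only [D]
        rw [sum_filter]
      simp only [e1]
      rw [sum_comm]
      refine sum_congr rfl fun l _ => ?_
      rw [← sum_filter, sum_const, smul_eq_mul]
      congr 2
      ext k
      simp only [D, mem_filter]
      exact ⟨fun h => ⟨h.1, hsymm _ _ h.2⟩, fun h => ⟨h.1, hsymm _ _ h.2⟩⟩
    rw [h4, two_mul]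
    simp only [sq]
  have h5 : s ^ 2 ≤ N.card * ∑ k ∈ N, (D k).card ^ 2 := by
    rw [hs']
    exact sq_sum_le_card_mul_sum_sq
  rcases Nat.eq_zero_or_pos s with h0 | h0
  · rw [h0]; simp
  · rw [h3] at h2
    have h6 : s * (2 * s) ≤ s * N.card ^ 2 := by
      calc s * (2 * s) = 2 * s ^ 2 := by ring
        _ ≤ 2 * (N.card * ∑ k ∈ N, (D k).card ^ 2) := Nat.mul_le_mul_left 2 h5
        _ = N.card * (2 * ∑ k ∈ N, (D k).card ^ 2) := by ring
        _ ≤ N.card * (s * N.card) := Nat.mul_le_mul_left _ h2
        _ = s * N.card ^ 2 := by ring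
    exact Nat.le_of_mul_le_mul_left h6 h0

/-- A `K₄`-free graph with a family of distinct triangles: there is a polycube with as many
cubes as triangles and with at most as many boundary squares as twice the number of edges
(ordered adjacent pairs). -/
theorem graph_count [Fintype H] [Fintype ι] [DecidableEq H] (R : H → H → Prop) [DecidableRel R]
    (hsymm : ∀ x y, R x y → R y x) (hirr : ∀ x, ¬ R x x)
    (h4 : ∀ a b c d, R a b → R a c → R a d → R b c → R b d → R c d → False)
    (T : ι → Finset H) (hT : Function.Injective T) (hcard : ∀ i, (T i).card = 3)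
    (hadj : ∀ i, ∀ x ∈ T i, ∀ y ∈ T i, x ≠ y → R x y) :
    ∃ S : Finset (Fin 3 → ℤ), S.card = Fintype.card ι ∧
      (bdry S).ncard ≤ ((univ : Finset (H × H)).filter fun p => R p.1 p.2).card := by
  classical
  rcases isEmpty_or_nonempty ι with hι | ⟨⟨i0⟩⟩
  · refine ⟨∅, by simp, ?_⟩
    have : bdry ∅ = ∅ := by
      ext q
      simp [bdry, Xor]
    rw [this]
    simp
  have hH : (univ : Finset H).Nonempty := by
    have : 0 < (T i0).card := by rw [hcard]; norm_num
    obtain ⟨x, _⟩ := card_pos.1 this
    exact ⟨x, mem_univ x⟩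
  let t : H → ℕ := fun h => (univ.filter fun i => h ∈ T i).card
  obtain ⟨h0, _, hmax⟩ := exists_max_image univ t hH
  let W : Finset H := univ.filter fun w => ¬ R h0 w
  let e : H → ℕ := fun h => (Fintype.equivFin H h : ℕ)
  have he : Function.Injective e := fun a b h => (Fintype.equivFin H).injective (Fin.ext h)
  -- every triangle meets W
  have hmeet : ∀ i, (T i ∩ W).Nonempty := by
    intro i
    by_contra hc
    rw [not_nonempty_iff_eq_empty] at hc
    have hall : ∀ x ∈ T i, R h0 x := by
      intro x hx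
      by_contra hn
      have : x ∈ T i ∩ W := mem_inter.2 ⟨hx, by simp [W, hn]⟩
      rw [hc] at this
      simp at this
    obtain ⟨x, y, z, hxy, hxz, hyz, hTi⟩ := card_eq_three.1 (hcard i)
    have mx : x ∈ T i := by rw [hTi]; simp
    have my : y ∈ T i := by rw [hTi]; simp
    have mz : z ∈ T i := by rw [hTi]; simp
    exact h4 h0 x y z (hall x mx) (hall y my) (hall z mz) (hadj i x mx y my hxy)
      (hadj i x mx z mz hxz) (hadj i y my z mz hyz)
  have hmin : ∀ i, ∃ w ∈ T i ∩ W, ∀ w' ∈ T i ∩ W, e w ≤ e w' :=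
    fun i => exists_min_image _ e (hmeet i)
  choose m hm1 hm2 using hmin
  let Tc : H → ℕ := fun w => (univ.filter fun i => m i = w).card
  let N : H → Finset H := fun w => univ.filter fun k => R w k ∧ ¬ (k ∈ W ∧ e k < e w)
  have hTc : ∀ w ∈ W, Tc w ≤ t h0 := by
    intro w _
    refine le_trans (card_le_card ?_) (hmax w (mem_univ w))
    intro i hi
    rw [mem_filter] at hi ⊢
    refine ⟨hi.1, ?_⟩
    rw [← hi.2]
    exact (mem_inter.1 (hm1 i)).1
  -- ordered pairs of a triangle away from one of its vertices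
  have off2 : ∀ i, ∀ w ∈ T i, ((T i).erase w).offDiag.card = 2 := by
    intro i w hw
    rw [offDiag_card, card_erase_of_mem hw, hcard]
  have disj : ∀ w, ∀ i j, w ∈ T i → w ∈ T j → i ≠ j →
      Disjoint ((T i).erase w).offDiag ((T j).erase w).offDiag := by
    intro w i j hi hj hij
    rw [disjoint_left]
    rintro ⟨x, y⟩ h1 h2
    rw [mem_offDiag, mem_erase, mem_erase] at h1 h2
    apply hij
    apply hT
    obtain ⟨⟨a1, a2⟩, ⟨a3, a4⟩, a5⟩ := h1
    obtain ⟨⟨b1, b2⟩, ⟨b3, b4⟩, b5⟩ := h2
    dsimp only at a1 a2 a3 a4 a5 b2 b4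
    have e3 : ({w, x, y} : Finset H).card = 3 := by
      rw [card_eq_three]
      exact ⟨w, x, y, Ne.symm a1, Ne.symm a3, a5, rfl⟩
    have e1 : {w, x, y} = T i := by
      apply eq_of_subset_of_card_le
      · intro z hz
        simp only [mem_insert, mem_singleton] at hz
        rcases hz with rfl | rfl | rfl <;> assumption
      · rw [hcard, e3]
    have e2 : {w, x, y} = T j := by
      apply eq_of_subset_of_card_le
      · intro z hz
        simp only [mem_insert, mem_singleton] at hz
        rcases hz with rfl | rfl | rfl <;> assumption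
      · rw [hcard, e3]
    rw [← e1, ← e2]
  have hd : ∀ w ∈ W, 4 * Tc w ≤ (N w).card ^ 2 := by
    intro w hw
    have h1 := mantel R hsymm (N w) (by
      intro x hx y hy z hz hxy hyz hxz
      simp only [N, mem_filter] at hx hy hz
      exact h4 w x y z hx.2.1 hy.2.1 hz.2.1 hxy hxz hyz)
    have h2 : 2 * Tc w ≤ ((N w ×ˢ N w).filter fun p => R p.1 p.2).card := by
      have h3 : ((univ.filter fun i => m i = w).biUnion fun i => ((T i).erase w).offDiag).card =
          2 * Tc w := by
        rw [card_biUnion]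
        · rw [sum_congr rfl (g := fun _ => 2), sum_const, smul_eq_mul, mul_comm]
          intro i hi
          rw [mem_filter] at hi
          exact off2 i w (by rw [← hi.2]; exact (mem_inter.1 (hm1 i)).1)
        · intro i hi j hj hij
          rw [mem_coe, mem_filter] at hi hj
          exact disj w i j (by rw [← hi.2]; exact (mem_inter.1 (hm1 i)).1)
            (by rw [← hj.2]; exact (mem_inter.1 (hm1 j)).1) hij
      rw [← h3]
      refine card_le_card ?_
      rintro ⟨x, y⟩ hxy
      rw [mem_biUnion] at hxy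
      obtain ⟨i, hi, hxy⟩ := hxy
      rw [mem_filter] at hi
      rw [mem_offDiag, mem_erase, mem_erase] at hxy
      obtain ⟨⟨a1, a2⟩, ⟨a3, a4⟩, a5⟩ := hxy
      dsimp only at a1 a2 a3 a4 a5
      have hwT : w ∈ T i := by rw [← hi.2]; exact (mem_inter.1 (hm1 i)).1
      have hN : ∀ x, x ≠ w → x ∈ T i → x ∈ N w := by
        intro x hx hxT
        simp only [N, mem_filter, mem_univ, true_and]
        refine ⟨hadj i w hwT x hxT hx.symm, ?_⟩
        rintro ⟨hxW, hlt⟩
        have := hm2 i x (mem_inter.2 ⟨hxT, hxW⟩)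
        rw [hi.2] at this
        omega
      rw [mem_filter, mem_product]
      exact ⟨⟨hN x a1 a2, hN y a3 a4⟩, hadj i x a2 y a4 a5⟩
    omega
  obtain ⟨S, hS1, hS2⟩ := polycube W Tc (fun w => (N w).card) (t h0) hTc hd
  refine ⟨S, ?_, hS2.trans ?_⟩
  · rw [hS1]
    have := card_eq_sum_card_fiberwise (s := (univ : Finset ι)) (t := W) (f := m)
      (fun i _ => (mem_inter.1 (hm1 i)).2)
    rw [card_univ] at this
    exact this.symm
  · -- counting ordered pairs
    let A0 : Finset (H × H) := (univ.filter fun i => h0 ∈ T i).biUnion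
      fun i => ((T i).erase h0).offDiag
    let B1 : Finset (H × H) := W.biUnion fun w => (N w).image fun k => (w, k)
    let B2 : Finset (H × H) := W.biUnion fun w => (N w).image fun k => (k, w)
    have cA0 : A0.card = 2 * t h0 := by
      rw [card_biUnion]
      · rw [sum_congr rfl (g := fun _ => 2), sum_const, smul_eq_mul, mul_comm]
        intro i hi
        rw [mem_filter] at hi
        exact off2 i h0 hi.2
      · intro i hi j hj hij
        rw [mem_coe, mem_filter] at hi hj
        exact disj h0 i j hi.2 hj.2 hij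
    have cB1 : B1.card = ∑ w ∈ W, (N w).card := by
      rw [card_biUnion]
      · refine sum_congr rfl fun w _ => card_image_of_injective _ ?_
        intro a b h
        simpa using h
      · intro a _ b _ hab
        rw [Function.onFun, disjoint_left]
        rintro ⟨x, y⟩ h1 h2
        rw [mem_image] at h1 h2
        obtain ⟨k, _, h1⟩ := h1
        obtain ⟨l, _, h2⟩ := h2
        simp only [Prod.mk.injEq] at h1 h2
        exact hab (h1.1.trans h2.1.symm)
    have cB2 : B2.card = ∑ w ∈ W, (N w).card := by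
      rw [card_biUnion]
      · refine sum_congr rfl fun w _ => card_image_of_injective _ ?_
        intro a b h
        simpa using h
      · intro a _ b _ hab
        rw [Function.onFun, disjoint_left]
        rintro ⟨x, y⟩ h1 h2
        rw [mem_image] at h1 h2
        obtain ⟨k, _, h1⟩ := h1
        obtain ⟨l, _, h2⟩ := h2
        simp only [Prod.mk.injEq] at h1 h2
        exact hab (h1.2.trans h2.2.symm)
    have mB1 : ∀ x y, (x, y) ∈ B1 ↔ x ∈ W ∧ y ∈ N x := by
      intro x y
      simp only [B1, mem_biUnion, mem_image, Prod.mk.injEq]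
      constructor
      · rintro ⟨w, hw, k, hk, rfl, rfl⟩
        exact ⟨hw, hk⟩
      · rintro ⟨h1, h2⟩
        exact ⟨x, h1, y, h2, rfl, rfl⟩
    have mB2 : ∀ x y, (x, y) ∈ B2 ↔ y ∈ W ∧ x ∈ N y := by
      intro x y
      simp only [B2, mem_biUnion, mem_image, Prod.mk.injEq]
      constructor
      · rintro ⟨w, hw, k, hk, rfl, rfl⟩
        exact ⟨hw, hk⟩
      · rintro ⟨h1, h2⟩
        exact ⟨y, h1, x, h2, rfl, rfl⟩
    have mA0 : ∀ x y, (x, y) ∈ A0 → R x y ∧ R h0 x ∧ R h0 y := by
      intro x y hxy
      simp only [A0, mem_biUnion] at hxy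
      obtain ⟨i, hi, hxy⟩ := hxy
      rw [mem_filter] at hi
      rw [mem_offDiag, mem_erase, mem_erase] at hxy
      obtain ⟨⟨a1, a2⟩, ⟨a3, a4⟩, a5⟩ := hxy
      exact ⟨hadj i x a2 y a4 a5, hadj i h0 hi.2 x a2 (Ne.symm a1),
        hadj i h0 hi.2 y a4 (Ne.symm a3)⟩
    have d12 : Disjoint B1 B2 := by
      rw [disjoint_left]
      rintro ⟨x, y⟩ h1 h2
      rw [mB1] at h1
      rw [mB2] at h2
      obtain ⟨a1, a2⟩ := h1
      obtain ⟨b1, b2⟩ := h2
      simp only [N, mem_filter, mem_univ, true_and] at a2 b2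
      have h3 : ¬ e y < e x := fun h => a2.2 ⟨b1, h⟩
      have h5 : ¬ e x < e y := fun h => b2.2 ⟨a1, h⟩
      have : x = y := he (by omega)
      subst this
      exact hirr x a2.1
    have dA : Disjoint A0 (B1 ∪ B2) := by
      rw [disjoint_left]
      rintro ⟨x, y⟩ h1 h2
      obtain ⟨_, h3, h5⟩ := mA0 x y h1
      rw [mem_union, mB1, mB2] at h2
      simp only [W, mem_filter, mem_univ, true_and] at h2
      rcases h2 with h2 | h2
      · exact h2.1 h3
      · exact h2.1 h5
    have hsub : A0 ∪ (B1 ∪ B2) ⊆ (univ : Finset (H × H)).filter fun p => R p.1 p.2 := by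
      rintro ⟨x, y⟩ h
      rw [mem_filter]
      refine ⟨mem_univ _, ?_⟩
      rw [mem_union, mem_union, mB1, mB2] at h
      simp only [N, mem_filter, mem_univ, true_and] at h
      rcases h with h | h | h
      · exact (mA0 x y h).1
      · exact h.2.1
      · exact hsymm _ _ h.2.1
    have hle := card_le_card hsub
    rw [card_union_of_disjoint dA, card_union_of_disjoint d12, cA0, cB1, cB2] at hle
    omega

end Pool.Agent.H386R3.CC
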