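import Pool.Agent.H386R3.CC.Cat
import Pool.Agent.H386R3.CC.Count
import Pool.Agent.Helper206.BoxS.IoD

set_option autoImplicit false

/-!
# Boundary squares of a cubulated 3-ball
-/

namespace Pool.Agent.H386R3.CC

open Set

/-- Euclidean 3-space. -/
abbrev E3 := EuclideanSpace ℝ (Fin 3)

namespace CubeComplex

variable {V ι : Type} (X : CubeComplex V ι)

/-- The face `t_l = ε` of the cube `i` in the geometric realization. -/
def square (i : ι) (l : Fin 3) (ε : Bool) : Set (V → ℝ) :=
  {p | ∃ t : Fin 3 → ℝ, (∀ k, 0 ≤ t k ∧ t k ≤ 1) ∧ t l = (if ε then 1 else 0) ∧ p = X.point i t}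

/-- The squares (2-faces) of the complex, as subsets of its geometric realization. -/
def squares : Set (Set (V → ℝ)) := {s | ∃ i l ε, s = X.square i l ε}

/-- For a complex homeomorphic to the closed 3-ball: the boundary squares, i.e. the squares which
lie in the boundary sphere. -/
def boundarySquares (φ : X.realization ≃ₜ Metric.closedBall (0 : E3) 1) :
    Set (Set (V → ℝ)) :=
  {s | s ∈ X.squares ∧ ∀ p : X.realization, p.1 ∈ s → (φ p : E3) ∈ Metric.sphere (0 : E3) 1}

variable {X}

theorem sum_weight (t : Fin 3 → ℝ) (k : Fin 3) :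
    ∑ a : Corner, (if a k then weight t a else 0) = t k := by
  have h := weight_sum (Function.update t k 1)
  have er : ∀ (u : Fin 3 → ℝ) (a : Corner), weight u a = (if a k then u k else 1 - u k) *
      ∏ j ∈ Finset.univ.erase k, if a j then u j else 1 - u j := by
    intro u a
    unfold weight
    rw [Finset.mul_prod_erase Finset.univ (fun j => if a j then u j else 1 - u j)
      (Finset.mem_univ k)]
  have e : ∀ a : Corner, (if a k then weight t a else 0) =
      t k * weight (Function.update t k 1) a := by
    intro a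
    have e1 : ∏ j ∈ Finset.univ.erase k, (if a j then Function.update t k 1 j
        else 1 - Function.update t k 1 j) =
        ∏ j ∈ Finset.univ.erase k, if a j then t j else 1 - t j := by
      refine Finset.prod_congr rfl fun j hj => ?_
      rw [Function.update_of_ne (Finset.ne_of_mem_erase hj)]
    rw [er t a, er (Function.update t k 1) a, e1, Function.update_self]
    cases a k <;> simp
  rw [Finset.sum_congr rfl fun a _ => e a, ← Finset.mul_sum, h, mul_one]

/-- Cube coordinates. -/
noncomputable def tau (X : CubeComplex V ι) (i : ι) (p : V → ℝ) : E3 :=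
  (EuclideanSpace.equiv (Fin 3) ℝ).symm
    (fun k => ∑ a : Corner, if a k then p (X.corner i a) else 0)

theorem tau_continuous (i : ι) : Continuous (tau X i) := by
  unfold tau
  refine (EuclideanSpace.equiv (Fin 3) ℝ).symm.continuous.comp ?_
  refine continuous_pi fun k => continuous_finsetSum _ fun a _ => ?_
  split_ifs
  · exact continuous_apply _
  · exact continuous_const

theorem tau_point (i : ι) (t : Fin 3 → ℝ) (k : Fin 3) : tau X i (X.point i t) k = t k := by
  have : tau X i (X.point i t) k =
      ∑ a : Corner, if a k then X.point i t (X.corner i a) else 0 := rfl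
  rw [this]
  simp only [point_corner]
  exact sum_weight t k

theorem point_continuous (i : ι) : Continuous (X.point i) := by
  classical
  unfold point
  refine continuous_pi fun v => continuous_finsetSum _ fun a _ => ?_
  split_ifs
  · unfold weight
    refine continuous_finsetProd _ fun k _ => ?_
    split_ifs
    · exact continuous_apply k
    · exact continuous_const.sub (continuous_apply k)
  · exact continuous_const

theorem weight_pos {t : Fin 3 → ℝ} {l : Fin 3} {a : Corner}
    (hl : t l = if a l then 1 else 0) (ht : ∀ k, k ≠ l → 0 < t k ∧ t k < 1) :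
    0 < weight t a := by
  unfold weight
  refine Finset.prod_pos fun k _ => ?_
  by_cases hk : k = l
  · subst hk
    cases h : a k <;> simp [hl, h]
  · have := ht k hk
    split_ifs <;> linarith

/-- A point in the interior of a square contained in one cube only lies on the boundary
sphere. -/
theorem interior_sphere (φ : X.realization ≃ₜ Metric.closedBall (0 : E3) 1) (i : ι) (l : Fin 3)
    (ε : Bool) (huniq : ∀ i', (∀ a : Corner, a l = ε → X.Mem (X.corner i a) i') → i' = i)
    (t : Fin 3 → ℝ) (htl : t l = if ε then 1 else 0) (ht : ∀ k, k ≠ l → 0 < t k ∧ t k < 1)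
    (hp : X.point i t ∈ X.realization) :
    (φ ⟨X.point i t, hp⟩ : E3) ∈ Metric.sphere (0 : E3) 1 := by
  classical
  by_contra hns
  set p : X.realization := ⟨X.point i t, hp⟩ with hpdef
  set b : E3 := (φ p).1 with hb
  have hb1 : b ∈ Metric.closedBall (0 : E3) 1 := (φ p).2
  have hb2 : b ∈ Metric.ball (0 : E3) 1 := by
    rw [Metric.mem_ball]
    rw [Metric.mem_closedBall] at hb1
    rcases hb1.lt_or_eq with h | h
    · exact h
    · exact absurd h hns
  -- the inverse, extended
  let Ψ : Metric.closedBall (0 : E3) 1 → V → ℝ := fun q => (φ.symm q).1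
  have hΨ : Continuous Ψ := continuous_subtype_val.comp φ.symm.continuous
  -- positivity near b
  have hpos : ∀ a : Corner, a l = ε → 0 < Ψ ⟨b, hb1⟩ (X.corner i a) := by
    intro a ha
    have e : Ψ ⟨b, hb1⟩ = X.point i t := by
      have : φ.symm ⟨b, hb1⟩ = p := by
        rw [Homeomorph.symm_apply_eq]
      simp only [Ψ, this, hpdef]
    rw [e, point_corner]
    exact weight_pos (by rw [htl, ha]) ht
  have hopen : IsOpen {q : Metric.closedBall (0 : E3) 1 |
      ∀ a : Corner, a l = ε → 0 < Ψ q (X.corner i a)} := by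
    have : {q : Metric.closedBall (0 : E3) 1 | ∀ a : Corner, a l = ε → 0 < Ψ q (X.corner i a)} =
        ⋂ a : Corner, {q | a l = ε → 0 < Ψ q (X.corner i a)} := by
      ext q; simp
    rw [this]
    refine isOpen_iInter_of_finite fun a => ?_
    by_cases ha : a l = ε
    · simp only [ha, forall_const]
      exact isOpen_lt continuous_const ((continuous_apply _).comp hΨ)
    · simp only [ha, false_imp_iff, ofPred_true]
      exact isOpen_univ
  obtain ⟨r1, hr1, hball⟩ := Metric.isOpen_iff.1 hopen ⟨b, hb1⟩ hpos
  obtain ⟨r2, hr2, hball2⟩ := Metric.isOpen_iff.1 Metric.isOpen_ball b hb2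
  set r := min r1 r2 / 2 with hr
  have hrpos : 0 < r := by positivity
  have hsub : Metric.closedBall b r ⊆ Metric.closedBall (0 : E3) 1 := by
    refine (Metric.closedBall_subset_ball ?_).trans (hball2.trans Metric.ball_subset_closedBall)
    have : min r1 r2 ≤ r2 := min_le_right _ _
    have h0 : 0 < min r1 r2 := lt_min hr1 hr2
    rw [hr]; linarith
  -- all points near b come from the cube i
  have hcube : ∀ q (hq : q ∈ Metric.closedBall b r), ∃ t' : Fin 3 → ℝ,
      (∀ k, 0 ≤ t' k ∧ t' k ≤ 1) ∧ Ψ ⟨q, hsub hq⟩ = X.point i t' := by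
    intro q hq
    have hq' : (⟨q, hsub hq⟩ : Metric.closedBall (0 : E3) 1) ∈ Metric.ball ⟨b, hb1⟩ r1 := by
      rw [Metric.mem_ball, Subtype.dist_eq]
      rw [Metric.mem_closedBall] at hq
      have : min r1 r2 ≤ r1 := min_le_left _ _
      have h0 : 0 < min r1 r2 := lt_min hr1 hr2
      rw [hr] at hq
      simp only
      linarith
    have h1 := hball hq'
    obtain ⟨i', t', ht', he⟩ := (φ.symm ⟨q, hsub hq⟩).2
    have hi : i' = i := by
      apply huniq
      intro a ha
      have h2 := h1 a ha
      simp only [Ψ] at h2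
      rw [he] at h2
      exact point_mem h2.ne'
    subst hi
    exact ⟨t', ht', he⟩
  let f : E3 → E3 := fun q =>
    if h : q ∈ Metric.closedBall (0 : E3) 1 then tau X i (Ψ ⟨q, h⟩) else 0
  have hf : ∀ q (hq : q ∈ Metric.closedBall (0 : E3) 1), f q = tau X i (Ψ ⟨q, hq⟩) :=
    fun q hq => by simp only [f]; rw [dif_pos hq]
  have hfc : ContinuousOn f (Metric.closedBall (0 : E3) 1) := by
    rw [continuousOn_iff_continuous_domRestrict]
    have : (Metric.closedBall (0 : E3) 1).domRestrict f = fun q => tau X i (Ψ q) := by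
      funext q
      rw [Set.domRestrict_apply, hf q.1 q.2]
    rw [this]
    exact (tau_continuous i).comp hΨ
  have hfi : InjOn f (Metric.closedBall b r) := by
    intro q1 h1 q2 h2 heq
    obtain ⟨t1, _, e1⟩ := hcube q1 h1
    obtain ⟨t2, _, e2⟩ := hcube q2 h2
    rw [hf q1 (hsub h1), hf q2 (hsub h2), e1, e2] at heq
    have ht : t1 = t2 := by
      funext k
      rw [← tau_point (X := X) i t1 k, ← tau_point (X := X) i t2 k, heq]
    rw [ht, ← e2] at e1
    have := φ.symm.injective (Subtype.ext e1)
    exact congrArg Subtype.val this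
  have hnhds := Pool.Agent.Helper206.BoxS.IoD.image_mem_nhds f b r hrpos (hfc.mono hsub) hfi
  have hfb : f b = (EuclideanSpace.equiv (Fin 3) ℝ).symm t := by
    rw [hf b hb1]
    have e : Ψ ⟨b, hb1⟩ = X.point i t := by
      have : φ.symm ⟨b, hb1⟩ = p := by
        rw [Homeomorph.symm_apply_eq]
      simp only [Ψ, this, hpdef]
    rw [e]
    ext k
    exact tau_point i t k
  rw [Metric.mem_nhds_iff] at hnhds
  obtain ⟨η, hη, hsubη⟩ := hnhds
  -- a point outside
  let s0 : ℝ := if ε then 1 else -1
  let y : E3 := f b + (s0 * (η / 2)) • EuclideanSpace.single l (1 : ℝ)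
  have hy : y ∈ Metric.ball (f b) η := by
    rw [Metric.mem_ball, dist_eq_norm]
    simp only [y, add_sub_cancel_left, norm_smul, PiLp.norm_single]
    have : |s0| = 1 := by simp only [s0]; split_ifs <;> simp
    rw [Real.norm_eq_abs, abs_mul, this, abs_of_pos (by linarith)]
    simp
    linarith
  obtain ⟨q, hq, hqy⟩ := hsubη hy
  obtain ⟨t', ht', e'⟩ := hcube q hq
  rw [hf q (hsub hq), e'] at hqy
  have h1 := congrArg (fun z : E3 => z l) hqy
  simp only [tau_point, y, hfb] at h1
  have h2 : t' l = t l + s0 * (η / 2) := by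
    rw [h1]
    simp
  have h3 := ht' l
  rw [h2, htl] at h3
  simp only [s0] at h3
  split_ifs at h3 <;> linarith [h3.1, h3.2]

theorem free_boundary (φ : X.realization ≃ₜ Metric.closedBall (0 : E3) 1) (i : ι) (l : Fin 3)
    (ε : Bool) (huniq : ∀ i', (∀ a : Corner, a l = ε → X.Mem (X.corner i a) i') → i' = i) :
    X.square i l ε ∈ X.boundarySquares φ := by
  refine ⟨⟨i, l, ε, rfl⟩, ?_⟩
  rintro ⟨p, hp⟩ ⟨t, ht, htl, hpt⟩
  simp only at hpt
  subst hpt
  let c : Fin 3 → ℝ := fun k => if k = l then t l else 1 / 2
  let T : ℝ → Fin 3 → ℝ := fun s k => (1 - s) * t k + s * c k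
  have hTl : ∀ s, T s l = t l := by
    intro s
    simp only [T, c, if_true]
    ring
  have hT01 : ∀ s, 0 ≤ s → s ≤ 1 → ∀ k, 0 ≤ T s k ∧ T s k ≤ 1 := by
    intro s h0 h1 k
    have hc : 0 ≤ c k ∧ c k ≤ 1 := by
      simp only [c]
      split_ifs
      · exact ht l
      · norm_num
    have := ht k
    constructor
    · have a1 : 0 ≤ (1 - s) * t k := mul_nonneg (by linarith) this.1
      have a2 : 0 ≤ s * c k := mul_nonneg h0 hc.1
      simp only [T]; linarith
    · have a1 : (1 - s) * t k ≤ (1 - s) * 1 := mul_le_mul_of_nonneg_left this.2 (by linarith)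
      have a2 : s * c k ≤ s * 1 := mul_le_mul_of_nonneg_left hc.2 h0
      simp only [T]; linarith
  have hTint : ∀ s, 0 < s → s ≤ 1 → ∀ k, k ≠ l → 0 < T s k ∧ T s k < 1 := by
    intro s h0 h1 k hk
    have hck : c k = 1 / 2 := by simp [c, hk]
    have := ht k
    simp only [T, hck]
    constructor
    · have a1 : 0 ≤ (1 - s) * t k := mul_nonneg (by linarith) this.1
      linarith
    · have a1 : (1 - s) * t k ≤ (1 - s) * 1 := mul_le_mul_of_nonneg_left this.2 (by linarith)
      linarith
  have hTmem : ∀ s, 0 ≤ s → s ≤ 1 → X.point i (T s) ∈ X.realization := fun s h0 h1 =>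
    ⟨i, T s, hT01 s h0 h1, rfl⟩
  let sn : ℕ → ℝ := fun n => 1 / ((n : ℝ) + 1)
  have hs0 : ∀ n, 0 < sn n := fun n => by simp only [sn]; positivity
  have hs1 : ∀ n, sn n ≤ 1 := fun n => by
    simp only [sn]
    rw [div_le_one (by positivity)]
    linarith [(Nat.cast_nonneg n : (0 : ℝ) ≤ n)]
  have hlim : Filter.Tendsto (fun n => (⟨X.point i (T (sn n)), hTmem _ (hs0 n).le (hs1 n)⟩ :
      X.realization)) Filter.atTop (nhds ⟨X.point i t, hp⟩) := by
    rw [tendsto_subtype_rng]
    simp only
    have h1 : Filter.Tendsto sn Filter.atTop (nhds 0) := tendsto_one_div_add_atTop_nhds_zero_nat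
    have h2 : Continuous fun s => X.point i (T s) := by
      refine (point_continuous i).comp (continuous_pi fun k => ?_)
      simp only [T]
      fun_prop
    have h3 := (h2.tendsto 0).comp h1
    have h4 : T 0 = t := by
      funext k; simp [T]
    rw [h4] at h3
    exact h3
  have hclosed : IsClosed {q : X.realization | (φ q : E3) ∈ Metric.sphere (0 : E3) 1} :=
    Metric.isClosed_sphere.preimage (continuous_subtype_val.comp φ.continuous)
  refine hclosed.mem_of_tendsto hlim (Filter.Eventually.of_forall fun n => ?_)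
  exact interior_sphere φ i l ε huniq (T (sn n)) (by rw [hTl]; exact htl)
    (hTint _ (hs0 n) (hs1 n)) _

end CubeComplex

end Pool.Agent.H386R3.CC
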