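import Pool.Agent.H386R3.CC.Hyper

set_option autoImplicit false

/-!
# Crossing hyperplanes
-/

namespace Pool.Agent.H386R3.CC

universe u

variable {V : Type u} {C : CatS V}

/-- `x` is incident to an edge dual to `h`. -/
def Nh (C : CatS V) (h : Hy C) (x : V) : Prop := ∃ y, C.adj x y ∧ hyp C x y = h

/-- Two hyperplanes cross. -/
def Cross (C : CatS V) (h k : Hy C) : Prop :=
  ∃ p y z w, C.sq p y z w ∧ hyp C p y = h ∧ hyp C p w = k

theorem Cross.symm {h k : Hy C} (H : Cross C h k) : Cross C k h := by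
  obtain ⟨p, y, z, w, h1, h2, h3⟩ := H
  exact ⟨p, w, z, y, SqS.tr h1, h3, h2⟩

theorem Cross.ne {h k : Hy C} (H : Cross C h k) : h ≠ k := by
  obtain ⟨p, y, z, w, h1, h2, h3⟩ := H
  rw [← h2, ← h3]
  exact hyp_ne_of_sq h1

/-- The steps of a ladder do not cross the hyperplane of its rungs. -/
theorem Lad.not_cr {P Q : List V} (h : Lad C.toSqS P Q) {x y : V}
    (h2 : P.head? = some x) (h4 : Q.head? = some y) : cr C (hyp C x y) P = 0 := by
  induction h generalizing x y with
  | single a b => simp [cr]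
  | @cons a a' b b' P Q h hs ih =>
    simp at h2 h4
    subst h2 h4
    have h5 : hyp C a' b' = hyp C a b := (hyp_opp hs).symm
    rw [h5, cr_cons_cons, ih rfl rfl, if_neg]
    rw [hyp_comm]
    exact hyp_ne_of_sq hs

/-- Carriers: edges dual to the same hyperplane on the same side are joined by ladders along
every reduced path. -/
theorem carrier {x y x' y' : V} (he : hyp C x y = hyp C x' y')
    (ha' : C.adj x' y') (hs : ¬ Sep C (hyp C x y) x' x) {R : List V}
    (hR : RP C R x' x) :
    ∃ Q, Lad C.toSqS R Q ∧ Q.head? = some y' ∧ Q.getLast? = some y := by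
  rcases hyp_eq_iff.1 he with h | h
  · obtain ⟨P, Q, h1, h2, h3, h4, h5⟩ := par_of_hr h
    exact lad_along h1 h2 h3 h4 h5 hR
  · exfalso
    obtain ⟨P, Q, h1, h2, h3, h4, h5⟩ := par_of_hr h
    obtain ⟨R', hR'⟩ := exists_RP C y' x
    obtain ⟨Q', h6, h7, h8⟩ := lad_along h1 h2 h3 h4 h5 hR'
    have h9 := h6.not_cr hR'.1.2.1 h7
    have h10 : hyp C y' x' = hyp C x y := by rw [he, hyp_comm]
    rw [h10] at h9
    have h11 := hR'.cr_sep (hyp C x y)
    rw [h9] at h11
    have h12 : ¬ Sep C (hyp C x y) y' x := by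
      intro hc
      rw [if_pos hc] at h11
      omega
    have h13 : Sep C (hyp C x y) x' y' := (sep_adj _ ha').2 (by rw [he])
    exact hs ((sep_trans _ x' y' x).2 ⟨fun _ => h12, fun _ => h13⟩)

/-- Crossing a rung hyperplane's ladder. -/
theorem Lad.cross {P Q : List V} (h : Lad C.toSqS P Q) {x y : V}
    (h2 : P.head? = some x) (h4 : Q.head? = some y) {m : Hy C} (hm : cr C m P ≠ 0) :
    Cross C (hyp C x y) m := by
  induction h generalizing x y with
  | single a b => simp [cr] at hm
  | @cons a a' b b' P Q h hs ih =>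
    simp at h2 h4
    subst h2 h4
    have h5 : hyp C a' b' = hyp C a b := (hyp_opp hs).symm
    rw [h5]
    by_cases hc : hyp C a a' = m
    · exact ⟨a, b, b', a', SqS.tr hs, rfl, hc⟩
    · refine ih rfl rfl ?_
      rw [cr_cons_cons, hyp_comm, if_neg hc, zero_add] at hm
      exact hm

/-- A hyperplane separating two vertices of a carrier crosses it (or is it). -/
theorem cross_of_sep {x x' : V} {h m : Hy C} (hx : Nh C h x) (hx' : Nh C h x')
    (hm : Sep C m x' x) (hne : m ≠ h) : Cross C h m := by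
  obtain ⟨y, hy, rfl⟩ := hx
  obtain ⟨y', hy', he⟩ := hx'
  have main : ∀ x' y', C.adj x' y' → hyp C x' y' = hyp C x y → Sep C m x' x →
      ¬ Sep C (hyp C x y) x' x → Cross C (hyp C x y) m := by
    intro x' y' hy' he hm hs
    obtain ⟨R, hR⟩ := exists_RP C x' x
    obtain ⟨Q, h1, h2, h3⟩ := carrier he.symm hy' hs hR
    rw [← he]
    refine h1.cross hR.1.2.1 h2 ?_
    rw [hR.cr_sep m, if_pos hm]
    omega
  by_cases hs : Sep C (hyp C x y) x' x
  · have h1 : Sep C (hyp C x y) y' x' := (sep_adj _ (C.adj_symm hy')).2 (by rw [hyp_comm]; exact he)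
    have h2 : ¬ Sep C (hyp C x y) y' x := by
      intro hc
      exact ((sep_trans _ y' x' x).1 hc).1 h1 hs
    have h3 : ¬ Sep C m y' x' := by
      intro hc
      have := (sep_adj _ (C.adj_symm hy')).1 hc
      rw [hyp_comm, he] at this
      exact hne this.symm
    have h4 : Sep C m y' x :=
      (sep_trans _ y' x' x).2 ⟨fun hc => absurd hc h3, fun hc => absurd hm hc⟩
    exact main y' x' (C.adj_symm hy') (by rw [hyp_comm]; exact he) h4 h2
  · exact main x' y' hy' he hm hs

/-- Two ladders along the same path: if the rungs span a square at one end, they do at the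
other end. -/
theorem lad_span {P Q R : List V} {S : SqS V} (h : Lad S P Q) (h' : Lad S P R)
    {x a b x' a' b' : V} (h1 : P.getLast? = some x) (h2 : Q.getLast? = some a)
    (h3 : R.getLast? = some b) (h4 : P.head? = some x') (h5 : Q.head? = some a')
    (h6 : R.head? = some b') (hs : S.Sp x a b) : S.Sp x' a' b' := by
  induction h generalizing R x' a' b' with
  | single u v =>
    cases h' with
    | single _ w =>
      simp at h1 h2 h3 h4 h5 h6
      subst h1 h2 h3 h4 h5 h6
      exact hs
  | @cons u u' v v' P Q h hsq ih =>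
    cases h' with
    | @cons _ _ w w' _ R h' hsq' =>
      rw [List.getLast?_cons_cons] at h1 h2 h3
      simp at h4 h5 h6
      subst h4 h5 h6
      obtain ⟨z, hz⟩ := ih h' h1 h2 h3 rfl rfl rfl
      -- hz : sq u v z w ; hsq : sq u u' v' v ; hsq' : sq u u' w' w
      obtain ⟨t, ht1, ht2, ht3⟩ := S.cube hz (SqS.tr hsq') (SqS.tr hsq)
      -- ht3 : sq u' w' t v'
      exact ⟨t, SqS.tr ht3⟩

theorem Cross.corner {h k : Hy C} (H : Cross C h k) (x : V) :
    ∃ p y z w, C.sq p y z w ∧ hyp C p y = h ∧ hyp C p w = k ∧ ¬ Sep C h x p ∧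
      ¬ Sep C k x p := by
  obtain ⟨p, y, z, w, h1, h2, h3⟩ := H
  have hne : h ≠ k := by rw [← h2, ← h3]; exact hyp_ne_of_sq h1
  have apy : C.adj p y := C.sq_adj h1
  have apw : C.adj p w := C.adj_symm (C.sq_adj (SqS.rot3 h1))
  have ayz : C.adj y z := C.sq_adj (C.rot h1)
  have awz : C.adj w z := C.adj_symm (C.sq_adj (SqS.rot2 h1))
  have hyz : hyp C y z = k := by rw [← h3]; exact (hyp_opp h1).symm
  have hwz : hyp C w z = h := by rw [← h2]; exact (hyp_opp (SqS.tr h1)).symm
  have toggle : ∀ (g : Hy C) (a b : V), C.adj a b → hyp C a b = g → Sep C g x a →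
      ¬ Sep C g x b := by
    intro g a b hab hg hs hc
    have h5 : Sep C g a b := (sep_adj g hab).2 hg
    exact ((sep_trans g x a b).1 hc).1 hs h5
  have keep : ∀ (g : Hy C) (a b : V), C.adj a b → hyp C a b ≠ g → ¬ Sep C g x a →
      ¬ Sep C g x b := by
    intro g a b hab hg hs hc
    have h5 : ¬ Sep C g a b := fun h => hg ((sep_adj g hab).1 h)
    exact hs (((sep_trans g x a b).1 hc).2 h5)
  have keep' : ∀ (g : Hy C) (a b : V), C.adj a b → hyp C a b ≠ g → Sep C g x a →
      Sep C g x b := by
    intro g a b hab hg hs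
    have h5 : ¬ Sep C g a b := fun h => hg ((sep_adj g hab).1 h)
    exact (sep_trans g x a b).2 ⟨fun _ => h5, fun _ => hs⟩
  by_cases a : Sep C h x p
  · by_cases b : Sep C k x p
    · refine ⟨z, w, p, y, SqS.rot2 h1, by rw [hyp_comm]; exact hwz,
        by rw [hyp_comm]; exact hyz, ?_, ?_⟩
      · exact keep h y z ayz (by rw [hyz]; exact hne.symm) (toggle h p y apy h2 a)
      · exact toggle k y z ayz hyz (keep' k p y apy (by rw [h2]; exact hne) b)
    · refine ⟨y, p, w, z, SqS.tr (C.rot h1), by rw [hyp_comm]; exact h2, hyz, ?_, ?_⟩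
      · exact toggle h p y apy h2 a
      · exact keep k p y apy (by rw [h2]; exact hne) b
  · by_cases b : Sep C k x p
    · refine ⟨w, z, y, p, SqS.tr (SqS.rot3 h1) , hwz, by rw [hyp_comm]; exact h3, ?_, ?_⟩
      · exact keep h p w apw (by rw [h3]; exact hne.symm) a
      · exact toggle k p w apw h3 b
    · exact ⟨p, y, z, w, h1, h2, h3, a, b⟩

/-- Crossing hyperplanes which are both incident to `x` span a square at `x`. -/
theorem span_of_cross {x y w : V} (hy : C.adj x y) (hw : C.adj x w)
    (hc : Cross C (hyp C x y) (hyp C x w)) : C.Sp x y w := by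
  obtain ⟨p, a, z, b, h1, h2, h3, h4, h5⟩ := hc.corner x
  obtain ⟨R, hR⟩ := exists_RP C x p
  obtain ⟨Q, q1, q2, q3⟩ := carrier (x := p) (y := a) (x' := x) (y' := y) h2 hy
    (by rw [h2]; exact h4) hR
  obtain ⟨Q', r1, r2, r3⟩ := carrier (x := p) (y := b) (x' := x) (y' := w) h3 hw
    (by rw [h3]; exact h5) hR
  exact lad_span q1 r1 hR.1.2.2 q3 r3 hR.1.2.1 q2 r2 ⟨z, h1⟩

/-- Moving along an edge whose hyperplane crosses `h`. -/
theorem Nh.move {x x' : V} {h : Hy C} (hx : Nh C h x) (ha : C.adj x x')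
    (hc : Cross C h (hyp C x x')) : Nh C h x' := by
  obtain ⟨y, hy, rfl⟩ := hx
  obtain ⟨p, hp⟩ := span_of_cross hy ha hc
  -- hp : sq x y p x'
  exact ⟨p, C.adj_symm (C.sq_adj (SqS.rot2 hp)), (hyp_opp (SqS.tr hp)).symm⟩

/-- The gate property: `y` is a nearest vertex to `v` in the carrier of `k`. -/
theorem gate {v y : V} {k : Hy C} (hy : Nh C k y)
    (hmin : ∀ z, Nh C k z → dd C y v ≤ dd C z v) :
    ∀ (n : ℕ) (R Q : List V) (z y' : V), R.length = n → RP C R z y → Lad C.toSqS R Q →
      Q.getLast? = some y' → hyp C y y' = k →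
      dd C z v + 1 = dd C y v + R.length := by
  intro n
  induction n using Nat.strong_induction_on with
  | _ n IH =>
    intro R Q z y' hn hR hL hQ hyy
    obtain ⟨R', rfl⟩ := hR.exists_cons
    cases R' with
    | nil =>
      have : z = y := by simpa using hR.1.2.2
      subst this
      simp
    | cons z1 R1 =>
      cases hL with
      | @cons _ _ q q' _ Q1 hL hs =>
        -- hs : sq z1 z q' q
        have hT := hR.tail
        have ih1 := IH _ (by simp at hn ⊢; omega) (z1 :: R1) (q :: Q1) z1 y' rfl hT hL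
          (by rw [List.getLast?_cons_cons] at hQ; exact hQ) hyy
        have hadj : C.adj z z1 := C.adj_symm (C.sq_adj hs)
        have hrung : ∀ {A B : List V} {a b : V}, Lad C.toSqS (a :: A) (b :: B) →
            (a :: A).getLast? = some y → (b :: B).getLast? = some y' → hyp C a b = k := by
          intro A B a b h h1 h2
          have := lad_hyp h rfl h1 rfl h2
          rw [← this, hyy]
        have hNz : Nh C k z := by
          refine ⟨q', C.sq_adj (C.rot hs), ?_⟩
          have := hrung (Lad.cons hL hs) hR.1.2.2 hQ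
          exact this
        rcases dd_adj v hadj with h | h
        · simp only [List.length_cons] at ih1 ⊢
          omega
        · exfalso
          -- dd z1 = dd z + 1
          cases R1 with
          | nil =>
            have : z1 = y := by simpa using hT.1.2.2
            subst this
            have := hmin z hNz
            omega
          | cons z2 R2 =>
            cases hL with
            | @cons _ _ r _ _ Q2 hL' hs' =>
              -- hs' : sq z2 z1 q r
              have hT2 := hT.tail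
              have ih2 := IH _ (by simp at hn ⊢; omega) (z2 :: R2) (r :: Q2) z2 y' rfl hT2 hL'
                (by rw [List.getLast?_cons_cons, List.getLast?_cons_cons] at hQ; exact hQ) hyy
              have hne : z ≠ z2 := by
                rintro rfl
                exact hR.2 _ (Eqv.refl _) Bt.here
              simp only [List.length_cons] at ih1 ih2
              obtain ⟨w, hw1, hw2⟩ := quad (v := v) (C.adj_symm hadj)
                (C.adj_symm (C.sq_adj hs')) hne h.symm (by omega)
              -- hw1 : sq z1 z w z2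
              have hfl : Flip C.toSqS (z :: z1 :: z2 :: R2) (z :: w :: z2 :: R2) :=
                Flip.here (SqS.tr (C.rot hw1))
              obtain ⟨Q3, l1, l2⟩ := lad_flip (Lad.cons (Lad.cons hL' hs') hs) hfl
              have hR3 : RP C (z :: w :: z2 :: R2) z y := hR.eqv (Eqv.single hfl)
              cases l1 with
              | @cons _ _ s _ _ Q4 l3 hs3 =>
                have hlast : (s :: Q4).getLast? = some y' := by
                  have := l2.last
                  rw [List.getLast?_cons_cons (a := _) (b := s)] at this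
                  rw [← this]
                  exact hQ
                have ih3 := IH _ (by simp at hn ⊢; omega) (w :: z2 :: R2) (s :: Q4) w y' rfl
                  hR3.tail l3 hlast hyy
                simp only [List.length_cons] at ih3
                omega

/-- A vertex of the carrier of `k` nearest to `v` lies on a shortest path from `v` to every
vertex of the carrier on its side; hence the first edge of a shortest path from `v` to it
separates `v` from all of them. -/
theorem sep_first {v v1 y : V} {k : Hy C} (hy : Nh C k y)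
    (hmin : ∀ z, Nh C k z → dd C y v ≤ dd C z v) {W : List V} (hW : RP C (W ++ [v1, v]) y v)
    (hmk : hyp C v1 v ≠ k) {z : V} (hz : Nh C k z) : Sep C (hyp C v1 v) z v := by
  have main : ∀ z, Nh C k z → ¬ Sep C k z y → Sep C (hyp C v1 v) z v := by
    intro z hz hs
    obtain ⟨y', hy', he⟩ := hy
    obtain ⟨z', hz', he'⟩ := hz
    obtain ⟨R, hR⟩ := exists_RP C z y
    obtain ⟨Q, h1, h2, h3⟩ := carrier (x := y) (y := y') (x' := z) (y' := z')
      (by rw [he, he']) hz' (by rw [he]; exact hs) hR
    have hg := gate ⟨y', hy', he⟩ hmin _ R Q z y' rfl hR h1 h3 he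
    obtain ⟨P', Q', e1, e2, h4⟩ := hR.1.trans hW.1
    have hlen : (P' ++ y :: Q').length = dd C z v := by
      have l1 : R.length = P'.length + 1 := by rw [e1]; simp
      have l2 : (y :: Q').length = dd C y v := by rw [← e2]; exact hW.length_eq
      rw [List.length_append, l2]
      omega
    have h5 : RP C (P' ++ y :: Q') z v := red_of_length h4 hlen.le
    have h6 := h5.cr_sep (hyp C v1 v)
    rw [cr_append, ← e2] at h6
    have h7 : cr C (hyp C v1 v) (W ++ [v1, v]) ≠ 0 := by
      have : W ++ [v1, v] = W ++ v1 :: [v] := rfl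
      rw [this, cr_append, cr_cons_cons, if_pos rfl]
      omega
    by_contra hc
    rw [if_neg hc] at h6
    omega
  by_cases hs : Sep C k z y
  · obtain ⟨z', hz', he'⟩ := hz
    have h1 : Sep C k z z' := (sep_adj k hz').2 he'
    have h2 : ¬ Sep C k z' y := fun hc => ((sep_trans k z z' y).1 hs).1 h1 hc
    have h3 := main z' ⟨z, C.adj_symm hz', by rw [hyp_comm]; exact he'⟩ h2
    have h4 : ¬ Sep C (hyp C v1 v) z z' := by
      intro hc
      have := (sep_adj _ hz').1 hc
      rw [he'] at this
      exact hmk this.symm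
    exact (sep_trans _ z z' v).2 ⟨fun hc => absurd hc h4, fun hc => absurd h3 hc⟩
  · exact main z hz hs

/-- Helly property for carriers. -/
theorem helly_step (A : Set (Hy C)) (k : Hy C) (hA : ∃ x, ∀ h ∈ A, Nh C h x)
    (hk : ∃ y, Nh C k y) (hcr : ∀ h ∈ A, Cross C h k) :
    ∃ x, (∀ h ∈ A, Nh C h x) ∧ Nh C k x := by
  classical
  obtain ⟨x0, hx0⟩ := hA
  obtain ⟨y0, hy0⟩ := hk
  have hex : ∃ n, ∃ x y, (∀ h ∈ A, Nh C h x) ∧ Nh C k y ∧ dd C y x = n :=
    ⟨_, x0, y0, hx0, hy0, rfl⟩
  obtain ⟨x, y, hx, hy, hn⟩ := Nat.find_spec hex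
  have hmin : ∀ x' y', (∀ h ∈ A, Nh C h x') → Nh C k y' → dd C y x ≤ dd C y' x' := by
    intro x' y' h1 h2
    rw [hn]
    exact Nat.find_min' hex ⟨x', y', h1, h2, rfl⟩
  by_cases hxy : x = y
  · exact ⟨x, hx, by rw [hxy]; exact hy⟩
  exfalso
  obtain ⟨W, hW⟩ := exists_RP C y x
  -- write W as W' ++ [v1, x]
  have hlen : 2 ≤ W.length := by
    rw [hW.length_eq]
    by_contra hc
    exact hxy (eq_of_dd (C := C) (x := y) (y := x) (by omega)).symm
  obtain ⟨W', v1, hWe⟩ : ∃ W' v1, W = W' ++ [v1, x] := by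
    have hne := hW.1.ne_nil
    have h1 : W.getLast hne = x := by
      have := hW.1.2.2
      rw [List.getLast?_eq_some_getLast hne] at this
      exact Option.some.inj this
    have h2 : W = W.dropLast ++ [x] := by
      rw [← h1]; exact (List.dropLast_append_getLast hne).symm
    have hne2 : W.dropLast ≠ [] := by
      intro hc
      rw [hc] at h2
      rw [h2] at hlen
      simp at hlen
    refine ⟨W.dropLast.dropLast, W.dropLast.getLast hne2, ?_⟩
    have h3 := (List.dropLast_append_getLast hne2).symm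
    conv_lhs => rw [h2, h3]
    simp
  subst hWe
  have hadj : C.adj v1 x := by
    have := (hW.1.1).right_of_append
    exact (List.isChain_cons_cons.1 this).1
  -- the distance from v1
  have hv1 : dd C y v1 < dd C y x := by
    have h1 : Pth C (W' ++ [v1]) y v1 := by
      refine ⟨?_, ?_, by simp⟩
      · have := hW.1.1
        have e : W' ++ [v1, x] = (W' ++ [v1]) ++ [x] := by simp
        rw [e] at this
        exact this.left_of_append
      · have := hW.1.2.1
        cases W' with
        | nil => simpa using this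
        | cons a L => simpa using this
    have h2 := dd_le h1
    have h3 := hW.length_eq
    simp at h2 h3
    omega
  have hmk : hyp C v1 x ≠ k := by
    intro he
    have : Nh C k x := ⟨v1, C.adj_symm hadj, by rw [hyp_comm]; exact he⟩
    have h1 := hmin x x hx this
    rw [dd_self] at h1
    exact hxy (eq_of_dd h1).symm
  have hv1A : ∀ h ∈ A, Nh C h v1 := by
    intro h hh
    by_cases hm : hyp C v1 x = h
    · exact ⟨x, hadj, hm⟩
    · obtain ⟨p, a, z, b, s1, s2, s3⟩ := hcr h hh
      have n1 : Nh C h p := ⟨a, C.sq_adj s1, s2⟩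
      have n2 : Nh C k p := ⟨b, C.adj_symm (C.sq_adj (SqS.rot3 s1)), s3⟩
      have hsep := sep_first hy (fun z hz => hmin x z hx hz) hW hmk n2
      have hc := cross_of_sep (hx h hh) n1 hsep hm
      exact (hx h hh).move (C.adj_symm hadj) (by rw [hyp_comm]; exact hc)
  have := hmin v1 y hv1A hy
  omega

/-- No four hyperplanes cross pairwise. -/
theorem no_four {h1 h2 h3 h4 : Hy C} (h12 : Cross C h1 h2) (h13 : Cross C h1 h3)
    (h14 : Cross C h1 h4) (h23 : Cross C h2 h3) (h24 : Cross C h2 h4) (h34 : Cross C h3 h4) :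
    False := by
  have hN : ∀ {a b : Hy C}, Cross C a b → ∃ x, Nh C a x ∧ Nh C b x := by
    rintro a b ⟨p, y, z, w, s1, s2, s3⟩
    exact ⟨p, ⟨y, C.sq_adj s1, s2⟩, ⟨w, C.adj_symm (C.sq_adj (SqS.rot3 s1)), s3⟩⟩
  obtain ⟨p, p1, p2⟩ := hN h12
  obtain ⟨q, q3, q4⟩ := hN h34
  obtain ⟨x, hx, hx3⟩ := helly_step ({h1, h2} : Set (Hy C)) h3
    ⟨p, by rintro h (rfl | rfl) <;> assumption⟩ ⟨q, q3⟩ (by rintro h (rfl | rfl) <;> assumption)
  obtain ⟨y, hy, hy4⟩ := helly_step ({h1, h2, h3} : Set (Hy C)) h4
    ⟨x, by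
      rintro h (rfl | rfl | rfl)
      · exact hx _ (Or.inl rfl)
      · exact hx _ (Or.inr rfl)
      · exact hx3⟩ ⟨q, q4⟩ (by rintro h (rfl | rfl | rfl) <;> assumption)
  obtain ⟨a1, b1, c1⟩ := hy h1 (Or.inl rfl)
  obtain ⟨a2, b2, c2⟩ := hy h2 (Or.inr (Or.inl rfl))
  obtain ⟨a3, b3, c3⟩ := hy h3 (Or.inr (Or.inr rfl))
  obtain ⟨a4, b4, c4⟩ := hy4
  subst c1 c2 c3 c4
  exact C.no4 (span_of_cross b1 b2 h12) (span_of_cross b1 b3 h13) (span_of_cross b1 b4 h14)
    (span_of_cross b2 b3 h23) (span_of_cross b2 b4 h24) (span_of_cross b3 b4 h34)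

/-- A triple of hyperplanes determines the corner of the cube on given sides. -/
theorem corner_unique {p q a b c a' b' c' : V} (ha : C.adj p a) (hb : C.adj p b)
    (hc : C.adj p c) (ha' : C.adj q a') (hb' : C.adj q b') (hc' : C.adj q c')
    (e1 : hyp C p a = hyp C q a') (e2 : hyp C p b = hyp C q b') (e3 : hyp C p c = hyp C q c')
    (s1 : ¬ Sep C (hyp C p a) q p) (s2 : ¬ Sep C (hyp C p b) q p)
    (s3 : ¬ Sep C (hyp C p c) q p) (h12 : C.Sp q a' b') (h13 : C.Sp q a' c')
    (h23 : C.Sp q b' c') : p = q := by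
  obtain ⟨R, hR⟩ := exists_RP C q p
  obtain ⟨Q1, l1, m1, _⟩ := carrier e1 ha' s1 hR
  obtain ⟨Q2, l2, m2, _⟩ := carrier e2 hb' s2 hR
  obtain ⟨Q3, l3, m3, _⟩ := carrier e3 hc' s3 hR
  obtain ⟨R', rfl⟩ := hR.exists_cons
  cases R' with
  | nil => simpa using hR.1.2.2.symm
  | cons q1 R1 =>
    exfalso
    cases l1 with
    | @cons _ _ u1 _ _ _ k1 t1 =>
      cases l2 with
      | @cons _ _ u2 _ _ _ k2 t2 =>
        cases l3 with
        | @cons _ _ u3 _ _ _ k3 t3 =>
          simp at m1 m2 m3
          subst m1 m2 m3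
          -- t1 : sq q1 q a' u1
          exact C.no4 h12 h13 ⟨u1, C.rot t1⟩ h23 ⟨u2, C.rot t2⟩ ⟨u3, C.rot t3⟩

/-- The extremal square lemma: among the corners `p` of squares dual to `(h,k)` on a fixed side,
a farthest one from `q` has at most one neighbour direction spanning with both edges. -/
theorem extremal {h k : Hy C} {q p a b : V}
    (h1 : hyp C p a = h) (h2 : hyp C p b = k) (hab : C.Sp p a b)
    (hmax : ∀ p', Nh C h p' → Nh C k p' → ¬ Sep C h p' p → ¬ Sep C k p' p →
      dd C p' q ≤ dd C p q) {c d : V} (c1 : C.Sp p a c) (c2 : C.Sp p b c)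
    (d1 : C.Sp p a d) (d2 : C.Sp p b d) : c = d := by
  by_contra hne
  have adjSp : ∀ {x y : V}, C.Sp p x y → C.adj p y := by
    rintro x y ⟨z, hz⟩
    exact C.adj_symm (C.sq_adj (SqS.rot3 hz))
  have far : ∀ c, C.Sp p a c → C.Sp p b c → dd C c q + 1 = dd C p q := by
    intro c c1 c2
    have hc := adjSp c1
    have n1 : Nh C h c := by
      obtain ⟨z, hz⟩ := c1
      exact ⟨z, C.adj_symm (C.sq_adj (SqS.rot2 hz)), by
        rw [← h1]; exact (hyp_opp (SqS.tr hz)).symm⟩
    have n2 : Nh C k c := by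
      obtain ⟨z, hz⟩ := c2
      exact ⟨z, C.adj_symm (C.sq_adj (SqS.rot2 hz)), by
        rw [← h2]; exact (hyp_opp (SqS.tr hz)).symm⟩
    have s1 : ¬ Sep C h c p := by
      intro hs
      have := (sep_adj h (C.adj_symm hc)).1 hs
      rw [hyp_comm, ← h1] at this
      obtain ⟨z, hz⟩ := c1
      exact hyp_ne_of_sq hz this.symm
    have s2 : ¬ Sep C k c p := by
      intro hs
      have := (sep_adj k (C.adj_symm hc)).1 hs
      rw [hyp_comm, ← h2] at this
      obtain ⟨z, hz⟩ := c2
      exact hyp_ne_of_sq hz this.symm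
    have h3 := hmax c n1 n2 s1 s2
    rcases dd_adj q hc with h4 | h4
    · omega
    · omega
  obtain ⟨w, hw, _⟩ := quad (v := q) (adjSp c1) (adjSp d1) hne (far c c1 c2) (far d d1 d2)
  exact C.no4 hab c1 d1 c2 d2 ⟨w, hw⟩

end Pool.Agent.H386R3.CC
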