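import Pool.Agent.H386R3.CC.Real
import Pool.Agent.H386R3.CC.Cross

set_option autoImplicit false

/-!
# A cube complex with flag links homeomorphic to a convex set is CAT(0) combinatorially
-/

namespace Pool.Agent.H386R3.CC

theorem red_single {V : Type} (S : SqS V) (x : V) : Red S [x] := by
  intro Q hQ hb
  have h := hQ.length
  obtain ⟨R, hR⟩ := hb.del
  have h2 := hR.length
  simp at h
  omega

/-- The end of the lift of a path (newest vertex first) starting at `c0`. -/
noncomputable def gf {V : Type} {S : SqS V} (c0 : Om S) : List V → Om S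
  | [] => c0
  | [_] => c0
  | x :: y :: P => (gf c0 (y :: P)).step x

theorem gf_red {V : Type} {S : SqS V} (v : V) : ∀ (P : List V) (hP : Red S P) (hne : P ≠ []),
    P.getLast? = some v → gf (Om.mk [v] ⟨red_single S v, by simp⟩) P = Om.mk P ⟨hP, hne⟩
  | [], _, hne, _ => absurd rfl hne
  | [x], hP, hne, hl => by
    simp at hl
    subst hl
    rfl
  | x :: y :: P, hP, hne, hl => by
    have ih := gf_red v (y :: P) hP.tail (by simp) (by rwa [List.getLast?_cons_cons] at hl)
    rw [gf, ih]
    exact step_asc _ hP

theorem gf_fin {V : Type} {S : SqS V} {v : V} {c0 : Om S} (h0 : c0.fin = v) :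
    ∀ (P : List V) (x : V), P.head? = some x → P.getLast? = some v → (gf c0 P).fin = x
  | [], x, h, _ => by simp at h
  | [y], x, h, hl => by
    simp at h hl
    rw [gf, h0, ← hl, h]
  | y :: z :: P, x, h, _ => by
    simp at h
    rw [gf, fin_step, h]

theorem gf_back {V : Type} {S : SqS V} {c0 : Om S} : ∀ (T : List V) (h : V) (c : Om S),
    c.fin = h → T.foldl (fun c x => c.step x) c = c0 → c = gf c0 (h :: T)
  | [], h, c, hf, he => by simpa [gf] using he
  | y :: T, h, c, hf, he => by
    have ih := gf_back T y (c.step y) (fin_step _ _) he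
    rw [gf, ← ih, ← hf]
    exact (step_step _ _).symm

theorem gf_foldl {V : Type} {S : SqS V} {c0 : Om S} : ∀ (P : List V), P ≠ [] →
    P.reverse.tail.foldl (fun c x => c.step x) c0 = gf c0 P
  | [], h => absurd rfl h
  | [x], _ => rfl
  | x :: y :: P, _ => by
    have ih := gf_foldl (c0 := c0) (y :: P) (by simp)
    rw [List.reverse_cons, List.tail_append_of_ne_nil (by simp), List.foldl_append, ih]
    rfl

namespace CubeComplex

variable {V ι : Type} {X : CubeComplex V ι} {hX : X.FlagLinks}

theorem holonomy_list {E : Type*} [NormedAddCommGroup E] [NormedSpace ℝ E] {B : Set E}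
    (hB : Convex ℝ B) (φ : X.realization ≃ₜ B) (W : List V) (hW : List.IsChain X.Adj W)
    (v : V) (h0 : W.head? = some v) (h1 : W.getLast? = some v) (c0 : Om (X.toS hX))
    (hc : c0.fin = v) : W.tail.foldl (fun c x => c.step x) c0 = c0 := by
  have hne : W ≠ [] := by rintro rfl; simp at h0
  have hlen : 0 < W.length := List.length_pos_iff.2 hne
  rcases Nat.eq_zero_or_pos W.tail.length with h | hpos
  · rw [List.length_eq_zero_iff.1 h]; rfl
  let x : ℕ → V := fun k => W.getD k v
  let G : ℕ → Om (X.toS hX) := fun k => (W.tail.take k).foldl (fun c x => c.step x) c0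
  have hx0 : x 0 = v := by
    simp only [x, List.getD_eq_getElem?_getD, ← List.head?_eq_getElem?, h0]
    rfl
  have hWl : W.tail.length = W.length - 1 := List.length_tail
  have hxm : x W.tail.length = v := by
    simp only [x, List.getD_eq_getElem?_getD, hWl, ← List.getLast?_eq_getElem?, h1]
    rfl
  have hxk : ∀ k (hk : k < W.length), x k = W[k] := by
    intro k hk
    simp only [x, List.getD_eq_getElem?_getD, List.getElem?_eq_getElem hk]
    rfl
  have := holonomy (hX := hX) hB φ x (m := W.tail.length) hpos ?_ (hxm.trans hx0.symm) G ?_ ?_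
  · have e1 : G W.tail.length = W.tail.foldl (fun c x => c.step x) c0 := by
      simp only [G, List.take_length]
    rw [← e1, this]
    simp [G]
  · intro k hk
    rw [hxk k (by omega), hxk (k + 1) (by omega)]
    exact List.isChain_iff_getElem.1 hW k (by omega)
  · simp only [G, List.take_zero, List.foldl_nil]
    rw [hx0, hc]
  · intro k hk
    simp only [G]
    rw [List.take_succ_eq_append_getElem hk, List.foldl_append, hxk (k + 1) (by omega)]
    simp only [List.foldl_cons, List.foldl_nil]
    congr 1
    rw [List.getElem_tail]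

theorem simply_connected {E : Type*} [NormedAddCommGroup E] [NormedSpace ℝ E] {B : Set E}
    (hB : Convex ℝ B) (φ : X.realization ≃ₜ B) (P Q : List V) (hP : List.IsChain X.Adj P)
    (hQ : List.IsChain X.Adj Q) (hne : P ≠ []) (hh : P.head? = Q.head?)
    (hl : P.getLast? = Q.getLast?) (rP : Red (X.toS hX) P) (rQ : Red (X.toS hX) Q) :
    Eqv (X.toS hX) P Q := by
  obtain ⟨h, T', rfl⟩ : ∃ h T, P = h :: T := by
    cases P with
    | nil => exact absurd rfl hne
    | cons h T => exact ⟨h, T, rfl⟩
  obtain ⟨T, rfl⟩ : ∃ T, Q = h :: T := by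
    cases Q with
    | nil => simp at hh
    | cons h' T => simp at hh; exact ⟨T, by rw [hh]⟩
  obtain ⟨v, hv⟩ : ∃ v, (h :: T').getLast? = some v :=
    ⟨_, List.getLast?_eq_some_getLast (by simp)⟩
  set c0 : Om (X.toS hX) := Om.mk [v] ⟨red_single _ v, by simp⟩ with hc0
  have hc0f : c0.fin = v := rfl
  have hchain : List.IsChain X.Adj ((h :: T').reverse ++ T) := by
    rw [List.reverse_cons, List.append_assoc, List.singleton_append]
    refine List.isChain_split.2 ⟨?_, hQ⟩
    rw [← List.reverse_cons, List.isChain_reverse]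
    refine List.IsChain.imp ?_ hP
    intro a b hab
    exact hab.symm
  have hhead : ((h :: T').reverse ++ T).head? = some v := by
    rw [List.head?_append_of_ne_nil _ (by simp), List.head?_reverse, hv]
  have hlast : ((h :: T').reverse ++ T).getLast? = some v := by
    rw [List.reverse_cons, List.append_assoc, List.singleton_append,
      List.getLast?_append_of_ne_nil _ (by simp), ← hl, hv]
  have hol := holonomy_list (hX := hX) hB φ _ hchain v hhead hlast c0 hc0f
  rw [List.tail_append_of_ne_nil (by simp), List.foldl_append, gf_foldl _ (by simp)] at hol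
  have e1 := gf_back T h _ (gf_fin hc0f (h :: T') h rfl hv) hol
  rw [gf_red v (h :: T') rP (by simp) hv, gf_red v (h :: T) rQ (by simp) (by rw [← hl, hv])] at e1
  exact Om.exact e1

theorem connected {E : Type*} [NormedAddCommGroup E] [NormedSpace ℝ E] {B : Set E}
    (hB : Convex ℝ B) (φ : X.realization ≃ₜ B) (x y : V) :
    ∃ P : List V, List.IsChain X.Adj P ∧ P.head? = some x ∧ P.getLast? = some y := by
  classical
  let K : V → Prop := fun x => ∃ P : List V, List.IsChain X.Adj P ∧ P.head? = some x ∧
    P.getLast? = some y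
  have Kadj : ∀ u u', K u → X.Adj u' u → K u' := by
    rintro u u' ⟨P, h1, h2, h3⟩ ha
    cases P with
    | nil => simp at h2
    | cons a P =>
      simp at h2
      subst h2
      exact ⟨u' :: a :: P, List.isChain_cons_cons.2 ⟨ha, h1⟩, rfl, by
        rw [List.getLast?_cons_cons]; exact h3⟩
  have Kcube : ∀ i u u', X.Mem u i → X.Mem u' i → K u → K u' := by
    rintro i u u' ⟨a, rfl⟩ ⟨b, rfl⟩ hK
    have step : ∀ (a : Corner) (k : Fin 3) (w : Bool), K (X.corner i a) →
        K (X.corner i (Function.update a k w)) := by
      intro a k w hK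
      by_cases hw : w = a k
      · subst hw; rw [Function.update_eq_self]; exact hK
      · have hv' : w = !a k := by
          cases w <;> cases h4 : a k <;> simp_all
        have hfl : Function.update a k w = flip a k := by rw [hv']; rfl
        rw [hfl]
        exact Kadj _ _ hK ⟨i, flip a k, k, rfl, by rw [flip_flip]⟩
    have e : Function.update (Function.update (Function.update a 0 (b 0)) 1 (b 1)) 2 (b 2) = b := by
      funext k
      fin_cases k <;> simp
    rw [← e]
    exact step _ _ _ (step _ _ _ (step _ _ _ hK))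
  have : PreconnectedSpace B := Subtype.preconnectedSpace hB.isPreconnected
  have : PreconnectedSpace X.realization :=
    φ.symm.surjective.denseRange.preconnectedSpace φ.symm.continuous
  let A : Set X.realization := {p | ∃ u, K u ∧ 0 < p.1 u}
  let A' : Set X.realization := {p | ∃ u, ¬ K u ∧ 0 < p.1 u}
  have oA : IsOpen A := by
    have : A = ⋃ u ∈ {u | K u}, {p : X.realization | 0 < p.1 u} := by
      ext p; simp [A]
    rw [this]
    exact isOpen_biUnion fun u _ => isOpen_lt continuous_const
      ((continuous_apply u).comp continuous_subtype_val)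
  have oA' : IsOpen A' := by
    have : A' = ⋃ u ∈ {u | ¬ K u}, {p : X.realization | 0 < p.1 u} := by
      ext p; simp [A']
    rw [this]
    exact isOpen_biUnion fun u _ => isOpen_lt continuous_const
      ((continuous_apply u).comp continuous_subtype_val)
  have hcompl : A' = Aᶜ := by
    ext p
    constructor
    · rintro ⟨u, h1, h2⟩ ⟨u', h3, h4⟩
      obtain ⟨κ, hκ⟩ := real_cube p.2
      exact h1 (Kcube κ u' u (hκ u' h4.ne') (hκ u h2.ne') h3)
    · intro hp
      obtain ⟨u, hu⟩ := real_pos p.2
      refine ⟨u, fun hK => hp ⟨u, hK, hu⟩, hu⟩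
  have hclopen : IsClopen A := ⟨by rw [← isOpen_compl_iff, ← hcompl]; exact oA', oA⟩
  have hKy : K y := ⟨[y], List.isChain_singleton y, rfl, rfl⟩
  have hA : A.Nonempty := ⟨⟨Pi.single y 1, vertex_mem y⟩, y, hKy, by simp⟩
  have huniv := hclopen.eq_univ hA
  have hx : (⟨Pi.single x 1, vertex_mem x⟩ : X.realization) ∈ A := by rw [huniv]; trivial
  obtain ⟨u, hu, hpos⟩ := hx
  have : u = x := by
    by_contra hc
    simp only at hpos
    rw [Pi.single_eq_of_ne hc] at hpos
    exact lt_irrefl _ hpos
  rw [← this]
  exact hu

/-- The combinatorial CAT(0) structure. -/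
def toCat {E : Type*} [NormedAddCommGroup E] [NormedSpace ℝ E] {B : Set E}
    (X : CubeComplex V ι) (hX : X.FlagLinks) (hB : Convex ℝ B) (φ : X.realization ≃ₜ B) :
    CatS V where
  toSqS := X.toS hX
  adj := X.Adj
  adj_symm := Adj.symm
  adj_ne := Adj.ne
  sq_adj := Sq.adj
  conn := connected hB φ
  sc := simply_connected hB φ
  no4 := no_four_edges hX

end CubeComplex

end Pool.Agent.H386R3.CC
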