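import Pool.Agent.H386R3.CC.Flip

set_option autoImplicit false

/-!
# Paths, distance and ladders
-/

namespace Pool.Agent.H386R3.CC

universe u

/-- Two edges `x a` and `x b` span a square. -/
def SqS.Sp {V : Type u} (S : SqS V) (x a b : V) : Prop := ∃ p, S.sq x a p b

theorem SqS.Sp.symm {V : Type u} {S : SqS V} {x a b : V} (h : S.Sp x a b) : S.Sp x b a :=
  let ⟨p, hp⟩ := h
  ⟨p, SqS.tr hp⟩

/-- The combinatorial content of a three-dimensional CAT(0) cube complex. -/
structure CatS (V : Type u) extends SqS V where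
  adj : V → V → Prop
  adj_symm : ∀ {x y : V}, adj x y → adj y x
  adj_ne : ∀ {x y : V}, adj x y → x ≠ y
  sq_adj : ∀ {x y z w : V}, sq x y z w → adj x y
  conn : ∀ x y : V, ∃ P : List V, List.IsChain adj P ∧ P.head? = some x ∧ P.getLast? = some y
  sc : ∀ P Q : List V, List.IsChain adj P → List.IsChain adj Q → P ≠ [] →
    P.head? = Q.head? → P.getLast? = Q.getLast? → Red toSqS P → Red toSqS Q → Eqv toSqS P Q
  no4 : ∀ {x a b c d : V}, toSqS.Sp x a b → toSqS.Sp x a c → toSqS.Sp x a d →
    toSqS.Sp x b c → toSqS.Sp x b d → toSqS.Sp x c d → False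

variable {V : Type u} {C : CatS V}

/-- `P` is an edge path from `y` to `x` (newest vertex first). -/
def Pth (C : CatS V) (P : List V) (x y : V) : Prop :=
  List.IsChain C.adj P ∧ P.head? = some x ∧ P.getLast? = some y

/-- A reduced path. -/
def RP (C : CatS V) (P : List V) (x y : V) : Prop := Pth C P x y ∧ Red C.toSqS P

theorem flip_chain {P Q : List V} (h : Flip C.toSqS P Q) (hP : List.IsChain C.adj P) :
    List.IsChain C.adj Q := by
  induction h with
  | here hs =>
    rw [List.isChain_cons_cons, List.isChain_cons_cons] at hP ⊢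
    exact ⟨C.adj_symm (C.sq_adj (SqS.rot3 hs)), C.adj_symm (C.sq_adj (SqS.rot2 hs)), hP.2.2⟩
  | @tail x L L' h ih =>
    cases L with
    | nil => exact absurd rfl h.ne_nil
    | cons a L =>
      obtain ⟨L'', hL''⟩ := (Eqv.single h).exists_cons
      subst hL''
      rw [List.isChain_cons_cons] at hP ⊢
      exact ⟨hP.1, ih hP.2⟩

theorem eqv_chain {P Q : List V} (h : Eqv C.toSqS P Q) (hP : List.IsChain C.adj P) :
    List.IsChain C.adj Q := by
  induction h with
  | refl => exact hP
  | tail _ h2 ih => exact flip_chain h2 ih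

theorem Del.length {P Q : List V} (h : Del P Q) : P.length = Q.length + 2 := by
  induction h with
  | here => simp
  | tail _ ih => simp [ih]

theorem Del.head {P Q : List V} (h : Del P Q) : P.head? = Q.head? := by
  cases h <;> rfl

theorem Del.ne_nil {P Q : List V} (h : Del P Q) : Q ≠ [] := by
  cases h <;> simp

theorem Del.last {P Q : List V} (h : Del P Q) : P.getLast? = Q.getLast? := by
  induction h with
  | here => simp [List.getLast?_cons_cons]
  | @tail x L L' h ih =>
    have h2 := h.ne_nil
    have h1 : L ≠ [] := by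
      have := h.length
      intro hL
      subst hL
      simp at this
    cases L with
    | nil => exact absurd rfl h1
    | cons a L =>
      cases L' with
      | nil => exact absurd rfl h2
      | cons b L' => rw [List.getLast?_cons_cons, List.getLast?_cons_cons]; exact ih

theorem Del.chain {P Q : List V} (h : Del P Q) (hP : List.IsChain C.adj P) :
    List.IsChain C.adj Q := by
  induction h with
  | here =>
    rw [List.isChain_cons_cons, List.isChain_cons_cons] at hP
    exact hP.2.2
  | @tail x L L' h ih =>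
    have h2 := h.ne_nil
    have h3 := h.head
    cases L with
    | nil =>
      have := h.length
      simp at this
    | cons a L =>
      cases L' with
      | nil => exact absurd rfl h2
      | cons b L' =>
        obtain rfl : a = b := by simpa using h3
        rw [List.isChain_cons_cons] at hP ⊢
        exact ⟨hP.1, ih hP.2⟩

theorem Bt.del {P : List V} (h : Bt P) : ∃ Q, Del P Q := by
  induction h with
  | here => exact ⟨_, Del.here⟩
  | tail _ ih =>
    obtain ⟨Q, hQ⟩ := ih
    exact ⟨_, Del.tail hQ⟩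

theorem Pth.eqv {P Q : List V} {x y : V} (h : Pth C P x y) (hPQ : Eqv C.toSqS P Q) :
    Pth C Q x y :=
  ⟨eqv_chain hPQ h.1, by rw [← hPQ.head]; exact h.2.1, by rw [← hPQ.last]; exact h.2.2⟩

theorem Pth.del {P Q : List V} {x y : V} (h : Pth C P x y) (hPQ : Del P Q) :
    Pth C Q x y :=
  ⟨hPQ.chain h.1, by rw [← hPQ.head]; exact h.2.1, by rw [← hPQ.last]; exact h.2.2⟩

theorem RP.eqv {P Q : List V} {x y : V} (h : RP C P x y) (hPQ : Eqv C.toSqS P Q) :
    RP C Q x y := ⟨h.1.eqv hPQ, h.2.of_eqv hPQ⟩

/-- Flips and deletions. -/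
def Rw (C : CatS V) : List V → List V → Prop :=
  Relation.ReflTransGen (fun A B => Flip C.toSqS A B ∨ Del A B)

theorem Eqv.rw {P Q : List V} (h : Eqv C.toSqS P Q) : Rw C P Q :=
  Relation.ReflTransGen.mono (fun _ _ h => Or.inl h) _ _ h

theorem exists_reduce : ∀ (n : ℕ) (P : List V), P.length = n →
    ∃ Q, Rw C P Q ∧ Red C.toSqS Q := by
  intro n
  induction n using Nat.strong_induction_on with
  | _ n IH =>
    intro P hP
    by_cases hr : Red C.toSqS P
    · exact ⟨P, Relation.ReflTransGen.refl, hr⟩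
    · unfold Red at hr
      push Not at hr
      obtain ⟨W, hW, hb⟩ := hr
      obtain ⟨Q, hQ⟩ := hb.del
      have h1 := hW.length
      have h2 := hQ.length
      obtain ⟨R, hR, hRr⟩ := IH Q.length (by omega) Q rfl
      exact ⟨R, hW.rw.trans (Relation.ReflTransGen.head (Or.inr hQ) hR), hRr⟩

theorem Rw.pth {P Q : List V} {x y : V} (h : Rw C P Q) (hP : Pth C P x y) : Pth C Q x y := by
  induction h with
  | refl => exact hP
  | tail _ h2 ih =>
    rcases h2 with h2 | h2
    · exact ih.eqv (Eqv.single h2)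
    · exact ih.del h2

theorem Rw.length_le {P Q : List V} (h : Rw C P Q) : Q.length ≤ P.length := by
  induction h with
  | refl => exact le_rfl
  | tail _ h2 ih =>
    rcases h2 with h2 | h2
    · rw [← h2.length]; exact ih
    · have := h2.length; omega

theorem exists_RP (C : CatS V) (x y : V) : ∃ P, RP C P x y := by
  obtain ⟨P, h1, h2, h3⟩ := C.conn x y
  obtain ⟨Q, hQ, hr⟩ := exists_reduce (C := C) _ P rfl
  exact ⟨Q, hQ.pth ⟨h1, h2, h3⟩, hr⟩

/-- The number of vertices on a shortest path from `y` to `x`. -/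
noncomputable def dd (C : CatS V) (x y : V) : ℕ := (exists_RP C x y).choose.length

theorem Pth.ne_nil {P : List V} {x y : V} (h : Pth C P x y) : P ≠ [] := by
  intro h'
  subst h'
  simp [Pth] at h

theorem RP.sc {P Q : List V} {x y : V} (h : RP C P x y) (h' : RP C Q x y) :
    Eqv C.toSqS P Q :=
  C.sc P Q h.1.1 h'.1.1 h.1.ne_nil (h.1.2.1.trans h'.1.2.1.symm) (h.1.2.2.trans h'.1.2.2.symm)
    h.2 h'.2

theorem RP.length_eq {P : List V} {x y : V} (h : RP C P x y) : P.length = dd C x y :=
  (h.sc (exists_RP C x y).choose_spec).length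

theorem dd_le {P : List V} {x y : V} (h : Pth C P x y) : dd C x y ≤ P.length := by
  obtain ⟨Q, hQ, hr⟩ := exists_reduce (C := C) _ P rfl
  have : RP C Q x y := ⟨hQ.pth h, hr⟩
  rw [← this.length_eq]
  exact hQ.length_le

theorem red_of_length {P : List V} {x y : V} (h : Pth C P x y) (hl : P.length ≤ dd C x y) :
    RP C P x y := by
  refine ⟨h, fun Q hQ hb => ?_⟩
  obtain ⟨R, hR⟩ := hb.del
  have h1 := dd_le ((h.eqv hQ).del hR)
  have h2 := hQ.length
  have h3 := hR.length
  omega

theorem RP.exists_cons {P : List V} {x y : V} (h : RP C P x y) : ∃ P', P = x :: P' := by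
  have h1 := h.1.2.1
  cases P with
  | nil => simp at h1
  | cons a P => exact ⟨P, by simp at h1; rw [h1]⟩

theorem Pth.exists_cons {P : List V} {x y : V} (h : Pth C P x y) : ∃ P', P = x :: P' := by
  have h1 := h.2.1
  cases P with
  | nil => simp at h1
  | cons a P => exact ⟨P, by simp at h1; rw [h1]⟩

theorem RP_single (C : CatS V) (x : V) : RP C [x] x x := by
  refine ⟨⟨List.isChain_singleton x, rfl, rfl⟩, ?_⟩
  intro Q hQ hb
  have h := hQ.length
  obtain ⟨R, hR⟩ := hb.del
  have h2 := hR.length
  simp at h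
  omega

theorem dd_self (C : CatS V) (x : V) : dd C x x = 1 := (RP_single C x).length_eq.symm

theorem dd_pos (C : CatS V) (x y : V) : 1 ≤ dd C x y := by
  obtain ⟨P, hP⟩ := exists_RP C x y
  rw [← hP.length_eq]
  exact List.length_pos_iff.2 hP.1.ne_nil

theorem eq_of_dd {x y : V} (h : dd C x y ≤ 1) : x = y := by
  obtain ⟨P, hP⟩ := exists_RP C x y
  have h1 := hP.length_eq
  obtain ⟨P', rfl⟩ := hP.exists_cons
  have h2 : P' = [] := by
    cases P' with
    | nil => rfl
    | cons a L => simp at h1; omega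
  subst h2
  have := hP.1.2.2
  simpa using this

theorem Pth.cons {P : List V} {x x' y : V} (h : Pth C P x y) (ha : C.adj x' x) :
    Pth C (x' :: P) x' y := by
  obtain ⟨P', rfl⟩ := h.exists_cons
  exact ⟨List.isChain_cons_cons.2 ⟨ha, h.1⟩, rfl, by
    rw [List.getLast?_cons_cons]; exact h.2.2⟩

theorem Pth.tail {P : List V} {x x' y : V} (h : Pth C (x' :: x :: P) x' y) :
    Pth C (x :: P) x y :=
  ⟨(List.isChain_cons_cons.1 h.1).2, rfl, by
    have := h.2.2
    rwa [List.getLast?_cons_cons] at this⟩

theorem RP.tail {P : List V} {x x' y : V} (h : RP C (x' :: x :: P) x' y) :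
    RP C (x :: P) x y := ⟨h.1.tail, h.2.tail⟩

/-- Adjacent vertices: one is a step further. -/
theorem adj_cases {x y : V} (v : V) {P : List V} (hP : RP C P y v) (ha : C.adj x y) :
    RP C (x :: P) x v ∨ ∃ R, Eqv C.toSqS P (y :: x :: R) ∧ RP C (x :: R) x v := by
  by_cases hr : Red C.toSqS (x :: P)
  · exact Or.inl ⟨hP.1.cons ha, hr⟩
  · right
    obtain ⟨P', rfl⟩ := hP.exists_cons
    obtain ⟨R, hR⟩ := exists_of_not_red hP.2 hr
    exact ⟨R, hR, (hP.eqv hR).tail⟩

theorem dd_adj {x y : V} (v : V) (ha : C.adj x y) :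
    dd C x v = dd C y v + 1 ∨ dd C y v = dd C x v + 1 := by
  obtain ⟨P, hP⟩ := exists_RP C y v
  rcases adj_cases v hP ha with h | ⟨R, hR, h⟩
  · left
    rw [← h.length_eq, ← hP.length_eq]; rfl
  · right
    rw [← h.length_eq, ← hP.length_eq, hR.length]; rfl

/-- The quadrangle condition. -/
theorem quad {x y z v : V} (hy : C.adj x y) (hz : C.adj x z) (hne : y ≠ z)
    (h1 : dd C y v + 1 = dd C x v) (h2 : dd C z v + 1 = dd C x v) :
    ∃ w, C.sq x y w z ∧ dd C w v + 1 = dd C y v := by
  obtain ⟨P, hP⟩ := exists_RP C y v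
  obtain ⟨Q, hQ⟩ := exists_RP C z v
  have hP' : RP C (x :: P) x v := red_of_length (hP.1.cons hy) (by
    have := hP.length_eq
    simp only [List.length_cons]
    omega)
  have hQ' : RP C (x :: Q) x v := red_of_length (hQ.1.cons hz) (by
    have := hQ.length_eq
    simp only [List.length_cons]
    omega)
  obtain ⟨P', rfl⟩ := hP.exists_cons
  obtain ⟨Q', rfl⟩ := hQ.exists_cons
  rcases rho_of_eqv (hP'.sc hQ') with h | ⟨a, b, w, R, hs, h3, h4⟩
  · exact absurd h.head_eq hne
  · obtain rfl := h3.head_eq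
    obtain rfl := h4.head_eq
    refine ⟨w, hs, ?_⟩
    have h5 : RP C (w :: R) w v := (hP.eqv h3).tail
    rw [← h5.length_eq, ← hP.length_eq, h3.length]
    rfl

/-! ### Ladders -/

/-- A ladder: two parallel paths joined by squares. -/
inductive Lad (S : SqS V) : List V → List V → Prop
  | single (x y : V) : Lad S [x] [y]
  | cons {x x' y y' : V} {P Q : List V} :
      Lad S (x :: P) (y :: Q) → S.sq x x' y' y → Lad S (x' :: x :: P) (y' :: y :: Q)

theorem lad_flip {S : SqS V} {P Q P' : List V} (h : Lad S P Q) (hf : Flip S P P') :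
    ∃ Q', Lad S P' Q' ∧ Flip S Q Q' := by
  induction h generalizing P' with
  | single x y =>
    have := hf.length
    cases hf with
    | tail h => exact absurd rfl h.ne_nil
  | @cons x x' y y' P Q h hs ih =>
    cases hf with
    | @here _ _ w z L hs' =>
      -- P = w :: L
      cases h with
      | @cons _ _ y1 _ _ Q' h hs2 =>
        -- hs2 : sq w x y y1 ; hs : sq x x' y' y ; hs' : sq x' x w z
        have e1 : S.sq x x' z w := S.rot (S.rev (SqS.rot3 hs')) |> fun _ => by
          exact SqS.tr (S.rot hs')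
        have e2 : S.sq x w y1 y := SqS.tr (S.rot hs2)
        obtain ⟨t, ht1, ht2, ht3⟩ := S.cube e1 e2 hs
        -- ht1 : sq x' z t y' ; ht2 : sq w z t y1 ; ht3 : sq y y1 t y'
        refine ⟨y' :: t :: y1 :: Q', Lad.cons (Lad.cons h ht2) ?_, Flip.here ?_⟩
        · -- sq z x' y' t
          exact SqS.tr (S.rot ht1)
        · -- sq y' y y1 t
          exact SqS.rot3 ht3
    | @tail _ _ L' hf' =>
      obtain ⟨Q'', hQ'', hfl⟩ := ih hf'
      obtain ⟨L'', rfl⟩ := (Eqv.single hf').exists_cons
      obtain ⟨Q3, rfl⟩ := (Eqv.single hfl).exists_cons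
      exact ⟨_, Lad.cons hQ'' hs, Flip.tail hfl⟩

theorem lad_eqv {S : SqS V} {P Q P' : List V} (h : Lad S P Q) (hf : Eqv S P P') :
    ∃ Q', Lad S P' Q' ∧ Eqv S Q Q' := by
  induction hf with
  | refl => exact ⟨Q, h, Eqv.refl _⟩
  | tail _ h2 ih =>
    obtain ⟨Q', h3, h4⟩ := ih
    obtain ⟨Q'', h5, h6⟩ := lad_flip h3 h2
    exact ⟨Q'', h5, h4.trans (Eqv.single h6)⟩

theorem lad_del {S : SqS V} {P Q P' : List V} (h : Lad S P Q) (hf : Del P P') :
    ∃ Q', Lad S P' Q' ∧ Del Q Q' := by
  induction h generalizing P' with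
  | single x y =>
    have := hf.length
    simp at this
  | @cons x x' y y' P Q h hs ih =>
    cases hf with
    | @here _ _ L =>
      cases h with
      | @cons _ _ y1 _ _ Q' h hs2 =>
        -- hs2 : sq x' x y y1, hs : sq x x' y' y
        have e : y1 = y' := S.uniq (SqS.tr (S.rot hs2) |> fun h => h) hs
        subst e
        exact ⟨y1 :: Q', h, Del.here⟩
    | @tail _ _ L' hf' =>
      obtain ⟨Q'', hQ'', hfl⟩ := ih hf'
      have h1 := hf'.head
      have h2 := hfl.head
      cases L' with
      | nil => exact absurd rfl hf'.ne_nil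
      | cons a L' =>
        cases Q'' with
        | nil => exact absurd rfl hfl.ne_nil
        | cons b Q'' =>
          obtain rfl : x = a := by simpa using h1
          obtain rfl : y = b := by simpa using h2
          exact ⟨_, Lad.cons hQ'' hs, Del.tail hfl⟩

theorem lad_reduce {S : SqS V} : ∀ (n : ℕ) (P Q : List V), P.length = n → Lad S P Q →
    ∃ P' Q', Lad S P' Q' ∧ Red S P' ∧ P'.head? = P.head? ∧ P'.getLast? = P.getLast? ∧
      Q'.head? = Q.head? ∧ Q'.getLast? = Q.getLast? := by
  intro n
  induction n using Nat.strong_induction_on with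
  | _ n IH =>
    intro P Q hP h
    by_cases hr : Red S P
    · exact ⟨P, Q, h, hr, rfl, rfl, rfl, rfl⟩
    · unfold Red at hr
      push Not at hr
      obtain ⟨W, hW, hb⟩ := hr
      obtain ⟨Z, hZ⟩ := hb.del
      obtain ⟨Q1, h1, h2⟩ := lad_eqv h hW
      obtain ⟨Q2, h3, h4⟩ := lad_del h1 hZ
      have l1 := hW.length
      have l2 := hZ.length
      obtain ⟨P', Q', a1, a2, a3, a4, a5, a6⟩ := IH Z.length (by omega) Z Q2 rfl h3
      exact ⟨P', Q', a1, a2, a3.trans (hZ.head.symm.trans hW.head.symm),
        a4.trans (hZ.last.symm.trans hW.last.symm),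
        a5.trans (h4.head.symm.trans h2.head.symm),
        a6.trans (h4.last.symm.trans h2.last.symm)⟩

theorem Lad.chain {P Q : List V} (h : Lad C.toSqS P Q) : List.IsChain C.adj P := by
  induction h with
  | single x y => exact List.isChain_singleton x
  | cons h hs ih => exact List.isChain_cons_cons.2 ⟨C.adj_symm (C.sq_adj hs), ih⟩

/-- The path along one side of a ladder can be pushed to the other side. -/
theorem lad_push {S : SqS V} {P Q : List V} {x y : V} (h : Lad S P Q)
    (hx : P.head? = some x) (hy : Q.getLast? = some y) :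
    Eqv S (P ++ [y]) (x :: Q) := by
  induction h generalizing x with
  | single a b =>
    simp at hx hy
    subst hx hy
    exact Eqv.refl _
  | @cons a a' b b' P Q h hs ih =>
    simp at hx
    subst hx
    rw [List.getLast?_cons_cons] at hy
    have h1 := ih (x := a) rfl hy
    refine (h1.cons a').trans (Eqv.single (Flip.here ?_))
    -- sq a' a b b'
    exact SqS.tr (S.rot hs)

/-- Parallel edges along a ladder; any reduced path between the endpoints carries it. -/
theorem lad_along {P Q R : List V} {x x' y y' : V} (h : Lad C.toSqS P Q)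
    (h1 : P.head? = some x') (h2 : P.getLast? = some x) (h3 : Q.head? = some y')
    (h4 : Q.getLast? = some y) (hR : RP C R x' x) :
    ∃ Q', Lad C.toSqS R Q' ∧ Q'.head? = some y' ∧ Q'.getLast? = some y := by
  obtain ⟨P', Q', a1, a2, a3, a4, a5, a6⟩ := lad_reduce _ P Q rfl h
  have hP' : RP C P' x' x := ⟨⟨a1.chain, a3.trans h1, a4.trans h2⟩, a2⟩
  obtain ⟨Q'', b1, b2⟩ := lad_eqv a1 (hP'.sc hR)
  exact ⟨Q'', b1, by rw [← b2.head, a5, h3], by rw [← b2.last, a6, h4]⟩

end Pool.Agent.H386R3.CC
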