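import Pool.Agent.H386R3.CC.Cover
import Pool.Agent.H386R3.CC.Paths

set_option autoImplicit false

/-!
# Cube complexes built from 3-cubes
-/

namespace Pool.Agent.H386R3.CC

/-- The corners of the standard cube `[0,1]³`. -/
abbrev Corner := Fin 3 → Bool

/-- The corner joined to `a` by the edge in the direction `k`. -/
def flip (a : Corner) (k : Fin 3) : Corner := Function.update a k (!a k)

/-- A cube complex built from 3-cubes (indexed by `ι`) by identifying faces, with vertex set `V`: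
the cubes are embedded, and two different cubes are disjoint or meet exactly in a common proper
face. -/
structure CubeComplex (V ι : Type) where
  /-- the vertex of the cube `i` at the corner `a` -/
  corner : ι → Corner → V
  /-- the eight corners of a cube are distinct -/
  inj : ∀ i, Function.Injective (corner i)
  /-- every vertex is a corner of a cube -/
  cover : ∀ v, ∃ i a, corner i a = v
  /-- the vertices of the cube `i` which are also vertices of a different cube `j` are the vertices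
  of a proper face of `i` (fixed values of some coordinates), or there are none -/
  face : ∀ i j, i ≠ j → (∀ a b, corner i a ≠ corner j b) ∨
    ∃ (a : Corner) (K : Set (Fin 3)), K.Nonempty ∧
      ∀ b, (∃ c, corner i b = corner j c) ↔ ∀ k ∈ K, b k = a k
  /-- faces are identified by isomorphisms of cubes: edges correspond to edges -/
  edge : ∀ i j a b a' b', corner i a = corner j a' → corner i b = corner j b' →
    ((∃ k, b = flip a k) ↔ ∃ k, b' = flip a' k)

namespace CubeComplex

variable {V ι : Type} (X : CubeComplex V ι)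

/-- `x` and `y` are joined by an edge of the complex. -/
def Adj (x y : V) : Prop := ∃ i a k, X.corner i a = x ∧ X.corner i (flip a k) = y

/-- `x`, `y`, `z`, `w` are the consecutive vertices of a square (2-face) of the complex. -/
def Sq (x y z w : V) : Prop := ∃ i a j k, j ≠ k ∧ X.corner i a = x ∧ X.corner i (flip a j) = y ∧
  X.corner i (flip (flip a j) k) = z ∧ X.corner i (flip a k) = w

/-- The vertex `v` belongs to the cube `i`. -/
def Mem (v : V) (i : ι) : Prop := ∃ a, X.corner i a = v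

/-- The link of every vertex is a flag complex.  The vertices of the link of `x` are the edges at
`x` (given by the neighbours of `x`); a set of edges at `x` is a simplex of the link when they lie
in a common cube.  Flag: every set of edges at `x` any two of which form a simplex is a simplex. -/
def FlagLinks : Prop := ∀ (x : V) (N : Set V), (∀ y ∈ N, X.Adj x y) →
  (∀ y ∈ N, ∀ z ∈ N, ∃ i, X.Mem x i ∧ X.Mem y i ∧ X.Mem z i) →
  ∃ i, X.Mem x i ∧ ∀ y ∈ N, X.Mem y i

end CubeComplex

/-! ### Combinatorics of the corners -/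

theorem flip_flip : ∀ (a : Corner) (k : Fin 3), flip (flip a k) k = a := by decide
theorem flip_comm : ∀ (a : Corner) (j k : Fin 3), flip (flip a j) k = flip (flip a k) j := by
  decide
theorem flip_inj : ∀ (a : Corner) (j k : Fin 3), flip a j = flip a k → j = k := by decide
theorem flip_ne : ∀ (a : Corner) (j : Fin 3), flip a j ≠ a := by decide
theorem flip_flip_ne : ∀ (a : Corner) (j k : Fin 3), j ≠ k → flip (flip a j) k ≠ a := by decide
theorem fourth : ∀ (a b : Corner) (j k : Fin 3), j ≠ k → b ≠ a →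
    (∃ l, b = flip (flip a j) l) → (∃ l, b = flip (flip a k) l) →
    b = flip (flip a j) k := by decide
theorem flip_apply (a : Corner) (j k : Fin 3) : flip a j k = if k = j then !a j else a k := by
  unfold flip
  by_cases h : k = j
  · subst h; simp
  · simp [h]

namespace CubeComplex

variable {V ι : Type} {X : CubeComplex V ι}

theorem Adj.symm {x y : V} (h : X.Adj x y) : X.Adj y x := by
  obtain ⟨i, a, k, h1, h2⟩ := h
  exact ⟨i, flip a k, k, h2, by rw [flip_flip]; exact h1⟩

theorem Adj.ne {x y : V} (h : X.Adj x y) : x ≠ y := by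
  obtain ⟨i, a, k, h1, h2⟩ := h
  intro hxy
  have := X.inj i (h1.trans (hxy.trans h2.symm))
  exact flip_ne a k this.symm

theorem Sq.adj {x y z w : V} (h : X.Sq x y z w) : X.Adj x y := by
  obtain ⟨i, a, j, k, _, h1, h2, _, _⟩ := h
  exact ⟨i, a, j, h1, h2⟩

theorem Sq.rot {x y z w : V} (h : X.Sq x y z w) : X.Sq y z w x := by
  obtain ⟨i, a, j, k, hjk, h1, h2, h3, h4⟩ := h
  refine ⟨i, flip a j, k, j, hjk.symm, h2, h3, ?_, ?_⟩
  · rw [flip_comm a j k, flip_flip]; exact h4
  · rw [flip_flip]; exact h1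

theorem Sq.rev {x y z w : V} (h : X.Sq x y z w) : X.Sq w z y x := by
  obtain ⟨i, a, j, k, hjk, h1, h2, h3, h4⟩ := h
  refine ⟨i, flip a k, j, k, hjk, h4, ?_, ?_, ?_⟩
  · rw [flip_comm]; exact h3
  · rw [flip_comm a k j, flip_flip]; exact h2
  · rw [flip_flip]; exact h1

theorem Sq.ne {x y z w : V} (h : X.Sq x y z w) : x ≠ z := by
  obtain ⟨i, a, j, k, hjk, h1, h2, h3, h4⟩ := h
  intro hxz
  have := X.inj i (h1.trans (hxz.trans h3.symm))
  exact flip_flip_ne a j k hjk this.symm

/-- The common vertices of two cubes are closed under mixing coordinates. -/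
theorem mix {i j : ι} {a a' b : Corner} (h1 : ∃ c, X.corner i a = X.corner j c)
    (h2 : ∃ c, X.corner i a' = X.corner j c) (h : ∀ k, b k = a k ∨ b k = a' k) :
    ∃ c, X.corner i b = X.corner j c := by
  by_cases hij : i = j
  · subst hij; exact ⟨b, rfl⟩
  · rcases X.face i j hij with hf | ⟨α, K, _, hf⟩
    · obtain ⟨c, hc⟩ := h1
      exact absurd hc (hf _ _)
    · rw [hf] at h1 h2 ⊢
      intro k hk
      rcases h k with h3 | h3
      · rw [h3]; exact h1 k hk
      · rw [h3]; exact h2 k hk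

/-- Two cubes sharing two edges at a corner share the square. -/
theorem share {i i' : ι} {a : Corner} {j k : Fin 3} (hjk : j ≠ k)
    (h1 : ∃ c, X.corner i (flip a j) = X.corner i' c)
    (h2 : ∃ c, X.corner i (flip a k) = X.corner i' c)  :
    ∃ c, X.corner i (flip (flip a j) k) = X.corner i' c := by
  refine mix h1 h2 fun l => ?_
  rw [flip_apply, flip_apply, flip_apply]
  by_cases hl : l = k
  · subst hl
    right
    simp [hjk.symm, flip_apply]
  · left; simp [hl]

theorem Sq.uniq {x y z z' w : V} (h : X.Sq x y z w) (h' : X.Sq x y z' w) : z = z' := by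
  obtain ⟨i, a, j, k, hjk, h1, h2, h3, h4⟩ := h
  obtain ⟨i', a', j', k', hjk', h1', h2', h3', h4'⟩ := h'
  obtain ⟨c, hc⟩ := share (X := X) (i := i) (i' := i') (a := a) hjk ⟨_, h2.trans h2'.symm⟩
    ⟨_, h4.trans h4'.symm⟩
  have e1 : ∃ l, c = flip (flip a' j') l :=
    (X.edge i i' _ _ _ _ (h2.trans h2'.symm) hc).1 ⟨k, rfl⟩
  have e2 : ∃ l, c = flip (flip a' k') l :=
    (X.edge i i' _ _ _ _ (h4.trans h4'.symm) hc).1 ⟨j, by rw [flip_comm]⟩
  have hne : c ≠ a' := by
    intro hca
    subst hca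
    have : flip (flip a j) k = a := X.inj i (hc.trans (h1'.trans h1.symm))
    exact flip_flip_ne a j k hjk this
  have := fourth a' c j' k' hjk' hne e1 e2
  rw [← h3, ← h3', hc, this]

theorem mem_of_adj {x y : V} {i : ι} {α : Corner} (hx : X.corner i α = x) (hy : X.Mem y i)
    (h : X.Adj x y) : ∃ k, X.corner i (flip α k) = y := by
  obtain ⟨j, a, k, h1, h2⟩ := h
  obtain ⟨β, hβ⟩ := hy
  obtain ⟨l, hl⟩ := (X.edge j i a (flip a k) α β (h1.trans hx.symm) (h2.trans hβ.symm)).1 ⟨k, rfl⟩
  exact ⟨l, by rw [← hl]; exact hβ⟩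

theorem Sq.mem {x y z w : V} (h : X.Sq x y z w) : ∃ i, X.Mem x i ∧ X.Mem y i ∧ X.Mem w i := by
  obtain ⟨i, a, j, k, hjk, h1, h2, h3, h4⟩ := h
  exact ⟨i, ⟨a, h1⟩, ⟨_, h2⟩, ⟨_, h4⟩⟩

theorem Sq.adj' {x y z w : V} (h : X.Sq x y z w) : X.Adj x w := h.rot.rot.rot.adj.symm

theorem Sq.cube (hX : X.FlagLinks) {x a b c p q r : V} (h1 : X.Sq x a p b) (h2 : X.Sq x b q c)
    (h3 : X.Sq x a r c) : ∃ t, X.Sq a p t r ∧ X.Sq b p t q ∧ X.Sq c q t r := by
  have adjs : ∀ y ∈ ({a, b, c} : Set V), X.Adj x y := by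
    rintro y (rfl | rfl | rfl)
    · exact h1.adj
    · exact h2.adj
    · exact h3.adj'
  obtain ⟨i, ⟨α, hα⟩, hN⟩ := hX x {a, b, c} adjs (by
    have m1 := h1.mem
    have m2 := h2.mem
    have m3 := h3.mem
    rintro y (rfl | rfl | rfl) z (rfl | rfl | rfl)
    · obtain ⟨i, a1, a2, a3⟩ := m1; exact ⟨i, a1, a2, a2⟩
    · exact m1
    · exact m3
    · obtain ⟨i, a1, a2, a3⟩ := m1; exact ⟨i, a1, a3, a2⟩
    · obtain ⟨i, a1, a2, a3⟩ := m2; exact ⟨i, a1, a2, a2⟩
    · exact m2
    · obtain ⟨i, a1, a2, a3⟩ := m3; exact ⟨i, a1, a3, a2⟩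
    · obtain ⟨i, a1, a2, a3⟩ := m2; exact ⟨i, a1, a3, a2⟩
    · obtain ⟨i, a1, a2, a3⟩ := m2; exact ⟨i, a1, a3, a3⟩)
  obtain ⟨j1, e1⟩ := mem_of_adj hα (hN a (by simp)) (adjs a (by simp))
  obtain ⟨j2, e2⟩ := mem_of_adj hα (hN b (by simp)) (adjs b (by simp))
  obtain ⟨j3, e3⟩ := mem_of_adj hα (hN c (by simp)) (adjs c (by simp))
  have hab : a ≠ b := h1.rot.ne
  have hbc : b ≠ c := h2.rot.ne
  have hac : a ≠ c := h3.rot.ne
  have n12 : j1 ≠ j2 := by rintro rfl; exact hab (e1.symm.trans e2)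
  have n23 : j2 ≠ j3 := by rintro rfl; exact hbc (e2.symm.trans e3)
  have n13 : j1 ≠ j3 := by rintro rfl; exact hac (e1.symm.trans e3)
  have hp : p = X.corner i (flip (flip α j1) j2) :=
    h1.uniq ⟨i, α, j1, j2, n12, hα, e1, rfl, e2⟩
  have hq : q = X.corner i (flip (flip α j2) j3) :=
    h2.uniq ⟨i, α, j2, j3, n23, hα, e2, rfl, e3⟩
  have hr : r = X.corner i (flip (flip α j1) j3) :=
    h3.uniq ⟨i, α, j1, j3, n13, hα, e1, rfl, e3⟩
  refine ⟨X.corner i (flip (flip (flip α j1) j2) j3), ?_, ?_, ?_⟩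
  · exact ⟨i, flip α j1, j2, j3, n23, e1, hp.symm, rfl, hr.symm⟩
  · refine ⟨i, flip α j2, j1, j3, n13, e2, ?_, ?_, hq.symm⟩
    · rw [hp, flip_comm]
    · rw [flip_comm α j2 j1]
  · refine ⟨i, flip α j3, j2, j1, n12.symm, e3, ?_, ?_, ?_⟩
    · rw [hq, flip_comm]
    · rw [flip_comm (flip α j3) j2 j1, flip_comm α j3 j1, flip_comm (flip α j1) j3 j2]
    · rw [hr, flip_comm]

theorem no_four_edges (hX : X.FlagLinks) {x a b c d : V}
    (h1 : ∃ p, X.Sq x a p b) (h2 : ∃ p, X.Sq x a p c) (h3 : ∃ p, X.Sq x a p d)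
    (h4 : ∃ p, X.Sq x b p c) (h5 : ∃ p, X.Sq x b p d) (h6 : ∃ p, X.Sq x c p d) : False := by
  obtain ⟨p1, h1⟩ := h1
  obtain ⟨p2, h2⟩ := h2
  obtain ⟨p3, h3⟩ := h3
  obtain ⟨p4, h4⟩ := h4
  obtain ⟨p5, h5⟩ := h5
  obtain ⟨p6, h6⟩ := h6
  have adjs : ∀ y ∈ ({a, b, c, d} : Set V), X.Adj x y := by
    rintro y (rfl | rfl | rfl | rfl)
    · exact h1.adj
    · exact h4.adj
    · exact h6.adj
    · exact h6.adj'
  have sw : ∀ {y z : V}, (∃ i, X.Mem x i ∧ X.Mem y i ∧ X.Mem z i) →
      ∃ i, X.Mem x i ∧ X.Mem z i ∧ X.Mem y i := fun ⟨i, a, b, c⟩ => ⟨i, a, c, b⟩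
  have df : ∀ {y z : V}, (∃ i, X.Mem x i ∧ X.Mem y i ∧ X.Mem z i) →
      ∃ i, X.Mem x i ∧ X.Mem y i ∧ X.Mem y i := fun ⟨i, a, b, _⟩ => ⟨i, a, b, b⟩
  obtain ⟨i, ⟨α, hα⟩, hN⟩ := hX x {a, b, c, d} adjs (by
    have m1 := h1.mem
    have m2 := h2.mem
    have m3 := h3.mem
    have m4 := h4.mem
    have m5 := h5.mem
    have m6 := h6.mem
    rintro y (rfl | rfl | rfl | rfl) z (rfl | rfl | rfl | rfl)
    · exact df m1
    · exact m1
    · exact m2
    · exact m3
    · exact sw m1
    · exact df m4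
    · exact m4
    · exact m5
    · exact sw m2
    · exact sw m4
    · exact df m6
    · exact m6
    · exact sw m3
    · exact sw m5
    · exact sw m6
    · exact df (sw m6))
  obtain ⟨j1, e1⟩ := mem_of_adj hα (hN a (by simp)) (adjs a (by simp))
  obtain ⟨j2, e2⟩ := mem_of_adj hα (hN b (by simp)) (adjs b (by simp))
  obtain ⟨j3, e3⟩ := mem_of_adj hα (hN c (by simp)) (adjs c (by simp))
  obtain ⟨j4, e4⟩ := mem_of_adj hα (hN d (by simp)) (adjs d (by simp))
  have n12 : j1 ≠ j2 := by rintro rfl; exact h1.rot.ne (e1.symm.trans e2)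
  have n13 : j1 ≠ j3 := by rintro rfl; exact h2.rot.ne (e1.symm.trans e3)
  have n14 : j1 ≠ j4 := by rintro rfl; exact h3.rot.ne (e1.symm.trans e4)
  have n23 : j2 ≠ j3 := by rintro rfl; exact h4.rot.ne (e2.symm.trans e3)
  have n24 : j2 ≠ j4 := by rintro rfl; exact h5.rot.ne (e2.symm.trans e4)
  have n34 : j3 ≠ j4 := by rintro rfl; exact h6.rot.ne (e3.symm.trans e4)
  omega

/-- The square structure of a complex with flag links. -/
def toS (X : CubeComplex V ι) (hX : X.FlagLinks) : SqS V where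
  sq := X.Sq
  rot := Sq.rot
  rev := Sq.rev
  ne := Sq.ne
  uniq := Sq.uniq
  cube := Sq.cube hX

/-! ### Lifts of cubes to the universal cover -/

variable {hX : X.FlagLinks}

/-- A lift of the cube `i` to the universal cover. -/
def IsLift (hX : X.FlagLinks) (i : ι) (f : Corner → Om (X.toS hX)) : Prop :=
  (∀ a, (f a).fin = X.corner i a) ∧ ∀ a k, (f a).step (X.corner i (flip a k)) = f (flip a k)

/-- Toggle a coordinate. -/
noncomputable def op (hX : X.FlagLinks) (i : ι) (k : Fin 3) (q : Corner × Om (X.toS hX)) :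
    Corner × Om (X.toS hX) := (flip q.1 k, q.2.step (X.corner i (flip q.1 k)))

/-- The pair is above the cube `i`. -/
def Good (hX : X.FlagLinks) (i : ι) (q : Corner × Om (X.toS hX)) : Prop :=
  q.2.fin = X.corner i q.1

theorem good_op {i : ι} {k : Fin 3} {q : Corner × Om (X.toS hX)} :
    Good hX i (op hX i k q) := fin_step _ _

theorem op_op {i : ι} {k : Fin 3} {q : Corner × Om (X.toS hX)} (h : Good hX i q) :
    op hX i k (op hX i k q) = q := by
  obtain ⟨a, c⟩ := q
  have h' : c.fin = X.corner i a := h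
  simp only [op, flip_flip, Prod.mk.injEq, true_and]
  rw [← h']
  exact step_step _ _

theorem op_comm {i : ι} {j k : Fin 3} {q : Corner × Om (X.toS hX)} (h : Good hX i q) :
    op hX i j (op hX i k q) = op hX i k (op hX i j q) := by
  by_cases hjk : j = k
  · rw [hjk]
  obtain ⟨a, c⟩ := q
  have h' : c.fin = X.corner i a := h
  simp only [op, Prod.mk.injEq]
  refine ⟨flip_comm _ _ _, ?_⟩
  rw [flip_comm a k j]
  refine (step_square c ?_).symm
  exact ⟨i, a, j, k, hjk, h'.symm, rfl, rfl, rfl⟩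

/-- Toggle a coordinate or not. -/
noncomputable def opB (hX : X.FlagLinks) (i : ι) (k : Fin 3) (d : Bool)
    (q : Corner × Om (X.toS hX)) : Corner × Om (X.toS hX) := if d then op hX i k q else q

theorem good_opB {i : ι} {k : Fin 3} {d : Bool} {q : Corner × Om (X.toS hX)} (h : Good hX i q) :
    Good hX i (opB hX i k d q) := by
  unfold opB
  split_ifs
  · exact good_op
  · exact h

theorem op_opB_self {i : ι} {k : Fin 3} {d : Bool} {q : Corner × Om (X.toS hX)}
    (h : Good hX i q) : op hX i k (opB hX i k d q) = opB hX i k (!d) q := by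
  cases d
  · simp [opB]
  · simp [opB, op_op h]

theorem op_opB_comm {i : ι} {j k : Fin 3} {d : Bool} {q : Corner × Om (X.toS hX)}
    (h : Good hX i q) : op hX i j (opB hX i k d q) = opB hX i k d (op hX i j q) := by
  cases d
  · simp [opB]
  · simp [opB, op_comm h]

theorem opB_fst {i : ι} {k : Fin 3} {d : Bool} {q : Corner × Om (X.toS hX)} :
    (opB hX i k d q).1 = if d then flip q.1 k else q.1 := by
  cases d <;> simp [opB, op]

/-- The lift of a cube through a given point. -/
noncomputable def liftAt (hX : X.FlagLinks) (i : ι) (a : Corner) (c : Om (X.toS hX)) (b : Corner) :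
    Corner × Om (X.toS hX) :=
  opB hX i 0 (xor (a 0) (b 0)) (opB hX i 1 (xor (a 1) (b 1)) (opB hX i 2 (xor (a 2) (b 2)) (a, c)))

theorem corner_fix : ∀ (a b : Corner),
    (if xor (a 0) (b 0) then
      flip (if xor (a 1) (b 1) then flip (if xor (a 2) (b 2) then flip a 2 else a) 1
        else (if xor (a 2) (b 2) then flip a 2 else a)) 0
      else (if xor (a 1) (b 1) then flip (if xor (a 2) (b 2) then flip a 2 else a) 1
        else (if xor (a 2) (b 2) then flip a 2 else a))) = b := by decide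

theorem liftAt_fst {i : ι} {a b : Corner} {c : Om (X.toS hX)} :
    (liftAt hX i a c b).1 = b := by
  unfold liftAt
  rw [opB_fst, opB_fst, opB_fst]
  exact corner_fix a b

theorem xor_flip_self : ∀ (a b : Corner) (k : Fin 3),
    (xor (a k) (flip b k k)) = !(xor (a k) (b k)) := by decide

theorem xor_flip_of_ne : ∀ (a b : Corner) (j k : Fin 3), j ≠ k →
    (xor (a j) (flip b k j)) = (xor (a j) (b j)) := by decide

theorem liftAt_flip {i : ι} {a b : Corner} {c : Om (X.toS hX)} (h : c.fin = X.corner i a)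
    (k : Fin 3) : op hX i k (liftAt hX i a c b) = liftAt hX i a c (flip b k) := by
  have g : Good hX i (a, c) := h
  unfold liftAt
  fin_cases k
  · simp only [Fin.zero_eta]
    rw [op_opB_self (good_opB (good_opB g)), xor_flip_self, xor_flip_of_ne a b 1 0 (by decide),
      xor_flip_of_ne a b 2 0 (by decide)]
  · simp only [Fin.mk_one]
    rw [op_opB_comm (good_opB (good_opB g)), op_opB_self (good_opB g), xor_flip_self,
      xor_flip_of_ne a b 0 1 (by decide), xor_flip_of_ne a b 2 1 (by decide)]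
  · simp only [Fin.reduceFinMk]
    rw [op_opB_comm (good_opB (good_opB g)), op_opB_comm (good_opB g), op_opB_self g,
      xor_flip_self, xor_flip_of_ne a b 0 2 (by decide), xor_flip_of_ne a b 1 2 (by decide)]

theorem exists_lift {i : ι} {a : Corner} {c : Om (X.toS hX)} (h : c.fin = X.corner i a) :
    ∃ f, IsLift hX i f ∧ f a = c := by
  have g : Good hX i (a, c) := h
  refine ⟨fun b => (liftAt hX i a c b).2, ⟨?_, ?_⟩, ?_⟩
  · intro b
    have : Good hX i (liftAt hX i a c b) := good_opB (good_opB (good_opB g))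
    unfold Good at this
    rw [liftAt_fst] at this
    exact this
  · intro b k
    have := congrArg Prod.snd (liftAt_flip (b := b) h k)
    show (liftAt hX i a c b).2.step (X.corner i (flip b k)) = (liftAt hX i a c (flip b k)).2
    rw [← this]
    simp only [op]
    rw [liftAt_fst]
  · simp [liftAt, opB]

/-- Lifts of two cubes which agree at one common vertex agree at all common vertices. -/
theorem lift_agree {i j : ι} {f g : Corner → Om (X.toS hX)} (hf : IsLift hX i f)
    (hg : IsLift hX j g) {a b : Corner} (hab : X.corner i a = X.corner j b) (h : f a = g b)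
    {a' b' : Corner} (hab' : X.corner i a' = X.corner j b') : f a' = g b' := by
  -- one step
  have step : ∀ (a1 b1 : Corner) (k : Fin 3) (v : Bool), X.corner i a1 = X.corner j b1 →
      f a1 = g b1 → (∃ b2, X.corner i (Function.update a1 k v) = X.corner j b2) →
      ∃ b2, X.corner i (Function.update a1 k v) = X.corner j b2 ∧
        f (Function.update a1 k v) = g b2 := by
    intro a1 b1 k v h1 h2 ⟨b2, h3⟩
    by_cases hv : v = a1 k
    · subst hv
      rw [Function.update_eq_self] at h3 ⊢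
      exact ⟨b1, h1, h2⟩
    · have hv' : v = !a1 k := by
        cases v <;> cases h4 : a1 k <;> simp_all
      have hfl : Function.update a1 k v = flip a1 k := by rw [hv']; rfl
      rw [hfl] at h3 ⊢
      obtain ⟨l, hl⟩ := (X.edge i j a1 (flip a1 k) b1 b2 h1 h3).1 ⟨k, rfl⟩
      refine ⟨b2, h3, ?_⟩
      rw [← hf.2 a1 k, h3, h2, hl]
      exact hg.2 b1 l
  have hm : ∀ b0 : Corner, (∀ k, b0 k = a k ∨ b0 k = a' k) →
      ∃ c, X.corner i b0 = X.corner j c := fun b0 h0 => mix ⟨b, hab⟩ ⟨b', hab'⟩ h0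
  obtain ⟨b1, h1, h1'⟩ := step a b 0 (a' 0) hab h (hm _ (by
    intro k
    by_cases hk : k = 0
    · subst hk; right; simp
    · left; rw [Function.update_of_ne hk]))
  obtain ⟨b2, h2, h2'⟩ := step _ b1 1 (a' 1) h1 h1' (hm _ (by
    intro k
    by_cases hk : k = 1
    · subst hk; right; simp
    · rw [Function.update_of_ne hk]
      by_cases hk : k = 0
      · subst hk; right; simp
      · left; rw [Function.update_of_ne hk]))
  obtain ⟨b3, h3, h3'⟩ := step _ b2 2 (a' 2) h2 h2' (hm _ (by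
    intro k
    by_cases hk : k = 2
    · subst hk; right; simp
    · rw [Function.update_of_ne hk]
      by_cases hk : k = 1
      · subst hk; right; simp
      · rw [Function.update_of_ne hk]
        by_cases hk : k = 0
        · subst hk; right; simp
        · left; rw [Function.update_of_ne hk]))
  have e : Function.update (Function.update (Function.update a 0 (a' 0)) 1 (a' 1)) 2 (a' 2) = a' := by
    funext k
    fin_cases k <;> simp
  rw [e] at h3 h3'
  have : b3 = b' := X.inj j (h3.symm.trans hab')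
  rw [h3', this]

/-- Transport inside a cube. -/
def Tr (hX : X.FlagLinks) (c : Om (X.toS hX)) (u : V) (c' : Om (X.toS hX)) : Prop :=
  ∃ i f a b, IsLift hX i f ∧ f a = c ∧ X.corner i b = u ∧ f b = c'

theorem Tr.exists {c : Om (X.toS hX)} {u : V} {i : ι} (h1 : X.Mem c.fin i) (h2 : X.Mem u i) :
    ∃ c', Tr hX c u c' := by
  obtain ⟨a, ha⟩ := h1
  obtain ⟨b, hb⟩ := h2
  obtain ⟨f, hf, hfa⟩ := exists_lift ha.symm
  exact ⟨f b, i, f, a, b, hf, hfa, hb, rfl⟩

theorem Tr.unique {c c' c'' : Om (X.toS hX)} {u : V} (h : Tr hX c u c') (h' : Tr hX c u c'') :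
    c' = c'' := by
  obtain ⟨i, f, a, b, hf, h1, h2, h3⟩ := h
  obtain ⟨i', f', a', b', hf', h1', h2', h3'⟩ := h'
  rw [← h3, ← h3']
  refine lift_agree hf hf' (a := a) (b := a') ?_ (h1.trans h1'.symm) (h2.trans h2'.symm)
  rw [← hf.1 a, ← hf'.1 a', h1, h1']

theorem Tr.fin {c c' : Om (X.toS hX)} {u : V} (h : Tr hX c u c') : c'.fin = u := by
  obtain ⟨i, f, a, b, hf, h1, h2, h3⟩ := h
  rw [← h3, hf.1, h2]

theorem Tr.refl (c : Om (X.toS hX)) : Tr hX c c.fin c := by
  obtain ⟨i, a, ha⟩ := X.cover c.fin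
  obtain ⟨f, hf, hfa⟩ := exists_lift ha.symm
  exact ⟨i, f, a, a, hf, hfa, ha, hfa⟩

/-- Composition of transports inside a cube. -/
theorem Tr.comp {c c' c'' : Om (X.toS hX)} {u w : V} {i : ι} (h : Tr hX c u c')
    (h' : Tr hX c' w c'') (m1 : X.Mem c.fin i) (m2 : X.Mem u i) (m3 : X.Mem w i) :
    Tr hX c w c'' := by
  obtain ⟨a, ha⟩ := m1
  obtain ⟨b, hb⟩ := m2
  obtain ⟨d, hd⟩ := m3
  obtain ⟨f, hf, hfa⟩ := exists_lift ha.symm
  have t1 : Tr hX c u (f b) := ⟨i, f, a, b, hf, hfa, hb, rfl⟩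
  have e1 := h.unique t1
  have t2 : Tr hX c' w (f d) := ⟨i, f, b, d, hf, e1.symm, hd, rfl⟩
  have e2 := h'.unique t2
  exact ⟨i, f, a, d, hf, hfa, hd, e2.symm⟩

theorem Tr.of_adj {c : Om (X.toS hX)} {u : V} (h : X.Adj c.fin u) : Tr hX c u (c.step u) := by
  obtain ⟨i, a, k, h1, h2⟩ := h
  obtain ⟨f, hf, hfa⟩ := exists_lift h1.symm
  refine ⟨i, f, a, flip a k, hf, hfa, h2, ?_⟩
  rw [← hf.2 a k, hfa, h2]

end CubeComplex

end Pool.Agent.H386R3.CC
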