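import Pool.Agent.H386R3.CC.Flip

set_option autoImplicit false

/-!
# The universal cover: reduced paths modulo flips
-/

namespace Pool.Agent.H386R3.CC

universe u

variable {V : Type u} (S : SqS V)

/-- Nonempty reduced paths. -/
def RedP : Type u := {P : List V // Red S P ∧ P ≠ []}

/-- Flip equivalence on reduced paths. -/
def redSetoid : Setoid (RedP S) where
  r P Q := Eqv S P.1 Q.1
  iseqv := ⟨fun _ => Eqv.refl _, fun h => h.symm, fun h h' => h.trans h'⟩

/-- Vertices of the universal cover. -/
def Om : Type u := Quotient (redSetoid S)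

variable {S}

/-- The class of a reduced path. -/
def Om.mk (P : List V) (h : Red S P ∧ P ≠ []) : Om S := Quotient.mk (redSetoid S) ⟨P, h⟩

theorem Om.sound {P Q : List V} {hP : Red S P ∧ P ≠ []} {hQ : Red S Q ∧ Q ≠ []}
    (h : Eqv S P Q) : Om.mk P hP = Om.mk Q hQ := Quotient.sound h

theorem Om.exact {P Q : List V} {hP : Red S P ∧ P ≠ []} {hQ : Red S Q ∧ Q ≠ []}
    (h : Om.mk P hP = Om.mk Q hQ) : Eqv S P Q := Quotient.exact h

/-- The endpoint. -/
def Om.fin (c : Om S) : V :=
  Quotient.lift (s := redSetoid S) (fun P => P.1.head P.2.2) (by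
    intro P Q h
    have h' : Eqv S P.1 Q.1 := h
    have := h'.head
    rw [List.head?_eq_some_head P.2.2, List.head?_eq_some_head Q.2.2] at this
    exact Option.some.inj this) c

@[simp] theorem Om.fin_mk (x : V) (P : List V) (h : Red S (x :: P) ∧ x :: P ≠ []) :
    (Om.mk (x :: P) h).fin = x := rfl

theorem Om.ind {p : Om S → Prop} (h : ∀ x P (hP : Red S (x :: P) ∧ x :: P ≠ []),
    p (Om.mk (x :: P) hP)) (c : Om S) : p c := by
  induction c using Quotient.inductionOn with
  | h P =>
    obtain ⟨P, h1, h2⟩ := P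
    cases P with
    | nil => exact absurd rfl h2
    | cons x P => exact h x P ⟨h1, h2⟩

/-- `Desc P x`: a flip of `P` has last edge coming from `x`. -/
def Desc (S : SqS V) (P : List V) (x : V) : Prop := ∃ y R, Eqv S P (y :: x :: R)

open Classical in
/-- One step on representatives. -/
noncomputable def stepL (x : V) (P : RedP S) : Om S :=
  if h : Desc S P.1 x then
    Om.mk (x :: h.choose_spec.choose)
      ⟨(P.2.1.of_eqv h.choose_spec.choose_spec).tail, by simp⟩
  else Om.mk (x :: P.1) ⟨by
    obtain ⟨P, h1, h2⟩ := P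
    cases P with
    | nil => exact absurd rfl h2
    | cons y P =>
      by_contra hn
      obtain ⟨R, hR⟩ := exists_of_not_red h1 hn
      exact h ⟨y, R, hR⟩, by simp⟩

theorem Eqv.cancel' {x x' y : V} {P Q : List V} (h : Eqv S (x :: y :: P) (x' :: y :: Q)) :
    Eqv S (y :: P) (y :: Q) := by
  have h1 := h.head_eq
  subst h1
  exact h.cancel

theorem stepL_desc {x y : V} {R : List V} {P : RedP S} (h : Eqv S P.1 (y :: x :: R)) :
    stepL x P = Om.mk (x :: R) ⟨(P.2.1.of_eqv h).tail, by simp⟩ := by
  unfold stepL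
  have hd : Desc S P.1 x := ⟨y, R, h⟩
  rw [dif_pos hd]
  apply Om.sound
  have h2 := hd.choose_spec.choose_spec
  exact (h2.symm.trans h).cancel'

theorem stepL_congr {x : V} {P Q : RedP S} (h : Eqv S P.1 Q.1) : stepL x P = stepL x Q := by
  by_cases hd : Desc S P.1 x
  · obtain ⟨y, R, hR⟩ := hd
    rw [stepL_desc hR, stepL_desc (h.symm.trans hR)]
  · have hd' : ¬ Desc S Q.1 x := fun ⟨y, R, hR⟩ => hd ⟨y, R, h.trans hR⟩
    unfold stepL
    rw [dif_neg hd, dif_neg hd']
    exact Om.sound (h.cons x)

/-- Moving to the vertex `x`. -/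
noncomputable def Om.step (x : V) (c : Om S) : Om S :=
  Quotient.lift (s := redSetoid S) (stepL x) (fun _ _ h => stepL_congr h) c

theorem step_desc {x y : V} {R : List V} (h : Red S (y :: x :: R) ∧ y :: x :: R ≠ []) :
    (Om.mk (y :: x :: R) h).step x = Om.mk (x :: R) ⟨h.1.tail, by simp⟩ :=
  stepL_desc (P := ⟨y :: x :: R, h⟩) (Eqv.refl _)

theorem step_asc {x : V} {P : List V} (h : Red S P ∧ P ≠ []) (hx : Red S (x :: P)) :
    (Om.mk P h).step x = Om.mk (x :: P) ⟨hx, by simp⟩ := by
  show stepL x ⟨P, h⟩ = _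
  have hd : ¬ Desc S P x := by
    rintro ⟨y, R, hR⟩
    exact hx _ (hR.cons x) Bt.here
  unfold stepL
  rw [dif_neg hd]

/-- Every class is, with respect to `x`, a descent or an ascent. -/
theorem desc_or_asc (x : V) (c : Om S) :
    (∃ R h, c = Om.mk (c.fin :: x :: R) h) ∨
      ∃ P h, c = Om.mk (c.fin :: P) h ∧ Red S (x :: c.fin :: P) := by
  induction c using Om.ind with
  | h y P hP =>
    by_cases hr : Red S (x :: y :: P)
    · exact Or.inr ⟨P, hP, rfl, hr⟩
    · obtain ⟨R, hR⟩ := exists_of_not_red hP.1 hr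
      exact Or.inl ⟨R, ⟨hP.1.of_eqv hR, by simp⟩, Om.sound hR⟩

theorem fin_step (x : V) (c : Om S) : (c.step x).fin = x := by
  rcases desc_or_asc x c with ⟨R, h, hc⟩ | ⟨P, h, hc, hr⟩
  · rw [hc, step_desc h]; rfl
  · rw [hc, step_asc h hr]; rfl

theorem step_step (x : V) (c : Om S) : (c.step x).step c.fin = c := by
  rcases desc_or_asc x c with ⟨R, h, hc⟩ | ⟨P, h, hc, hr⟩
  · have h1 : c.step x = Om.mk (x :: R) ⟨h.1.tail, by simp⟩ := by
      conv_lhs => rw [hc]
      exact step_desc h
    rw [h1, step_asc _ h.1]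
    exact hc.symm
  · have h1 : c.step x = Om.mk (x :: c.fin :: P) ⟨hr, by simp⟩ := by
      conv_lhs => rw [hc]
      exact step_asc h hr
    rw [h1, step_desc]
    exact hc.symm

theorem step_square {x z w : V} (c : Om S) (hs : S.sq c.fin x z w) :
    (c.step x).step z = (c.step w).step z := by
  -- descents
  have main : ∀ (x w : V) (c : Om S), S.sq c.fin x z w →
      (∃ R h, c = Om.mk (c.fin :: x :: R) h) → (c.step x).step z = (c.step w).step z := by
    intro x w c hs hx
    obtain ⟨R, h, hc⟩ := hx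
    have h1 : c.step x = Om.mk (x :: R) ⟨h.1.tail, by simp⟩ := by
      conv_lhs => rw [hc]
      exact step_desc h
    rcases desc_or_asc w c with ⟨R', h', hc'⟩ | ⟨P, h', hc', hr'⟩
    · have h2 : c.step w = Om.mk (w :: R') ⟨h'.1.tail, by simp⟩ := by
        conv_lhs => rw [hc']
        exact step_desc h'
      have he : Eqv S (c.fin :: x :: R) (c.fin :: w :: R') := Om.exact (hc.symm.trans hc')
      rcases rho_of_eqv he with h3 | ⟨a, b, u, R'', hs', h3, h4⟩
      · exact absurd h3.head_eq (SqS.ne' hs)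
      · obtain rfl := h3.head_eq
        obtain rfl := h4.head_eq
        have hu : z = u := S.uniq hs hs'
        subst hu
        have r1 : Red S (x :: z :: R'') := h.1.tail.of_eqv h3
        have r2 : Red S (w :: z :: R'') := h'.1.tail.of_eqv h4
        have e1 : c.step x = Om.mk (x :: z :: R'') ⟨r1, by simp⟩ := by
          rw [h1]; exact Om.sound h3
        have e2 : c.step w = Om.mk (w :: z :: R'') ⟨r2, by simp⟩ := by
          rw [h2]; exact Om.sound h4
        rw [e1, e2, step_desc, step_desc]
    · -- x descent, w ascent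
      have he : Eqv S (c.fin :: x :: R) (c.fin :: P) := Om.exact (hc.symm.trans hc')
      have h2 : c.step w = Om.mk (w :: c.fin :: P) ⟨hr', by simp⟩ := by
        conv_lhs => rw [hc']
        exact step_asc h' hr'
      have he2 : Eqv S (w :: c.fin :: P) (w :: z :: x :: R) :=
        (he.symm.cons w).trans (Eqv.single (Flip.here (S.rot3 hs)))
      have hr2 : Red S (w :: z :: x :: R) := hr'.of_eqv he2
      have e2 : c.step w = Om.mk (w :: z :: x :: R) ⟨hr2, by simp⟩ := by
        rw [h2]; exact Om.sound he2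
      rw [e2, step_desc, h1, step_asc _ hr2.tail]
  rcases desc_or_asc x c with hx | ⟨P, h, hc, hr⟩
  · exact main x w c hs hx
  · rcases desc_or_asc w c with hw | ⟨P', h', hc', hr'⟩
    · exact (main w x c (SqS.tr hs) hw).symm
    · have he : Eqv S (c.fin :: P) (c.fin :: P') := Om.exact (hc.symm.trans hc')
      have h1 : c.step x = Om.mk (x :: c.fin :: P) ⟨hr, by simp⟩ := by
        conv_lhs => rw [hc]
        exact step_asc h hr
      have hrw : Red S (w :: c.fin :: P) := hr'.of_eqv (he.symm.cons w)
      have h2 : c.step w = Om.mk (w :: c.fin :: P) ⟨hrw, by simp⟩ := by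
        conv_lhs => rw [hc]
        exact step_asc h hrw
      have hz : Red S (z :: x :: c.fin :: P) := by
        by_contra hn
        obtain ⟨R, hR⟩ := exists_of_not_red hr hn
        rcases rho_of_eqv hR with h3 | ⟨a, b, u, R'', hs', h3, h4⟩
        · exact S.ne hs h3.head_eq
        · obtain rfl := h3.head_eq
          obtain rfl := h4.head_eq
          -- hs' : sq x c.fin u z, hs : sq c.fin x z w
          have hu : w = u := S.uniq (SqS.tr (S.rot hs)) hs'
          subst hu
          exact hrw _ (h3.cons w) Bt.here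
      have hfl : Eqv S (z :: x :: c.fin :: P) (z :: w :: c.fin :: P) :=
        Eqv.single (Flip.here (SqS.tr (S.rot3 (S.rot3 hs))))
      rw [h1, step_asc _ hz, h2, step_asc _ (hz.of_eqv hfl)]
      exact Om.sound hfl

end Pool.Agent.H386R3.CC
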