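import Mathlib

set_option autoImplicit false

/-!
# Square flips of edge paths

An edge path is a list of vertices, newest vertex first.  `SqS V` records the squares of a cube
complex with vertex set `V` (uniqueness of the square at a corner, and the cube condition).
-/

namespace Pool.Agent.H386R3.CC

universe u

/-- The squares of a cube complex whose vertex links are flag. -/
structure SqS (V : Type u) where
  sq : V → V → V → V → Prop
  rot : ∀ {x y z w : V}, sq x y z w → sq y z w x
  rev : ∀ {x y z w : V}, sq x y z w → sq w z y x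
  ne : ∀ {x y z w : V}, sq x y z w → x ≠ z
  uniq : ∀ {x y z z' w : V}, sq x y z w → sq x y z' w → z = z'
  cube : ∀ {x a b c p q r : V}, sq x a p b → sq x b q c → sq x a r c →
    ∃ t, sq a p t r ∧ sq b p t q ∧ sq c q t r

variable {V : Type u} (S : SqS V)

namespace SqS

variable {S} {x y z w : V}

theorem rot2 (h : S.sq x y z w) : S.sq z w x y := S.rot (S.rot h)
theorem rot3 (h : S.sq x y z w) : S.sq w x y z := S.rot (S.rot (S.rot h))
/-- transposed square: exchange `y` and `w`. -/
theorem tr (h : S.sq x y z w) : S.sq x w z y := S.rot3 (S.rev h)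
theorem ne' (h : S.sq x y z w) : y ≠ w := S.ne (S.rot h)

end SqS

/-- One flip across a square. -/
inductive Flip : List V → List V → Prop
  | here {x y w z : V} {L : List V} :
      S.sq x y w z → Flip (x :: y :: w :: L) (x :: z :: w :: L)
  | tail {x : V} {L L' : List V} : Flip L L' → Flip (x :: L) (x :: L')

/-- Equivalence of paths under flips. -/
def Eqv : List V → List V → Prop := Relation.ReflTransGen (Flip S)

/-- A path with a backtrack. -/
inductive Bt : List V → Prop
  | here {x y : V} {L : List V} : Bt (x :: y :: x :: L)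
  | tail {x : V} {L : List V} : Bt L → Bt (x :: L)

/-- Removing a backtrack. -/
inductive Del : List V → List V → Prop
  | here {x y : V} {L : List V} : Del (x :: y :: x :: L) (x :: L)
  | tail {x : V} {L L' : List V} : Del L L' → Del (x :: L) (x :: L')

/-- Reduced paths: no backtrack can be produced by flips. -/
def Red (P : List V) : Prop := ∀ Q, Eqv S P Q → ¬ Bt Q

variable {S}

theorem Flip.symm {P Q : List V} (h : Flip S P Q) : Flip S Q P := by
  induction h with
  | here h => exact Flip.here (SqS.tr h)
  | tail _ ih => exact Flip.tail ih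

theorem Eqv.refl (P : List V) : Eqv S P P := Relation.ReflTransGen.refl

theorem Eqv.symm {P Q : List V} (h : Eqv S P Q) : Eqv S Q P := by
  induction h with
  | refl => exact Eqv.refl _
  | tail _ h2 ih => exact Relation.ReflTransGen.head h2.symm ih

theorem Eqv.trans {P Q R : List V} (h : Eqv S P Q) (h' : Eqv S Q R) : Eqv S P R :=
  Relation.ReflTransGen.trans h h'

theorem Eqv.single {P Q : List V} (h : Flip S P Q) : Eqv S P Q := Relation.ReflTransGen.single h

theorem Eqv.cons {P Q : List V} (x : V) (h : Eqv S P Q) : Eqv S (x :: P) (x :: Q) := by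
  induction h with
  | refl => exact Eqv.refl _
  | tail _ h2 ih => exact Relation.ReflTransGen.tail ih (Flip.tail h2)

theorem Flip.append {P Q : List V} (h : Flip S P Q) (R : List V) : Flip S (P ++ R) (Q ++ R) := by
  induction h with
  | here h => exact Flip.here h
  | tail _ ih => exact Flip.tail ih

theorem Eqv.append {P Q : List V} (h : Eqv S P Q) (R : List V) : Eqv S (P ++ R) (Q ++ R) := by
  induction h with
  | refl => exact Eqv.refl _
  | tail _ h2 ih => exact Relation.ReflTransGen.tail ih (h2.append R)

theorem Eqv.append_left {P Q : List V} (R : List V) (h : Eqv S P Q) :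
    Eqv S (R ++ P) (R ++ Q) := by
  induction R with
  | nil => exact h
  | cons a R ih => exact ih.cons a

theorem Flip.length {P Q : List V} (h : Flip S P Q) : P.length = Q.length := by
  induction h with
  | here _ => rfl
  | tail _ ih => simp [ih]

theorem Eqv.length {P Q : List V} (h : Eqv S P Q) : P.length = Q.length := by
  induction h with
  | refl => rfl
  | tail _ h2 ih => exact ih.trans h2.length

theorem Flip.ne_nil {P Q : List V} (h : Flip S P Q) : P ≠ [] := by
  cases h <;> simp

theorem Flip.head {P Q : List V} (h : Flip S P Q) : P.head? = Q.head? := by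
  cases h <;> rfl

theorem Eqv.head {P Q : List V} (h : Eqv S P Q) : P.head? = Q.head? := by
  induction h with
  | refl => rfl
  | tail _ h2 ih => exact ih.trans h2.head

theorem Flip.last {P Q : List V} (h : Flip S P Q) : P.getLast? = Q.getLast? := by
  induction h with
  | here _ => simp [List.getLast?_cons_cons]
  | @tail x L L' h ih =>
    have h1 := h.ne_nil
    have h2 := h.symm.ne_nil
    cases L with
    | nil => exact absurd rfl h1
    | cons a L =>
      cases L' with
      | nil => exact absurd rfl h2
      | cons b L' => rw [List.getLast?_cons_cons, List.getLast?_cons_cons]; exact ih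

theorem Eqv.last {P Q : List V} (h : Eqv S P Q) : P.getLast? = Q.getLast? := by
  induction h with
  | refl => rfl
  | tail _ h2 ih => exact ih.trans h2.last

theorem Eqv.head_eq {x y : V} {P Q : List V} (h : Eqv S (x :: P) (y :: Q)) : x = y := by
  have := h.head
  simpa using this

theorem Eqv.exists_cons {x : V} {P Q : List V} (h : Eqv S (x :: P) Q) : ∃ Q', Q = x :: Q' := by
  have h1 := h.head
  cases Q with
  | nil => simp at h1
  | cons y Q => exact ⟨Q, by simp at h1; rw [h1]⟩

variable (S) in
/-- The relation between the two tails of two equivalent paths. -/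
def Rho (x : V) (P Q : List V) : Prop :=
  Eqv S P Q ∨ ∃ y z w R, S.sq x y w z ∧ Eqv S P (y :: w :: R) ∧ Eqv S Q (z :: w :: R)

theorem rho_trans_aux {n : ℕ} {x : V}
    (IH : ∀ (y : V) (P Q : List V), P.length < n → Eqv S (y :: P) (y :: Q) → Rho S y P Q)
    {P1 P2 P3 : List V} (hn : P1.length = n) (h12 : Rho S x P1 P2) (h23 : Rho S x P2 P3) :
    Rho S x P1 P3 := by
  rcases h12 with h12 | ⟨y1, y2, w, R, hs, h1, h2⟩
  · rcases h23 with h23 | ⟨y2, y3, w, R, hs, h2, h3⟩
    · exact Or.inl (h12.trans h23)
    · exact Or.inr ⟨y2, y3, w, R, hs, h12.trans h2, h3⟩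
  · rcases h23 with h23 | ⟨y2', y3, w', R', hs', h2', h3⟩
    · exact Or.inr ⟨y1, y2, w, R, hs, h1, h23.symm.trans h2⟩
    · have h := h2.symm.trans h2'
      obtain rfl : y2 = y2' := h.head_eq
      have hlen : (w :: R).length < n := by
        have := h1.length
        simp only [List.length_cons] at this ⊢
        omega
      rcases IH y2 (w :: R) (w' :: R') hlen h with h4 | ⟨a, b, u, R'', hs'', h5, h6⟩
      · obtain rfl : w = w' := h4.head_eq
        have : y1 = y3 := S.uniq (S.rot3 hs) (SqS.tr (S.rot hs'))
        subst this
        exact Or.inl (h1.trans ((h4.cons y1).trans h3.symm))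
      · obtain rfl : w = a := h5.head_eq
        obtain rfl : w' = b := h6.head_eq
        obtain ⟨t, ht1, ht2, ht3⟩ := S.cube (S.rot3 hs) hs'' (SqS.tr (S.rot hs'))
        refine Or.inr ⟨y1, y3, t, u :: R'', ht1, ?_, ?_⟩
        · refine h1.trans ((h5.cons y1).trans (Eqv.single (Flip.here ?_)))
          exact S.rot2 (S.rev ht2)
        · refine h3.trans ((h6.cons y3).trans (Eqv.single (Flip.here ?_)))
          exact S.rot3 ht3

theorem rho_of_eqv_aux : ∀ (n : ℕ) (x : V) (P Q : List V), P.length = n →
    Eqv S (x :: P) (x :: Q) → Rho S x P Q := by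
  intro n
  induction n using Nat.strong_induction_on with
  | _ n IH =>
    intro x P Q hP h
    have IH' : ∀ (y : V) (P Q : List V), P.length < n → Eqv S (y :: P) (y :: Q) →
        Rho S y P Q := fun y P Q hlt h => IH _ hlt y P Q rfl h
    have key : ∀ Z, Eqv S (x :: P) Z → ∃ Q, Z = x :: Q ∧ Rho S x P Q := by
      intro Z hZ
      induction hZ with
      | refl => exact ⟨P, rfl, Or.inl (Eqv.refl _)⟩
      | tail h1 h2 ih =>
        obtain ⟨Q', rfl, hQ'⟩ := ih
        cases h2 with
        | @here _ y w z L hs =>
          exact ⟨_, rfl, rho_trans_aux IH' hP hQ'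
            (Or.inr ⟨y, z, w, L, hs, Eqv.refl _, Eqv.refl _⟩)⟩
        | tail h2 => exact ⟨_, rfl, rho_trans_aux IH' hP hQ' (Or.inl (Eqv.single h2))⟩
    obtain ⟨Q', h1, h2⟩ := key _ h
    cases h1
    exact h2

theorem rho_of_eqv {x : V} {P Q : List V} (h : Eqv S (x :: P) (x :: Q)) : Rho S x P Q :=
  rho_of_eqv_aux _ x P Q rfl h

/-- Right cancellation. -/
theorem Eqv.cancel {x y : V} {P Q : List V} (h : Eqv S (x :: y :: P) (x :: y :: Q)) :
    Eqv S (y :: P) (y :: Q) := by
  rcases rho_of_eqv h with h | ⟨a, b, w, R, hs, h1, h2⟩
  · exact h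
  · obtain rfl := h1.head_eq
    obtain rfl := h2.head_eq
    exact absurd rfl (SqS.ne' hs)

theorem Red.tail {x : V} {P : List V} (h : Red S (x :: P)) : Red S P :=
  fun Q hQ hb => h (x :: Q) (hQ.cons x) (Bt.tail hb)

theorem Red.of_eqv {P Q : List V} (h : Red S P) (hPQ : Eqv S P Q) : Red S Q :=
  fun R hR => h R (hPQ.trans hR)

theorem Bt.append {P : List V} (h : Bt P) (R : List V) : Bt (P ++ R) := by
  induction h with
  | here => exact Bt.here
  | tail _ ih => exact Bt.tail ih

theorem Red.left {P R : List V} (h : Red S (P ++ R)) : Red S P :=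
  fun Q hQ hb => h (Q ++ R) (hQ.append R) (hb.append R)

theorem Red.right {P R : List V} (h : Red S (P ++ R)) : Red S R := by
  induction P with
  | nil => exact h
  | cons a P ih => exact ih h.tail

theorem exists_of_not_red_aux : ∀ (n : ℕ) (x y : V) (P : List V), P.length = n →
    Red S (y :: P) → ¬ Red S (x :: y :: P) → ∃ R, Eqv S (y :: P) (y :: x :: R) := by
  intro n
  induction n using Nat.strong_induction_on with
  | _ n IH =>
    intro x y P hP hred hnred
    unfold Red at hnred
    push Not at hnred
    obtain ⟨W', hW', hbt⟩ := hnred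
    obtain ⟨W, rfl⟩ := hW'.exists_cons
    cases hbt with
    | @here _ z L =>
      rcases rho_of_eqv hW' with h | ⟨a, b, w, R, hs, h1, h2⟩
      · obtain rfl := h.head_eq
        exact ⟨L, h⟩
      · obtain rfl := h1.head_eq
        obtain rfl := h2.head_eq
        exfalso
        rcases rho_of_eqv h2 with h3 | ⟨a', b', w', R', hs', h4, h5⟩
        · exact S.ne hs h3.head_eq
        · obtain rfl := h4.head_eq
          obtain rfl := h5.head_eq
          -- hs : sq x y w z, hs' : sq z x w' w
          have h6 : y = w' := S.uniq (S.rot3 hs) hs'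
          subst h6
          exact hred _ (h1.trans (h5.cons y)) Bt.here
    | tail hb =>
      rcases rho_of_eqv hW' with h | ⟨a, b, w, R, hs, h1, h2⟩
      · exact absurd hb (hred W h)
      · obtain rfl := h1.head_eq
        have hwR : Red S (w :: R) := (hred.of_eqv h1).tail
        have hn : ¬ Red S (b :: w :: R) := fun hr => hr W h2.symm hb
        have hlen : R.length < n := by
          have := h1.length
          simp only [List.length_cons] at this
          omega
        obtain ⟨R', hR'⟩ := IH R.length hlen b w R rfl hwR hn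
        refine ⟨b :: R', ?_⟩
        refine h1.trans ((hR'.cons y).trans (Eqv.single (Flip.here ?_)))
        -- need sq y w b x from sq x y w b
        exact S.rot hs

/-- If a reduced path becomes non-reduced after adding `x`, its last edge can be made to come
from `x`. -/
theorem exists_of_not_red {x y : V} {P : List V} (hred : Red S (y :: P))
    (hn : ¬ Red S (x :: y :: P)) : ∃ R, Eqv S (y :: P) (y :: x :: R) :=
  exists_of_not_red_aux _ x y P rfl hred hn

end Pool.Agent.H386R3.CC
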