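import Pool.Agent.H386R3.CC.Complex

set_option autoImplicit false

/-!
# Trivial holonomy: the combinatorial part
-/

namespace Pool.Agent.H386R3.CC

namespace CubeComplex

variable {V ι : Type} {X : CubeComplex V ι} {hX : X.FlagLinks}

theorem grid (u : ℕ → ℕ → V) (M N : ℕ) (v : V) (c0 : Om (X.toS hX)) (hv : c0.fin = v)
    (hM : 1 ≤ M)
    (hsq : ∀ i < M, ∀ j < N, ∃ κ, X.Mem (u i j) κ ∧ X.Mem (u (i + 1) j) κ ∧
      X.Mem (u i (j + 1)) κ ∧ X.Mem (u (i + 1) (j + 1)) κ)
    (hl : ∀ j ≤ N, u 0 j = v) (hr : ∀ j ≤ N, u M j = v) (ht : ∀ i ≤ M, u i N = v)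
    (g : ℕ → Om (X.toS hX)) (g0 : g 0 = c0) (hg : ∀ i < M, Tr hX (g i) (u (i + 1) 0) (g (i + 1))) :
    g M = c0 := by
  have key : ∀ j ≤ N, ∃ r : ℕ → Om (X.toS hX), (∀ i ≤ M, (r i).fin = u i j) ∧
      (∀ i < M, Tr hX (r i) (u (i + 1) j) (r (i + 1))) ∧ r 0 = c0 ∧ r M = g M := by
    intro j
    induction j with
    | zero =>
      intro _
      refine ⟨g, ?_, hg, g0, rfl⟩
      intro i hi
      rcases Nat.eq_zero_or_pos i with h | h
      · subst h; rw [g0, hv, hl 0 (Nat.zero_le _)]
      · obtain ⟨k, rfl⟩ : ∃ k, i = k + 1 := ⟨i - 1, by omega⟩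
        exact (hg k (by omega)).fin
    | succ j ih =>
      intro hj
      obtain ⟨r, r1, r2, r3, r4⟩ := ih (by omega)
      have hex : ∀ i, ∃ c', i ≤ M → Tr hX (r i) (u i (j + 1)) c' := by
        intro i
        by_cases hi : i ≤ M
        · rcases hi.eq_or_lt with h | h
          · obtain ⟨κ, k1, k2, k3, k4⟩ := hsq (M - 1) (by omega) j (by omega)
            have e : M - 1 + 1 = i := by omega
            rw [e] at k2 k4
            obtain ⟨c', hc'⟩ := Tr.exists (hX := hX) (c := r i) (u := u i (j + 1)) (i := κ)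
              (by rw [r1 i hi]; exact k2) k4
            exact ⟨c', fun _ => hc'⟩
          · obtain ⟨κ, k1, k2, k3, k4⟩ := hsq i h j (by omega)
            obtain ⟨c', hc'⟩ := Tr.exists (hX := hX) (c := r i) (u := u i (j + 1)) (i := κ)
              (by rw [r1 i hi]; exact k1) k3
            exact ⟨c', fun _ => hc'⟩
        · exact ⟨r i, fun h => absurd h hi⟩
      choose r' hr' using hex
      refine ⟨r', fun i hi => (hr' i hi).fin, ?_, ?_, ?_⟩
      · intro i hi
        obtain ⟨κ, k1, k2, k3, k4⟩ := hsq i hi j (by omega)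
        have f1 := r1 i (by omega)
        obtain ⟨z, hz⟩ := Tr.exists (hX := hX) (c := r' i) (u := u (i + 1) (j + 1)) (i := κ)
          (by rw [(hr' i (by omega)).fin]; exact k3) k4
        have t1 : Tr hX (r i) (u (i + 1) (j + 1)) z :=
          (hr' i (by omega)).comp hz (by rw [f1]; exact k1) k3 k4
        have t2 : Tr hX (r i) (u (i + 1) (j + 1)) (r' (i + 1)) :=
          (r2 i hi).comp (hr' (i + 1) (by omega)) (by rw [f1]; exact k1) k2 k4
        rw [← t1.unique t2]
        exact hz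
      · have h1 := hr' 0 (by omega)
        rw [r3, hl (j + 1) hj, ← hv] at h1
        exact h1.unique (Tr.refl c0)
      · have h1 := hr' M le_rfl
        have h2 := r1 M le_rfl
        rw [hr j (by omega)] at h2
        rw [hr (j + 1) hj, ← h2] at h1
        rw [h1.unique (Tr.refl _), r4]
  obtain ⟨r, r1, r2, r3, r4⟩ := key N le_rfl
  have hconst : ∀ i ≤ M, r i = c0 := by
    intro i
    induction i with
    | zero => intro _; exact r3
    | succ i ih =>
      intro hi
      have h1 := r2 i (by omega)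
      rw [ht (i + 1) hi, ih (by omega), ← hv] at h1
      exact h1.unique (Tr.refl c0)
  rw [← r4, hconst M le_rfl]

theorem bottom {m n : ℕ} (hn : 1 ≤ n) (hm : 1 ≤ m) (x : ℕ → V)
    (hadj : ∀ k < m, X.Adj (x k) (x (k + 1))) (w : ℕ → V)
    (hb1 : ∀ k < m, ∀ r < n, w (k * n + r) = x k ∨ w (k * n + r) = x (k + 1))
    (hb2 : ∀ k < m, w (k * n + (n - 1)) = x (k + 1))
    (hb3 : ∀ k < m, w (k * n) = x k)
    (G : ℕ → Om (X.toS hX)) (hG0 : (G 0).fin = x 0)
    (hG : ∀ k < m, G (k + 1) = (G k).step (x (k + 1))) :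
    ∃ g : ℕ → Om (X.toS hX), g 0 = G 0 ∧ g (m * n - 1) = G m ∧
      ∀ i < m * n - 1, Tr hX (g i) (w (i + 1)) (g (i + 1)) := by
  have hfin : ∀ k ≤ m, (G k).fin = x k := by
    intro k hk
    rcases Nat.eq_zero_or_pos k with h | h
    · subst h; exact hG0
    · obtain ⟨l, rfl⟩ : ∃ l, k = l + 1 := ⟨k - 1, by omega⟩
      rw [hG l (by omega)]
      exact fin_step _ _
  have hdiv : ∀ i, i < m * n → i / n < m := fun i hi => by
    rw [Nat.div_lt_iff_lt_mul (by omega)]; exact hi
  have hw : ∀ i, i < m * n → w i = x (i / n) ∨ w i = x (i / n + 1) := by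
    intro i hi
    have := hb1 (i / n) (hdiv i hi) (i % n) (Nat.mod_lt _ (by omega))
    rwa [Nat.div_add_mod' i n] at this
  have hcube : ∀ k < m, ∃ κ, X.Mem (x k) κ ∧ X.Mem (x (k + 1)) κ := by
    intro k hk
    obtain ⟨i, a, l, h1, h2⟩ := hadj k hk
    exact ⟨i, ⟨a, h1⟩, ⟨_, h2⟩⟩
  have hex : ∀ i, ∃ c', i < m * n → Tr hX (G (i / n)) (w i) c' := by
    intro i
    by_cases hi : i < m * n
    · obtain ⟨κ, k1, k2⟩ := hcube (i / n) (hdiv i hi)
      obtain ⟨c', hc'⟩ := Tr.exists (hX := hX) (c := G (i / n)) (u := w i) (i := κ)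
        (by rw [hfin _ (hdiv i hi).le]; exact k1) (by
          rcases hw i hi with h | h <;> rw [h] <;> assumption)
      exact ⟨c', fun _ => hc'⟩
    · exact ⟨G 0, fun h => absurd h hi⟩
  choose g hg using hex
  have hmn : 1 ≤ m * n := Nat.one_le_iff_ne_zero.2 (Nat.mul_ne_zero (by omega) (by omega))
  have hstep : ∀ k < m, Tr hX (G k) (x (k + 1)) (G (k + 1)) := by
    intro k hk
    rw [hG k hk]
    exact Tr.of_adj (by rw [hfin k hk.le]; exact hadj k hk)
  refine ⟨g, ?_, ?_, ?_⟩
  · have h1 := hg 0 (by omega)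
    rw [Nat.zero_div] at h1
    have h2 := hb3 0 (by omega)
    rw [zero_mul] at h2
    rw [h2, ← hG0] at h1
    exact h1.unique (Tr.refl _)
  · have h1 := hg (m * n - 1) (by omega)
    obtain ⟨k, rfl⟩ : ∃ k, m = k + 1 := ⟨m - 1, by omega⟩
    have e1 : (k + 1) * n - 1 = k * n + (n - 1) := by
      rw [add_mul, one_mul]; omega
    have e2 : (k * n + (n - 1)) / n = k := by
      rw [mul_comm, Nat.mul_add_div (by omega), Nat.div_eq_of_lt (by omega), add_zero]
    rw [e1, e2, hb2 k (by omega)] at h1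
    rw [e1]
    exact h1.unique (hstep k (by omega))
  · intro i hi
    have hi1 : i < m * n := by omega
    have hi2 : i + 1 < m * n := by omega
    have h1 := hg i hi1
    have h2 := hg (i + 1) hi2
    by_cases hd : n ∣ i + 1
    · have e1 : (i + 1) / n = i / n + 1 := by rw [Nat.succ_div, if_pos hd]
      have e2 : i + 1 = (i / n + 1) * n := by
        rw [← e1]; exact (Nat.div_mul_cancel hd).symm
      have e3 : i = i / n * n + (n - 1) := by
        rw [add_mul, one_mul] at e2; omega
      have k1 := hdiv i hi1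
      have k2 := hdiv (i + 1) hi2
      rw [e1] at h2 k2
      have w1 : w i = x (i / n + 1) := by
        conv_lhs => rw [e3]
        exact hb2 _ k1
      have w2 : w (i + 1) = x (i / n + 1) := by
        conv_lhs => rw [e2]
        exact hb3 _ k2
      rw [w1] at h1
      have g1 := h1.unique (hstep _ k1)
      rw [w2] at h2 ⊢
      rw [← hfin _ k2.le] at h2
      have g2 := h2.unique (Tr.refl _)
      rw [g1, g2]
      conv => arg 3; rw [← hfin _ k2.le]
      exact Tr.refl _
    · have e1 : (i + 1) / n = i / n := by rw [Nat.succ_div, if_neg hd, add_zero]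
      rw [e1] at h2
      have k1 := hdiv i hi1
      obtain ⟨κ, c1, c2⟩ := hcube (i / n) k1
      have w1 : X.Mem (w i) κ := by
        rcases hw i hi1 with h | h <;> rw [h] <;> assumption
      have w2 : X.Mem (w (i + 1)) κ := by
        have := hw (i + 1) hi2
        rw [e1] at this
        rcases this with h | h <;> rw [h] <;> assumption
      obtain ⟨z, hz⟩ := Tr.exists (hX := hX) (c := g i) (u := w (i + 1)) (i := κ)
        (by rw [h1.fin]; exact w1) w2
      have h3 := h1.comp hz (by rw [hfin _ k1.le]; exact c1) w1 w2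
      rw [← h3.unique h2]
      exact hz

end CubeComplex

end Pool.Agent.H386R3.CC
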