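import Pool.Agent.H386R3.CC.Paths

set_option autoImplicit false

/-!
# Hyperplanes and separation
-/

namespace Pool.Agent.H386R3.CC

universe u

variable {V : Type u} {C : CatS V}

/-- Opposite edges of a square. -/
def Opp (S : SqS V) (e f : V × V) : Prop := S.sq e.1 f.1 f.2 e.2

theorem Opp.symm {S : SqS V} {e f : V × V} (h : Opp S e f) : Opp S f e :=
  SqS.tr (S.rot h)

theorem Opp.swap {S : SqS V} {e f : V × V} (h : Opp S e f) : Opp S e.swap f.swap :=
  S.rev h

/-- Parallelism of oriented edges. -/
def Hr (S : SqS V) : V × V → V × V → Prop := Relation.ReflTransGen (Opp S)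

theorem Hr.symm {S : SqS V} {e f : V × V} (h : Hr S e f) : Hr S f e := by
  induction h with
  | refl => exact Relation.ReflTransGen.refl
  | tail _ h2 ih => exact Relation.ReflTransGen.head h2.symm ih

theorem Hr.swap {S : SqS V} {e f : V × V} (h : Hr S e f) : Hr S e.swap f.swap := by
  induction h with
  | refl => exact Relation.ReflTransGen.refl
  | tail _ h2 ih => exact Relation.ReflTransGen.tail ih h2.swap

theorem Hr.trans {S : SqS V} {e f g : V × V} (h : Hr S e f) (h' : Hr S f g) : Hr S e g :=
  Relation.ReflTransGen.trans h h'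

/-- Equality of hyperplanes. -/
def hSetoid (S : SqS V) : Setoid (V × V) where
  r e f := Hr S e f ∨ Hr S e f.swap
  iseqv := by
    refine ⟨fun e => Or.inl Relation.ReflTransGen.refl, ?_, ?_⟩
    · rintro e f (h | h)
      · exact Or.inl h.symm
      · right
        have := h.symm.swap
        simpa using this
    · rintro e f g (h | h) (h' | h')
      · exact Or.inl (h.trans h')
      · exact Or.inr (h.trans h')
      · exact Or.inr (h.trans h'.swap)
      · left
        have := h.trans h'.swap
        simpa using this

/-- The type of hyperplanes (edge classes). -/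
def Hy (C : CatS V) : Type u := Quotient (hSetoid C.toSqS)

/-- The hyperplane dual to the edge `x y`. -/
def hyp (C : CatS V) (x y : V) : Hy C := Quotient.mk (hSetoid C.toSqS) (x, y)

theorem hyp_comm (x y : V) : hyp C x y = hyp C y x :=
  Quotient.sound (s := hSetoid C.toSqS) (Or.inr Relation.ReflTransGen.refl)

theorem hyp_eq_iff {x y x' y' : V} :
    hyp C x y = hyp C x' y' ↔ Hr C.toSqS (x, y) (x', y') ∨ Hr C.toSqS (x, y) (y', x') :=
  ⟨fun h => Quotient.exact (s := hSetoid C.toSqS) h,
    fun h => Quotient.sound (s := hSetoid C.toSqS) h⟩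

theorem hyp_opp {x x' y y' : V} (h : C.sq x x' y' y) : hyp C x y = hyp C x' y' :=
  hyp_eq_iff.2 (Or.inl (Relation.ReflTransGen.single h))

/-- Existence of a ladder. -/
def Par (C : CatS V) (x y x' y' : V) : Prop :=
  ∃ P Q, Lad C.toSqS P Q ∧ P.head? = some x' ∧ P.getLast? = some x ∧
    Q.head? = some y' ∧ Q.getLast? = some y

theorem par_of_hr {x y x' y' : V} (h : Hr C.toSqS (x, y) (x', y')) : Par C x y x' y' := by
  have key : ∀ e : V × V, Hr C.toSqS (x, y) e → Par C x y e.1 e.2 := by
    intro e he
    induction he with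
    | refl => exact ⟨[x], [y], Lad.single x y, rfl, rfl, rfl, rfl⟩
    | @tail a b _ h2 ih =>
      obtain ⟨P, Q, h3, h4, h5, h6, h7⟩ := ih
      cases P with
      | nil => simp at h4
      | cons p P =>
        cases Q with
        | nil => simp at h6
        | cons q Q =>
          simp at h4 h6
          subst h4 h6
          exact ⟨_, _, Lad.cons h3 h2, rfl, by rw [List.getLast?_cons_cons]; exact h5, rfl,
            by rw [List.getLast?_cons_cons]; exact h7⟩
  exact key _ h

/-- Rungs of a ladder are parallel. -/
theorem lad_hyp {P Q : List V} (h : Lad C.toSqS P Q) {x y x' y' : V}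
    (h1 : P.head? = some x') (h2 : P.getLast? = some x) (h3 : Q.head? = some y')
    (h4 : Q.getLast? = some y) : hyp C x y = hyp C x' y' := by
  induction h generalizing x' y' with
  | single a b =>
    simp at h1 h2 h3 h4
    rw [← h1, ← h2, ← h3, ← h4]
  | cons h hs ih =>
    rw [List.getLast?_cons_cons] at h2 h4
    simp at h1 h3
    subst h1 h3
    rw [ih rfl h2 rfl h4]
    exact hyp_opp hs

/-- A reduced path crosses a hyperplane at most once (raw form). -/
theorem cross_once_aux {a b c d : V} {R : List V} (hR : RP C R b c)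
    (hred : Red C.toSqS (a :: (R ++ [d]))) (hab : C.adj a b) (heq : hyp C a b = hyp C c d) :
    False := by
  have hpar : Par C c d a b ∨ Par C c d b a := by
    rcases hyp_eq_iff.1 heq with h | h
    · exact Or.inl (par_of_hr h.symm)
    · exact Or.inr (par_of_hr h.swap.symm)
  have hredR : Red C.toSqS (a :: R) := by
    have : a :: (R ++ [d]) = (a :: R) ++ [d] := rfl
    rw [this] at hred
    exact hred.left
  rcases hpar with ⟨P, Q, h1, h2, h3, h4, h5⟩ | ⟨P, Q, h1, h2, h3, h4, h5⟩
  · have hRP : RP C (a :: R) a c := ⟨hR.1.cons hab, hredR⟩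
    obtain ⟨Q', h6, h7, h8⟩ := lad_along h1 h2 h3 h4 h5 hRP
    obtain ⟨R', rfl⟩ := hR.exists_cons
    cases h6 with
    | cons h hs =>
      simp at h7
      subst h7
      exact C.ne hs rfl
  · obtain ⟨Q', h6, h7, h8⟩ := lad_along h1 h2 h3 h4 h5 hR
    have h9 := lad_push h6 hR.1.2.1 h8
    cases Q' with
    | nil => simp at h7
    | cons q Q' =>
      simp at h7
      subst h7
      exact hred _ (h9.cons q) Bt.here

open Classical in
/-- The number of times a path crosses `h`. -/
noncomputable def cr (C : CatS V) (h : Hy C) : List V → ℕ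
  | [] => 0
  | [_] => 0
  | a :: b :: L => (if hyp C a b = h then 1 else 0) + cr C h (b :: L)

open Classical in
theorem cr_cons_cons (h : Hy C) (a b : V) (L : List V) :
    cr C h (a :: b :: L) = (if hyp C a b = h then 1 else 0) + cr C h (b :: L) := by
  rw [cr]

theorem cr_flip (h : Hy C) {P Q : List V} (hf : Flip C.toSqS P Q) : cr C h P = cr C h Q := by
  induction hf with
  | @here x y w z L hs =>
    simp only [cr_cons_cons]
    have h1 : hyp C x y = hyp C z w := hyp_opp (SqS.tr hs)
    have h2 : hyp C y w = hyp C x z := (hyp_opp hs).symm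
    rw [h1, h2]
    omega
  | @tail x L L' hf ih =>
    cases L with
    | nil => exact absurd rfl hf.ne_nil
    | cons a L =>
      obtain ⟨L'', rfl⟩ := (Eqv.single hf).exists_cons
      rw [cr_cons_cons, cr_cons_cons, ih]

theorem cr_eqv (h : Hy C) {P Q : List V} (hf : Eqv C.toSqS P Q) : cr C h P = cr C h Q := by
  induction hf with
  | refl => rfl
  | tail _ h2 ih => exact ih.trans (cr_flip h h2)

theorem cr_del (h : Hy C) {P Q : List V} (hf : Del P Q) : cr C h P % 2 = cr C h Q % 2 := by
  induction hf with
  | @here x y L =>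
    simp only [cr_cons_cons]
    rw [hyp_comm (C := C) y x]
    split_ifs <;> omega
  | @tail x L L' hf ih =>
    have h1 := hf.head
    have h2 := hf.ne_nil
    cases L with
    | nil =>
      have := hf.length
      simp at this
    | cons a L =>
      cases L' with
      | nil => exact absurd rfl h2
      | cons b L' =>
        obtain rfl : a = b := by simpa using h1
        rw [cr_cons_cons, cr_cons_cons]
        omega

theorem cr_rw (h : Hy C) {P Q : List V} (hf : Rw C P Q) : cr C h P % 2 = cr C h Q % 2 := by
  induction hf with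
  | refl => rfl
  | tail _ h2 ih =>
    rcases h2 with h2 | h2
    · rw [ih, cr_flip h h2]
    · rw [ih, cr_del h h2]

theorem cr_append (h : Hy C) (x : V) (P Q : List V) :
    cr C h (P ++ x :: Q) = cr C h (P ++ [x]) + cr C h (x :: Q) := by
  induction P with
  | nil => simp [cr]
  | cons a P ih =>
    cases P with
    | nil => simp [cr_cons_cons, cr]
    | cons b P =>
      simp only [List.cons_append, cr_cons_cons] at ih ⊢
      omega

/-- If a path crosses `h`, it contains an edge dual to `h`. -/
theorem exists_of_cr (h : Hy C) : ∀ P : List V, cr C h P ≠ 0 →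
    ∃ A a b B, P = A ++ a :: b :: B ∧ hyp C a b = h
  | [], h0 => absurd rfl h0
  | [_], h0 => absurd rfl h0
  | a :: b :: L, h0 => by
    by_cases hab : hyp C a b = h
    · exact ⟨[], a, b, L, rfl, hab⟩
    · rw [cr_cons_cons, if_neg hab, zero_add] at h0
      obtain ⟨A, a', b', B, h1, h2⟩ := exists_of_cr h (b :: L) h0
      exact ⟨a :: A, a', b', B, by rw [h1]; rfl, h2⟩

theorem cr_le_one (h : Hy C) : ∀ (P : List V) (x y : V), RP C P x y → cr C h P ≤ 1
  | [], _, _, _ => by simp [cr]
  | [_], _, _, _ => by simp [cr]
  | a :: b :: L, x, y, hP => by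
    have hx : a = x := by simpa using hP.1.2.1
    subst hx
    have hT := hP.tail
    have ih := cr_le_one h (b :: L) b y hT
    rw [cr_cons_cons]
    by_cases hab : hyp C a b = h
    · rw [if_pos hab]
      by_contra hc
      have h0 : cr C h (b :: L) ≠ 0 := by omega
      obtain ⟨A, c, d, B, h1, h2⟩ := exists_of_cr h _ h0
      have hadj : C.adj a b := (List.isChain_cons_cons.1 hP.1.1).1
      have e : a :: b :: L = (a :: ((A ++ [c]) ++ [d])) ++ B := by rw [h1]; simp
      have hred : Red C.toSqS (a :: ((A ++ [c]) ++ [d])) := by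
        have := hP.2
        rw [e] at this
        exact this.left
      have e2 : b :: L = (A ++ [c]) ++ (d :: B) := by rw [h1]; simp
      have hR : RP C (A ++ [c]) b c := by
        refine ⟨⟨?_, ?_, by simp⟩, ?_⟩
        · have := hT.1.1
          rw [e2] at this
          exact this.left_of_append
        · have := congrArg List.head? e2
          rw [List.head?_append_of_ne_nil _ (by simp)] at this
          rw [← this]; rfl
        · have := hT.2
          rw [e2] at this
          exact this.left
      exact cross_once_aux hR hred hadj (hab.trans h2.symm)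
    · rw [if_neg hab]
      omega

/-- `h` separates `x` from `y`. -/
def Sep (C : CatS V) (h : Hy C) (x y : V) : Prop := cr C h (exists_RP C x y).choose = 1

theorem RP.cr_eq (h : Hy C) {P : List V} {x y : V} (hP : RP C P x y) :
    cr C h P = cr C h (exists_RP C x y).choose :=
  cr_eqv h (hP.sc (exists_RP C x y).choose_spec)

open Classical in
theorem cr_mod (h : Hy C) {P : List V} {x y : V} (hP : Pth C P x y) :
    cr C h P % 2 = if Sep C h x y then 1 else 0 := by
  obtain ⟨Q, hQ, hr⟩ := exists_reduce (C := C) _ P rfl
  have hQ' : RP C Q x y := ⟨hQ.pth hP, hr⟩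
  have h1 := cr_rw h hQ
  have h2 := hQ'.cr_eq h
  have h3 := cr_le_one h Q x y hQ'
  unfold Sep
  rw [h1, ← h2]
  split_ifs with h4
  · rw [h4]
  · omega

open Classical in
theorem RP.cr_sep (h : Hy C) {P : List V} {x y : V} (hP : RP C P x y) :
    cr C h P = if Sep C h x y then 1 else 0 := by
  have h1 := cr_mod h hP.1
  have h2 := cr_le_one h P x y hP
  split_ifs at h1 ⊢ <;> omega

/-- Concatenation of paths. -/
theorem Pth.trans {P Q : List V} {x y z : V} (hP : Pth C P x y) (hQ : Pth C Q y z) :
    ∃ P' Q', P = P' ++ [y] ∧ Q = y :: Q' ∧ Pth C (P' ++ y :: Q') x z := by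
  obtain ⟨Q', rfl⟩ := hQ.exists_cons
  have hne := hP.ne_nil
  have h1 : P.getLast hne = y := by
    have := hP.2.2
    rw [List.getLast?_eq_some_getLast hne] at this
    exact Option.some.inj this
  have h2 : P = P.dropLast ++ [y] := by
    rw [← h1]; exact (List.dropLast_append_getLast hne).symm
  refine ⟨P.dropLast, Q', h2, rfl, ?_, ?_, ?_⟩
  · have hc := hP.1
    rw [h2] at hc
    exact List.isChain_split.2 ⟨hc, hQ.1⟩
  · have hh := hP.2.1
    rw [h2] at hh
    cases hd : P.dropLast with
    | nil =>
      rw [hd] at hh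
      simpa using hh
    | cons a L =>
      rw [hd] at hh
      simpa using hh
  · have := hQ.2.2
    rw [List.getLast?_append_of_ne_nil _ (by simp)]
    exact this

theorem sep_trans (h : Hy C) (x y z : V) :
    Sep C h x z ↔ (Sep C h x y ↔ ¬ Sep C h y z) := by
  classical
  obtain ⟨P, hP⟩ := exists_RP C x y
  obtain ⟨Q, hQ⟩ := exists_RP C y z
  obtain ⟨P', Q', rfl, rfl, h3⟩ := hP.1.trans hQ.1
  have h4 := cr_mod h h3
  rw [cr_append] at h4
  rw [hP.cr_sep h, hQ.cr_sep h] at h4
  by_cases a : Sep C h x y <;> by_cases b : Sep C h y z <;> by_cases c : Sep C h x z <;>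
    simp [a, b, c] at h4 ⊢

theorem not_sep_self (h : Hy C) (x : V) : ¬ Sep C h x x := by
  classical
  have := (RP_single C x).cr_sep h
  intro hs
  rw [if_pos hs] at this
  simp [cr] at this

theorem Sep.symm {h : Hy C} {x y : V} (hs : Sep C h x y) : Sep C h y x := by
  have h1 := sep_trans h x y x
  have h2 := not_sep_self h x
  by_contra hc
  exact h2 (h1.2 ⟨fun _ => hc, fun _ => hs⟩)

theorem RP_pair {x y : V} (h : C.adj x y) : RP C [x, y] x y := by
  refine ⟨⟨List.isChain_cons_cons.2 ⟨h, List.isChain_singleton y⟩, rfl, rfl⟩, ?_⟩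
  intro Q hQ hb
  have h1 := hQ.length
  obtain ⟨R, hR⟩ := hb.del
  have h2 := hR.length
  simp at h1
  have h3 : R.length = 0 := by omega
  exact hR.ne_nil (List.length_eq_zero_iff.1 h3)

theorem sep_adj (h : Hy C) {x y : V} (hxy : C.adj x y) : Sep C h x y ↔ hyp C x y = h := by
  classical
  have h1 := (RP_pair hxy).cr_sep h
  simp only [cr] at h1
  constructor
  · intro hs
    rw [if_pos hs] at h1
    by_contra hc
    rw [if_neg hc] at h1
    omega
  · intro he
    rw [if_pos he] at h1
    by_contra hc
    rw [if_neg hc] at h1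
    omega

/-- Distinct edges at a vertex are dual to distinct hyperplanes. -/
theorem hyp_inj {x y z : V} (hy : C.adj x y) (hz : C.adj x z) (he : hyp C x y = hyp C x z) :
    y = z := by
  by_contra hne
  have hred : Red C.toSqS [y, x, z] := by
    intro Q hQ hb
    have h1 := hQ.length
    have h2 := hQ.head
    have h3 := hQ.last
    match Q, h1, h2, h3, hb with
    | [a, b, c], _, h2, h3, hb =>
      simp at h2 h3
      subst h2 h3
      cases hb with
      | here => exact hne rfl
      | tail h => cases h with
        | tail h => cases h with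
          | tail h => cases h
  have := cross_once_aux (C := C) (a := y) (b := x) (c := x) (d := z) (R := [x])
    (RP_single C x) hred (C.adj_symm hy) (by rw [hyp_comm]; exact he)
  exact this

theorem hyp_ne_of_sq {x y z w : V} (hs : C.sq x y z w) : hyp C x y ≠ hyp C x w := by
  intro he
  exact SqS.ne' hs (hyp_inj (C.sq_adj hs) (C.adj_symm (C.sq_adj (SqS.rot3 hs))) he)

end Pool.Agent.H386R3.CC
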