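import Mathlib

set_option autoImplicit false

/-!
# Polycubes with small surface
-/

namespace Pool.Agent.H386R3.CC

/-- The boundary squares of a finite set `S` of unit lattice cubes of `ℝ³`.  The cube
`p + [0,1]³` is represented by `p ∈ ℤ³`; the unit lattice square with least corner `p` orthogonal
to the `i`-th axis is represented by `(p, i)`.  It is a face of exactly two lattice cubes, `p` and
`p - e_i`; it is a boundary square when exactly one of them is in `S`. -/
def bdry (S : Finset (Fin 3 → ℤ)) : Set ((Fin 3 → ℤ) × Fin 3) :=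
  {q | Xor (q.1 ∈ S) (q.1 - Pi.single q.2 1 ∈ S)}

/-- A finite set of cubes in the positive octant closed under decreasing a coordinate. -/
def Down (S : Finset (Fin 3 → ℤ)) : Prop :=
  (∀ p ∈ S, ∀ i, 0 ≤ p i) ∧ ∀ p ∈ S, ∀ i, 0 < p i → p - Pi.single i 1 ∈ S

theorem sub_single_apply (p : Fin 3 → ℤ) (i j : Fin 3) :
    (p - Pi.single i 1 : Fin 3 → ℤ) j = if j = i then p j - 1 else p j := by
  simp only [Pi.sub_apply]
  split_ifs with h
  · subst h; simp
  · rw [Pi.single_eq_of_ne h]; simp

theorem Down.lower {S : Finset (Fin 3 → ℤ)} (hS : Down S) (p : Fin 3 → ℤ) (hp : p ∈ S) (i : Fin 3) :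
    ∀ t : ℕ, (t : ℤ) ≤ p i → Function.update p i (p i - t) ∈ S := by
  intro t
  induction t with
  | zero => intro _; simpa using hp
  | succ t ih =>
    intro ht
    have h1 := ih (by push_cast at ht ⊢; omega)
    have h2 := hS.2 _ h1 i (by simp; push_cast at ht; omega)
    have h3 : Function.update p i (p i - t) - Pi.single i 1 =
        Function.update p i (p i - ((t + 1 : ℕ) : ℤ)) := by
      funext j
      rw [sub_single_apply]
      by_cases hj : j = i
      · subst hj; simp; push_cast; ring
      · simp [hj]
    rw [← h3]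
    exact h2

theorem Down.lower' {S : Finset (Fin 3 → ℤ)} (hS : Down S) {p : Fin 3 → ℤ} (hp : p ∈ S) (i : Fin 3)
    {z : ℤ} (h0 : 0 ≤ z) (h1 : z ≤ p i) : Function.update p i z ∈ S := by
  have := hS.lower p hp i (p i - z).toNat (by omega)
  have e : p i - ((p i - z).toNat : ℤ) = z := by omega
  rwa [e] at this

open Classical in
theorem bdry_le {S : Finset (Fin 3 → ℤ)} (hS : Down S) :
    (bdry S).ncard ≤ 2 * ∑ i, (S.filter fun p => p i = 0).card := by
  let T : Finset ((_ : Fin 3) × ((_ : Bool) × (Fin 3 → ℤ))) :=
    Finset.univ.sigma fun i => (Finset.univ : Finset Bool).sigma fun _ => S.filter fun p => p i = 0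
  have hT : T.card = 2 * ∑ i, (S.filter fun p => p i = 0).card := by
    simp only [T, Finset.card_sigma, Finset.sum_const, Finset.card_univ, Fintype.card_bool,
      smul_eq_mul, Finset.mul_sum]
  rw [← hT, ← Set.ncard_coe_finset T]
  refine Set.ncard_le_ncard_of_injOn
    (fun q => ⟨q.2, ⟨decide (q.1 ∈ S), Function.update q.1 q.2 0⟩⟩) ?_ ?_ (Finset.finite_toSet T)
  · rintro ⟨p, i⟩ hq
    simp only [T, Finset.coe_sigma, Set.mem_sigma_iff, Finset.coe_univ, Set.mem_univ, true_and,
      Finset.mem_coe, Finset.mem_filter, Function.update_self, and_true]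
    rcases hq with ⟨h1, h2⟩ | ⟨h1, h2⟩
    · have h1' : p ∈ S := h1
      exact hS.lower' h1' i le_rfl (hS.1 p h1' i)
    · have h1' : p - Pi.single i 1 ∈ S := h1
      have h3 := hS.1 _ h1' i
      have h4 := hS.lower' h1' i le_rfl h3
      have h5 : Function.update (p - Pi.single i 1) i 0 = Function.update p i 0 := by
        funext j
        by_cases hj : j = i
        · subst hj; simp
        · rw [Function.update_of_ne hj, Function.update_of_ne hj, sub_single_apply, if_neg hj]
      rwa [h5] at h4
  · rintro ⟨p, i⟩ hp ⟨q, j⟩ hq heq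
    simp only [Sigma.mk.injEq] at heq
    obtain ⟨rfl, h1⟩ := heq
    have h1' := eq_of_heq h1
    simp only [Sigma.mk.injEq] at h1'
    obtain ⟨h2, h3⟩ := h1'
    have h3' := eq_of_heq h3
    have hpq : ∀ j, j ≠ i → p j = q j := by
      intro j hj
      have := congrFun h3' j
      rwa [Function.update_of_ne hj, Function.update_of_ne hj] at this
    have key : ∀ p q : Fin 3 → ℤ, (∀ j, j ≠ i → p j = q j) → (p, i) ∈ bdry S → (q, i) ∈ bdry S →
        decide (p ∈ S) = decide (q ∈ S) → p i ≤ q i → p = q := by
      intro p q hpq hp hq hd hle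
      rcases hle.eq_or_lt with h | hlt
      · funext j
        by_cases hj : j = i
        · rw [hj]; exact h
        · exact hpq j hj
      exfalso
      rcases hq with ⟨hq1, hq2⟩ | ⟨hq1, hq2⟩
      · -- q ∈ S, q - e ∉ S
        have hq1' : q ∈ S := hq1
        have hq0 : q i ≤ 0 := by
          by_contra hc
          exact hq2 (hS.2 q hq1' i (by omega))
        have hpS : p ∈ S := by
          have : decide (p ∈ S) = true := by rw [hd]; simpa using hq1'
          simpa using this
        have := hS.1 p hpS i
        omega
      · -- q ∉ S, q - e ∈ S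
        have hq1' : q - Pi.single i 1 ∈ S := hq1
        have hpS : p ∉ S := by
          have : decide (p ∈ S) = false := by rw [hd]; simpa using hq2
          simpa using this
        have hp1 : p - Pi.single i 1 ∈ S := by
          rcases hp with ⟨h, _⟩ | ⟨h, _⟩
          · exact absurd h hpS
          · exact h
        have hp0 := hS.1 _ hp1 i
        rw [sub_single_apply, if_pos rfl] at hp0
        apply hpS
        have h4 := hS.lower' hq1' i (z := p i) (by omega) (by
          rw [sub_single_apply, if_pos rfl]; omega)
        have h5 : Function.update (q - Pi.single i 1) i (p i) = p := by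
          funext j
          by_cases hj : j = i
          · subst hj; simp
          · rw [Function.update_of_ne hj, sub_single_apply, if_neg hj, hpq j hj]
        rwa [h5] at h4
    have : p = q := by
      rcases le_total (p i) (q i) with h | h
      · exact key p q hpq hp hq h2 h
      · exact (key q p (fun j hj => (hpq j hj).symm) hq hp h2.symm h).symm
    rw [this]

theorem pair_zero_left (y : ℕ) : Nat.pair 0 y = y * y := by
  unfold Nat.pair
  rcases Nat.eq_zero_or_pos y with h | h
  · subst h; simp
  · rw [if_pos h]; simp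

theorem pair_zero_right (x : ℕ) : Nat.pair x 0 = x * x + x := by
  unfold Nat.pair
  rw [if_neg (by omega)]; simp

theorem pair_mono_left {a b : ℕ} (c : ℕ) (h : a ≤ b) : Nat.pair a c ≤ Nat.pair b c := by
  rcases h.eq_or_lt with h | h
  · rw [h]
  · exact (Nat.pair_lt_pair_left c h).le

theorem pair_mono_right {a b : ℕ} (c : ℕ) (h : a ≤ b) : Nat.pair c a ≤ Nat.pair c b := by
  rcases h.eq_or_lt with h | h
  · rw [h]
  · exact (Nat.pair_lt_pair_right c h).le

theorem count_rows {T d N : ℕ} (h : 4 * T ≤ d ^ 2) :
    ((Finset.range N).filter fun y => Nat.pair 0 y < T).card +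
      ((Finset.range N).filter fun x => Nat.pair x 0 < T).card ≤ d := by
  have h1 : ((Finset.range N).filter fun y => Nat.pair 0 y < T) ⊆ Finset.range ((d + 1) / 2) := by
    intro y hy
    rw [Finset.mem_filter, pair_zero_left] at hy
    rw [Finset.mem_range]
    by_contra hc
    have h2 : d ≤ 2 * y := by omega
    nlinarith [hy.2]
  have h2 : ((Finset.range N).filter fun x => Nat.pair x 0 < T) ⊆ Finset.range (d / 2) := by
    intro y hy
    rw [Finset.mem_filter, pair_zero_right] at hy
    rw [Finset.mem_range]
    by_contra hc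
    have h2 : d ≤ 2 * y + 1 := by omega
    have h3 : d ^ 2 ≤ (2 * y + 1) ^ 2 := Nat.pow_le_pow_left h2 2
    have h4 : (2 * y + 1) ^ 2 = 4 * (y * y + y) + 1 := by ring
    have h5 := hy.2
    omega
  have h3 := Finset.card_le_card h1
  have h4 := Finset.card_le_card h2
  rw [Finset.card_range] at h3 h4
  omega

/-- Stacking quasi-square layers. -/
theorem polycube {W : Type*} (s : Finset W) (T d : W → ℕ) (a : ℕ) (hT : ∀ w ∈ s, T w ≤ a)
    (hd : ∀ w ∈ s, 4 * T w ≤ d w ^ 2) :
    ∃ S : Finset (Fin 3 → ℤ), S.card = ∑ w ∈ s, T w ∧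
      (bdry S).ncard ≤ 2 * (a + ∑ w ∈ s, d w) := by
  classical
  let c : ℕ → ℕ := fun p => (s.filter fun w => p < T w).card
  have hc_anti : ∀ p q, p ≤ q → c q ≤ c p := by
    intro p q hpq
    refine Finset.card_le_card fun w hw => ?_
    rw [Finset.mem_filter] at hw ⊢
    exact ⟨hw.1, by omega⟩
  have hc0 : ∀ p, 0 < c p → p < a := by
    intro p hp
    obtain ⟨w, hw⟩ := Finset.card_pos.1 hp
    rw [Finset.mem_filter] at hw
    exact lt_of_lt_of_le hw.2 (hT w hw.1)
  let emb : ((_ : ℕ) × ℕ) → (Fin 3 → ℤ) := fun q =>
    ![((Nat.unpair q.1).1 : ℤ), ((Nat.unpair q.1).2 : ℤ), (q.2 : ℤ)]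
  have emb_inj : Function.Injective emb := by
    rintro ⟨p, z⟩ ⟨q, w⟩ h
    have h0 := congrFun h 0
    have h1 := congrFun h 1
    have h2 := congrFun h 2
    simp [emb] at h0 h1 h2
    have : p = q := by
      rw [← Nat.pair_unpair p, ← Nat.pair_unpair q, h0, h1]
    subst this
    subst h2
    rfl
  let S : Finset (Fin 3 → ℤ) := ((Finset.range a).sigma fun p => Finset.range (c p)).image emb
  have memS : ∀ v : Fin 3 → ℤ, v ∈ S ↔ ∃ x y z : ℕ, v = ![(x : ℤ), (y : ℤ), (z : ℤ)] ∧
      z < c (Nat.pair x y) := by
    intro v
    simp only [S, Finset.mem_image, Finset.mem_sigma, Finset.mem_range]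
    constructor
    · rintro ⟨⟨p, z⟩, ⟨h1, h2⟩, rfl⟩
      refine ⟨(Nat.unpair p).1, (Nat.unpair p).2, z, rfl, ?_⟩
      rw [Nat.pair_unpair]; exact h2
    · rintro ⟨x, y, z, rfl, h⟩
      refine ⟨⟨Nat.pair x y, z⟩, ⟨hc0 _ (lt_of_le_of_lt (Nat.zero_le z) h), h⟩, ?_⟩
      simp [emb]
  have hdown : Down S := by
    constructor
    · intro p hp i
      obtain ⟨x, y, z, rfl, _⟩ := (memS p).1 hp
      fin_cases i <;> simp
    · intro p hp i hi
      obtain ⟨x, y, z, rfl, h⟩ := (memS p).1 hp
      rw [memS]
      fin_cases i
      · simp at hi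
        refine ⟨x - 1, y, z, ?_, lt_of_lt_of_le h (hc_anti _ _ (pair_mono_left y (by omega)))⟩
        funext j
        rw [sub_single_apply]
        fin_cases j <;> simp
        omega
      · simp at hi
        refine ⟨x, y - 1, z, ?_, lt_of_lt_of_le h (hc_anti _ _ (pair_mono_right x (by omega)))⟩
        funext j
        rw [sub_single_apply]
        fin_cases j <;> simp
        omega
      · simp at hi
        refine ⟨x, y, z - 1, ?_, by omega⟩
        funext j
        rw [sub_single_apply]
        fin_cases j <;> simp
        omega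
  have sum_c : ∀ (f : ℕ → ℕ) (N : ℕ), ∑ p ∈ Finset.range N, c (f p) =
      ∑ w ∈ s, ((Finset.range N).filter fun p => f p < T w).card := by
    intro f N
    simp only [c, Finset.card_filter]
    rw [Finset.sum_comm]
  refine ⟨S, ?_, ?_⟩
  · rw [Finset.card_image_of_injective _ emb_inj, Finset.card_sigma]
    simp only [Finset.card_range]
    rw [sum_c (fun p => p) a]
    refine Finset.sum_congr rfl fun w hw => ?_
    have : (Finset.range a).filter (fun p => p < T w) = Finset.range (T w) := by
      ext p
      rw [Finset.mem_filter, Finset.mem_range, Finset.mem_range]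
      have := hT w hw
      omega
    rw [this, Finset.card_range]
  · refine (bdry_le hdown).trans ?_
    have e0 : (S.filter fun p => p 0 = 0).card ≤
        ∑ w ∈ s, ((Finset.range a).filter fun y => Nat.pair 0 y < T w).card := by
      rw [← sum_c (fun y => Nat.pair 0 y) a]
      have hsub : (S.filter fun p => p 0 = 0) ⊆
          ((Finset.range a).sigma fun y => Finset.range (c (Nat.pair 0 y))).image
            (fun q : (_ : ℕ) × ℕ => ![(0 : ℤ), (q.1 : ℤ), (q.2 : ℤ)]) := by
        intro v hv
        rw [Finset.mem_filter] at hv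
        obtain ⟨x, y, z, rfl, h⟩ := (memS v).1 hv.1
        have hx : x = 0 := by
          have := hv.2
          simp at this
          exact this
        subst hx
        rw [Finset.mem_image]
        refine ⟨⟨y, z⟩, ?_, by simp⟩
        rw [Finset.mem_sigma, Finset.mem_range, Finset.mem_range]
        refine ⟨?_, h⟩
        have := hc0 _ (lt_of_le_of_lt (Nat.zero_le z) h)
        have h2 := Nat.right_le_pair 0 y
        show y < a
        omega
      refine (Finset.card_le_card hsub).trans (Finset.card_image_le.trans ?_)
      rw [Finset.card_sigma]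
      simp
    have e1 : (S.filter fun p => p 1 = 0).card ≤
        ∑ w ∈ s, ((Finset.range a).filter fun x => Nat.pair x 0 < T w).card := by
      rw [← sum_c (fun x => Nat.pair x 0) a]
      have hsub : (S.filter fun p => p 1 = 0) ⊆
          ((Finset.range a).sigma fun y => Finset.range (c (Nat.pair y 0))).image
            (fun q : (_ : ℕ) × ℕ => ![(q.1 : ℤ), (0 : ℤ), (q.2 : ℤ)]) := by
        intro v hv
        rw [Finset.mem_filter] at hv
        obtain ⟨x, y, z, rfl, h⟩ := (memS v).1 hv.1
        have hx : y = 0 := by
          have := hv.2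
          simp at this
          exact this
        subst hx
        rw [Finset.mem_image]
        refine ⟨⟨x, z⟩, ?_, by simp⟩
        rw [Finset.mem_sigma, Finset.mem_range, Finset.mem_range]
        refine ⟨?_, h⟩
        have := hc0 _ (lt_of_le_of_lt (Nat.zero_le z) h)
        have h2 := Nat.left_le_pair x 0
        show x < a
        omega
      refine (Finset.card_le_card hsub).trans (Finset.card_image_le.trans ?_)
      rw [Finset.card_sigma]
      simp
    have e2 : (S.filter fun p => p 2 = 0).card ≤ a := by
      have hsub : (S.filter fun p => p 2 = 0) ⊆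
          (Finset.range a).image
            (fun q : ℕ => ![((Nat.unpair q).1 : ℤ), ((Nat.unpair q).2 : ℤ), (0 : ℤ)]) := by
        intro v hv
        rw [Finset.mem_filter] at hv
        obtain ⟨x, y, z, rfl, h⟩ := (memS v).1 hv.1
        have hx : z = 0 := by
          have := hv.2
          simp at this
          exact this
        subst hx
        rw [Finset.mem_image]
        refine ⟨Nat.pair x y, ?_, by simp⟩
        rw [Finset.mem_range]
        exact hc0 _ h
      refine (Finset.card_le_card hsub).trans (Finset.card_image_le.trans ?_)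
      simp
    have e3 : ∑ w ∈ s, (((Finset.range a).filter fun y => Nat.pair 0 y < T w).card +
        ((Finset.range a).filter fun x => Nat.pair x 0 < T w).card) ≤ ∑ w ∈ s, d w :=
      Finset.sum_le_sum fun w hw => count_rows (hd w hw)
    rw [Finset.sum_add_distrib] at e3
    rw [Fin.sum_univ_three]
    omega

end Pool.Agent.H386R3.CC
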