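import Pool.Agent.H386R3.CC.Grid

set_option autoImplicit false

/-!
# The geometric realization
-/

namespace Pool.Agent.H386R3.CC

open Set

/-- The weight of the corner `a` at the point `t` of the cube (multi-affine coordinates):
the weights are nonnegative with sum `1`, and the corner `b` itself has weights `δ_{ab}`. -/
noncomputable def weight (t : Fin 3 → ℝ) (a : Corner) : ℝ := ∏ k, if a k then t k else 1 - t k

namespace CubeComplex

variable {V ι : Type} (X : CubeComplex V ι)

open Classical in
/-- The point with coordinates `t` of the cube `i`, as a point of `ℝ^V`: the combination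
`∑ₐ weight t a • e_(corner i a)` of basis vectors. -/
noncomputable def point (i : ι) (t : Fin 3 → ℝ) : V → ℝ :=
  fun v => ∑ a : Corner, if X.corner i a = v then weight t a else 0

/-- The geometric realization of the complex, as a subspace of `ℝ^V`: the union of the cubes
`{point i t : t ∈ [0,1]³}`. -/
def realization : Set (V → ℝ) :=
  {p | ∃ i t, (∀ k, 0 ≤ t k ∧ t k ≤ 1) ∧ p = X.point i t}

variable {X}

theorem weight_nonneg {t : Fin 3 → ℝ} (ht : ∀ k, 0 ≤ t k ∧ t k ≤ 1) (a : Corner) :
    0 ≤ weight t a := by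
  unfold weight
  refine Finset.prod_nonneg fun k _ => ?_
  have := ht k
  split_ifs <;> linarith

theorem weight_sum (t : Fin 3 → ℝ) : ∑ a, weight t a = 1 := by
  unfold weight
  have h := (Finset.prod_univ_sum (fun _ : Fin 3 => (Finset.univ : Finset Bool))
    (fun k b => if b then t k else 1 - t k)).symm
  rw [Fintype.piFinset_univ] at h
  rw [h]
  simp

theorem point_nonneg {i : ι} {t : Fin 3 → ℝ} (ht : ∀ k, 0 ≤ t k ∧ t k ≤ 1) (v : V) :
    0 ≤ X.point i t v := by
  unfold point
  refine Finset.sum_nonneg fun a _ => ?_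
  split_ifs
  · exact weight_nonneg ht a
  · exact le_rfl

theorem point_corner (i : ι) (t : Fin 3 → ℝ) (a : Corner) :
    X.point i t (X.corner i a) = weight t a := by
  unfold point
  rw [Finset.sum_eq_single a]
  · rw [if_pos rfl]
  · intro b _ hb
    rw [if_neg]
    intro h
    exact hb (X.inj i h)
  · intro h
    exact absurd (Finset.mem_univ a) h

theorem point_mem {i : ι} {t : Fin 3 → ℝ} {v : V} (h : X.point i t v ≠ 0) : X.Mem v i := by
  by_contra hc
  apply h
  unfold point
  refine Finset.sum_eq_zero fun a _ => ?_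
  rw [if_neg]
  intro ha
  exact hc ⟨a, ha⟩

theorem real_cube {p : V → ℝ} (hp : p ∈ X.realization) :
    ∃ i, ∀ v, p v ≠ 0 → X.Mem v i := by
  obtain ⟨i, t, _, rfl⟩ := hp
  exact ⟨i, fun v hv => point_mem hv⟩

theorem real_pos {p : V → ℝ} (hp : p ∈ X.realization) : ∃ v, 0 < p v := by
  obtain ⟨i, t, ht, rfl⟩ := hp
  by_contra hc
  push Not at hc
  have h1 := weight_sum t
  have h2 : ∑ a, weight t a ≤ 0 := Finset.sum_nonpos fun a _ => by
    rw [← point_corner (X := X) i t a]; exact hc _
  linarith

theorem real_nonneg {p : V → ℝ} (hp : p ∈ X.realization) (v : V) : 0 ≤ p v := by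
  obtain ⟨i, t, ht, rfl⟩ := hp
  exact point_nonneg ht v

/-- The coordinates of a corner. -/
noncomputable def cpt (a : Corner) : Fin 3 → ℝ := fun k => if a k then 1 else 0

theorem weight_cpt (a b : Corner) : weight (cpt a) b = if b = a then 1 else 0 := by
  unfold weight cpt
  by_cases h : b = a
  · subst h
    rw [if_pos rfl]
    refine Finset.prod_eq_one fun k _ => ?_
    cases b k <;> simp
  · rw [if_neg h]
    obtain ⟨k, hk⟩ : ∃ k, b k ≠ a k := by
      by_contra hc
      push Not at hc
      exact h (funext hc)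
    refine Finset.prod_eq_zero (Finset.mem_univ k) ?_
    cases h1 : b k <;> cases h2 : a k <;> simp_all

open Classical in
theorem point_cpt (i : ι) (a : Corner) :
    X.point i (cpt a) = Pi.single (X.corner i a) 1 := by
  funext v
  unfold point
  simp only [weight_cpt]
  rw [Finset.sum_eq_single a]
  · rw [if_pos rfl, Pi.single_apply]
    by_cases h : X.corner i a = v
    · rw [if_pos h, if_pos h.symm]
    · rw [if_neg h, if_neg (fun h' => h h'.symm)]
  · intro b _ hb
    rw [if_neg hb]
    simp
  · intro h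
    exact absurd (Finset.mem_univ a) h

theorem weight_update (t : Fin 3 → ℝ) (k : Fin 3) (r : ℝ) (b : Corner) :
    weight (Function.update t k r) b =
      r * weight (Function.update t k 1) b + (1 - r) * weight (Function.update t k 0) b := by
  unfold weight
  fin_cases k <;> simp only [Fin.prod_univ_three, Function.update_apply] <;>
    cases b 0 <;> cases b 1 <;> cases b 2 <;> simp <;> ring

theorem point_update (i : ι) (t : Fin 3 → ℝ) (k : Fin 3) (r : ℝ) :
    X.point i (Function.update t k r) =
      r • X.point i (Function.update t k 1) + (1 - r) • X.point i (Function.update t k 0) := by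
  classical
  funext v
  simp only [Pi.add_apply, Pi.smul_apply, smul_eq_mul, point]
  rw [Finset.mul_sum, Finset.mul_sum, ← Finset.sum_add_distrib]
  refine Finset.sum_congr rfl fun a _ => ?_
  split_ifs
  · exact weight_update t k r a
  · simp

open Classical in
theorem vertex_mem (v : V) : (Pi.single v 1 : V → ℝ) ∈ X.realization := by
  obtain ⟨i, a, rfl⟩ := X.cover v
  exact ⟨i, cpt a, fun k => by unfold cpt; split_ifs <;> norm_num, (point_cpt i a).symm⟩

theorem update_cpt_one {a : Corner} {k : Fin 3} (h : a k = true) :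
    Function.update (cpt a) k 1 = cpt a := by
  rw [Function.update_eq_self_iff]; simp [cpt, h]

theorem update_cpt_zero {a : Corner} {k : Fin 3} (h : a k = true) :
    Function.update (cpt a) k 0 = cpt (flip a k) := by
  funext j
  by_cases hj : j = k
  · subst hj; simp [cpt, flip_apply, h]
  · rw [Function.update_of_ne hj]; simp [cpt, flip_apply, hj]

open Classical in
/-- Edges lie in the realization. -/
theorem edge_mem {x y : V} (h : X.Adj x y) {r : ℝ} (h0 : 0 ≤ r) (h1 : r ≤ 1) :
    ((1 - r) • Pi.single x 1 + r • Pi.single y 1 : V → ℝ) ∈ X.realization := by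
  have main : ∀ (i : ι) (a : Corner) (k : Fin 3) (s : ℝ), a k = true → 0 ≤ s → s ≤ 1 →
      (s • Pi.single (X.corner i a) 1 + (1 - s) • Pi.single (X.corner i (flip a k)) 1 : V → ℝ) ∈
        X.realization := by
    intro i a k s hk hs0 hs1
    refine ⟨i, Function.update (cpt a) k s, ?_, ?_⟩
    · intro l
      by_cases hl : l = k
      · subst hl; simp [hs0, hs1]
      · rw [Function.update_of_ne hl]; unfold cpt; split_ifs <;> norm_num
    · rw [point_update, update_cpt_one hk, update_cpt_zero hk, point_cpt, point_cpt]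
  obtain ⟨i, a, k, rfl, rfl⟩ := h
  cases hk : a k
  · have := main i (flip a k) k r (by rw [flip_apply, if_pos rfl, hk]; rfl) h0 h1
    rw [flip_flip] at this
    rw [add_comm]
    exact this
  · have := main i a k (1 - r) hk (by linarith) (by linarith)
    rw [sub_sub_cancel] at this
    exact this

/-! ### The path through a sequence of vertices -/

open Classical in
/-- The piecewise linear path. -/
noncomputable def plp (x : ℕ → V) (m : ℕ) (s : ℝ) : V → ℝ :=
  ∑ k ∈ Finset.range (m + 1), (max 0 (1 - |s - k|)) • Pi.single (x k) 1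

theorem plp_continuous (x : ℕ → V) (m : ℕ) : Continuous (plp x m) := by
  unfold plp
  refine continuous_finsetSum _ fun k _ => ?_
  exact (continuous_const.max (continuous_const.sub
    (continuous_id.sub continuous_const).abs)).smul continuous_const

open Classical in
theorem plp_eq (x : ℕ → V) (m : ℕ) (s : ℝ) {k : ℕ} (hk : k < m) (h0 : (k : ℝ) ≤ s)
    (h1 : s ≤ k + 1) :
    plp x m s = (1 - (s - k)) • Pi.single (x k) 1 + (s - k) • Pi.single (x (k + 1)) 1 := by
  unfold plp
  have hk1 : k ∈ Finset.range (m + 1) := Finset.mem_range.2 (by omega)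
  have hk2 : k + 1 ∈ (Finset.range (m + 1)).erase k :=
    Finset.mem_erase.2 ⟨by omega, Finset.mem_range.2 (by omega)⟩
  rw [← Finset.add_sum_erase _ _ hk1, ← Finset.add_sum_erase _ _ hk2, Finset.sum_eq_zero, add_zero]
  · congr 1
    · congr 1
      rw [abs_of_nonneg (by linarith)]
      exact max_eq_right (by linarith)
    · congr 1
      push_cast
      rw [abs_of_nonpos (by linarith)]
      rw [max_eq_right (by linarith)]
      ring
  · intro j hj
    rw [Finset.mem_erase, Finset.mem_erase] at hj
    obtain ⟨j1, j2, j3⟩ := hj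
    have hle : 1 - |s - (j : ℝ)| ≤ 0 := by
      rcases lt_or_gt_of_ne j2 with h | h
      · have : (j : ℝ) + 1 ≤ k := by exact_mod_cast h
        have := le_abs_self (s - (j : ℝ))
        linarith
      · have h2 : k + 2 ≤ j := by omega
        have h3 : (k : ℝ) + 2 ≤ j := by exact_mod_cast h2
        have := neg_abs_le (s - (j : ℝ))
        linarith
    rw [max_eq_left hle, zero_smul]

theorem floor_cases {m : ℕ} (hm : 1 ≤ m) {s : ℝ} (h0 : 0 ≤ s) (h1 : s ≤ m) :
    ∃ k, k < m ∧ (k : ℝ) ≤ s ∧ s ≤ k + 1 := by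
  by_cases h : ⌊s⌋₊ < m
  · exact ⟨⌊s⌋₊, h, Nat.floor_le h0, (Nat.lt_floor_add_one s).le⟩
  · refine ⟨m - 1, by omega, ?_, ?_⟩
    · have h2 : (m : ℝ) ≤ ⌊s⌋₊ := by exact_mod_cast not_lt.1 h
      have h3 := Nat.floor_le h0
      have h4 : ((m - 1 : ℕ) : ℝ) ≤ m := by exact_mod_cast Nat.sub_le m 1
      linarith
    · have : ((m - 1 : ℕ) : ℝ) + 1 = m := by
        have : m - 1 + 1 = m := by omega
        exact_mod_cast this
      linarith

theorem plp_mem (x : ℕ → V) {m : ℕ} (hm : 1 ≤ m) (hadj : ∀ k < m, X.Adj (x k) (x (k + 1)))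
    {s : ℝ} (h0 : 0 ≤ s) (h1 : s ≤ m) : plp x m s ∈ X.realization := by
  obtain ⟨k, hk, h2, h3⟩ := floor_cases hm h0 h1
  rw [plp_eq x m s hk h2 h3]
  exact edge_mem (hadj k hk) (by linarith) (by linarith)

open Classical in
theorem plp_nat (x : ℕ → V) {m : ℕ} (hm : 1 ≤ m) {k : ℕ} (hk : k ≤ m) :
    plp x m k = Pi.single (x k) 1 := by
  rcases hk.eq_or_lt with h | h
  · subst h
    obtain ⟨l, rfl⟩ : ∃ l, k = l + 1 := ⟨k - 1, by omega⟩
    rw [plp_eq x (l + 1) _ (k := l) (by omega) (by push_cast; linarith) (by push_cast; linarith)]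
    push_cast
    simp
  · rw [plp_eq x m _ h le_rfl (by linarith)]
    simp

/-! ### Holonomy -/

variable {hX : X.FlagLinks}

/-- Closed edge paths have trivial holonomy, when the realization is homeomorphic to a convex
set. -/
theorem holonomy {E : Type*} [NormedAddCommGroup E] [NormedSpace ℝ E] {B : Set E}
    (hB : Convex ℝ B) (φ : X.realization ≃ₜ B) (x : ℕ → V) {m : ℕ} (hm : 1 ≤ m)
    (hadj : ∀ k < m, X.Adj (x k) (x (k + 1))) (hclosed : x m = x 0)
    (G : ℕ → Om (X.toS hX)) (hG0 : (G 0).fin = x 0)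
    (hG : ∀ k < m, G (k + 1) = (G k).step (x (k + 1))) : G m = G 0 := by
  classical
  set v := x 0 with hv
  have hm0 : (0 : ℝ) ≤ m := by positivity
  -- the path with clamped parameter
  let cl : ℝ → ℝ := fun s => max 0 (min s m)
  have hcl : ∀ s, 0 ≤ cl s ∧ cl s ≤ m := fun s =>
    ⟨le_max_left _ _, max_le hm0 (min_le_right _ _)⟩
  have hcl_id : ∀ s : ℝ, 0 ≤ s → s ≤ m → cl s = s := fun s h0 h1 => by
    simp only [cl]; rw [min_eq_left h1, max_eq_right h0]
  have hclc : Continuous cl := continuous_const.max (continuous_id.min continuous_const)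
  let c1 : ℝ → ℝ := fun s => max 0 (min s 1)
  have hc1 : ∀ s, 0 ≤ c1 s ∧ c1 s ≤ 1 := fun s =>
    ⟨le_max_left _ _, max_le zero_le_one (min_le_right _ _)⟩
  have hc1_id : ∀ s : ℝ, 0 ≤ s → s ≤ 1 → c1 s = s := fun s h0 h1 => by
    simp only [c1]; rw [min_eq_left h1, max_eq_right h0]
  have hc1c : Continuous c1 := continuous_const.max (continuous_id.min continuous_const)
  let A : ℝ → X.realization := fun s => ⟨plp x m (cl s), plp_mem x hm hadj (hcl s).1 (hcl s).2⟩
  have hA : Continuous A := ((plp_continuous x m).comp hclc).subtype_mk _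
  let b : X.realization := ⟨Pi.single v 1, vertex_mem v⟩
  let H : ℝ × ℝ → B := fun q => ⟨(1 - c1 q.2) • (φ (A q.1) : E) + c1 q.2 • (φ b : E),
    hB (φ (A q.1)).2 (φ b).2 (by linarith [(hc1 q.2).2]) (hc1 q.2).1 (by ring)⟩
  have hH : Continuous H := by
    refine Continuous.subtype_mk ?_ _
    have e1 : Continuous fun q : ℝ × ℝ => c1 q.2 := hc1c.comp continuous_snd
    have e2 : Continuous fun q : ℝ × ℝ => (φ (A q.1) : E) :=
      continuous_subtype_val.comp (φ.continuous.comp (hA.comp continuous_fst))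
    exact ((continuous_const.sub e1).smul e2).add (e1.smul continuous_const)
  let F : ℝ × ℝ → V → ℝ := fun q => (φ.symm (H q)).1
  have hF : Continuous F := continuous_subtype_val.comp (φ.symm.continuous.comp hH)
  have hFmem : ∀ q, F q ∈ X.realization := fun q => (φ.symm (H q)).2
  have F_bottom : ∀ s : ℝ, 0 ≤ s → s ≤ m → F (s, 0) = plp x m s := by
    intro s h0 h1
    have : H (s, 0) = φ (A s) := by
      apply Subtype.ext
      simp only [H, hc1_id 0 le_rfl zero_le_one]
      simp
    simp only [F, this, Homeomorph.symm_apply_apply, A, hcl_id s h0 h1]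
  have F_top : ∀ s, F (s, 1) = Pi.single v 1 := by
    intro s
    have : H (s, 1) = φ b := by
      apply Subtype.ext
      simp only [H, hc1_id 1 zero_le_one le_rfl]
      simp
    simp only [F, this, Homeomorph.symm_apply_apply, b]
  have F_side : ∀ s t, plp x m (cl s) = Pi.single v 1 → F (s, t) = Pi.single v 1 := by
    intro s t hs
    have hAb : A s = b := Subtype.ext hs
    have : H (s, t) = φ b := by
      apply Subtype.ext
      simp only [H, hAb]
      rw [← add_smul]
      simp
    simp only [F, this, Homeomorph.symm_apply_apply, b]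
  have F_left : ∀ t, F (0, t) = Pi.single v 1 := by
    intro t
    apply F_side
    rw [hcl_id 0 le_rfl hm0]
    have := plp_nat x hm (Nat.zero_le m)
    rw [← this]
    simp
  have F_right : ∀ t, F ((m : ℝ), t) = Pi.single v 1 := by
    intro t
    apply F_side
    rw [hcl_id m hm0 le_rfl, plp_nat x hm le_rfl, hclosed]
  have single_pos : ∀ (w u : V), 0 < (Pi.single w 1 : V → ℝ) u → u = w := by
    intro w u h
    by_contra hc
    rw [Pi.single_eq_of_ne hc] at h
    exact lt_irrefl _ h
  -- Lebesgue number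
  have hK : IsCompact (Icc (0 : ℝ) m ×ˢ Icc (0 : ℝ) 1) := isCompact_Icc.prod isCompact_Icc
  obtain ⟨δ, hδ, hL⟩ := lebesgue_number_lemma_of_metric (c := fun u : V => {q | 0 < F q u}) hK
    (fun u => isOpen_lt continuous_const ((continuous_apply u).comp hF))
    (fun q _ => by
      obtain ⟨u, hu⟩ := real_pos (hFmem q)
      exact mem_iUnion.2 ⟨u, hu⟩)
  obtain ⟨n', hn'⟩ := exists_nat_one_div_lt hδ
  set n := n' + 1 with hn
  have hnpos : (0 : ℝ) < n := by positivity
  have hn1 : (1 : ℝ) / n < δ := by rw [hn]; push_cast; exact hn'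
  have hex : ∀ i j, ∃ u : V, i < m * n → j < n → ∀ q : ℝ × ℝ, (i : ℝ) / n ≤ q.1 →
      q.1 ≤ (i + 1 : ℝ) / n → (j : ℝ) / n ≤ q.2 → q.2 ≤ (j + 1 : ℝ) / n → 0 < F q u := by
    intro i j
    by_cases hij : i < m * n ∧ j < n
    · have hi : ((i : ℝ) / n, (j : ℝ) / n) ∈ Icc (0 : ℝ) m ×ˢ Icc (0 : ℝ) 1 := by
        have h1 : (i : ℝ) ≤ m * n := by exact_mod_cast hij.1.le
        have h2 : (j : ℝ) ≤ n := by exact_mod_cast hij.2.le
        refine ⟨⟨by positivity, ?_⟩, ⟨by positivity, ?_⟩⟩
        · show (i : ℝ) / n ≤ m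
          rw [div_le_iff₀ hnpos]; exact h1
        · show (j : ℝ) / n ≤ 1
          rw [div_le_one hnpos]; exact h2
      obtain ⟨u, hu⟩ := hL _ hi
      refine ⟨u, fun _ _ q q1 q2 q3 q4 => hu ?_⟩
      rw [Metric.mem_ball, Prod.dist_eq, max_lt_iff, Real.dist_eq, Real.dist_eq]
      rw [add_div] at q2 q4
      constructor
      · rw [abs_of_nonneg (by simpa using q1)]
        simp only
        linarith
      · rw [abs_of_nonneg (by simpa using q3)]
        simp only
        linarith
    · exact ⟨v, fun h1 h2 => absurd ⟨h1, h2⟩ hij⟩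
  choose u hu using hex
  have divle : ∀ i : ℕ, (i : ℝ) / n ≤ (i + 1 : ℝ) / n := fun i => by
    rw [div_le_div_iff_of_pos_right hnpos]; linarith
  -- membership in a common cube
  have hmn : 1 ≤ m * n := Nat.one_le_iff_ne_zero.2 (Nat.mul_ne_zero (by omega) (by omega))
  have hsq : ∀ i < m * n - 1, ∀ j < n - 1, ∃ κ, X.Mem (u i j) κ ∧ X.Mem (u (i + 1) j) κ ∧
      X.Mem (u i (j + 1)) κ ∧ X.Mem (u (i + 1) (j + 1)) κ := by
    intro i hi j hj
    obtain ⟨κ, hκ⟩ := real_cube (hFmem ((i + 1 : ℝ) / n, (j + 1 : ℝ) / n))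
    have c1 : ((i + 1 : ℕ) : ℝ) = (i : ℝ) + 1 := by push_cast; ring
    have c2 : ((j + 1 : ℕ) : ℝ) = (j : ℝ) + 1 := by push_cast; ring
    have d1 := divle (i + 1)
    have d2 := divle (j + 1)
    rw [c1] at d1
    rw [c2] at d2
    refine ⟨κ, hκ _ ?_, hκ _ ?_, hκ _ ?_, hκ _ ?_⟩
    · exact (hu i j (by omega) (by omega) _ (divle i) le_rfl (divle j) le_rfl).ne'
    · exact (hu (i + 1) j (by omega) (by omega) _ (by rw [c1]) (by rw [c1]; exact d1)
        (divle j) le_rfl).ne'
    · exact (hu i (j + 1) (by omega) (by omega) _ (divle i) le_rfl (by rw [c2])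
        (by rw [c2]; exact d2)).ne'
    · exact (hu (i + 1) (j + 1) (by omega) (by omega) _ (by rw [c1]) (by rw [c1]; exact d1)
        (by rw [c2]) (by rw [c2]; exact d2)).ne'
  have hl : ∀ j ≤ n - 1, u 0 j = v := by
    intro j hj
    have := hu 0 j (by omega) (by omega) (0, (j : ℝ) / n) (by simp) (by simp)
      le_rfl (divle j)
    rw [F_left] at this
    exact single_pos _ _ this
  have hr : ∀ j ≤ n - 1, u (m * n - 1) j = v := by
    intro j hj
    have e : (((m * n - 1 : ℕ) : ℝ) + 1) / n = m := by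
      have h1 : ((m * n - 1 : ℕ) : ℝ) + 1 = m * n := by
        have : m * n - 1 + 1 = m * n := by omega
        exact_mod_cast this
      rw [h1]; field_simp
    have := hu (m * n - 1) j (by omega) (by omega) ((m : ℝ), (j : ℝ) / n)
      (by rw [← e]; exact divle _) (by rw [e]) le_rfl (divle j)
    rw [F_right] at this
    exact single_pos _ _ this
  have ht : ∀ i ≤ m * n - 1, u i (n - 1) = v := by
    intro i hi
    have e : (((n - 1 : ℕ) : ℝ) + 1) / n = 1 := by
      have h1 : ((n - 1 : ℕ) : ℝ) + 1 = n := by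
        have : n - 1 + 1 = n := by omega
        exact_mod_cast this
      rw [h1]; field_simp
    have := hu i (n - 1) (by omega) (by omega) ((i : ℝ) / n, 1) le_rfl (divle i)
      (by rw [← e]; exact divle _) (by rw [e])
    rw [F_top] at this
    exact single_pos _ _ this
  -- the bottom row
  have hbot : ∀ i < m * n, ∀ s : ℝ, (i : ℝ) / n ≤ s → s ≤ (i + 1 : ℝ) / n → 0 ≤ s → s ≤ m →
      0 < plp x m s (u i 0) := by
    intro i hi s h1 h2 h3 h4
    have := hu i 0 hi (by omega) (s, 0) h1 h2 (by simp) (by simp)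
    rwa [F_bottom s h3 h4] at this
  have hb3 : ∀ k < m, u (k * n) 0 = x k := by
    intro k hk
    have e : ((k * n : ℕ) : ℝ) / n = k := by push_cast; field_simp
    have hlt : k * n < m * n := Nat.mul_lt_mul_of_pos_right hk (by omega)
    have := hbot (k * n) hlt k (by rw [e]) (by
      have := divle (k * n); rwa [e] at this) (by positivity) (by exact_mod_cast hk.le)
    rw [plp_nat x hm hk.le] at this
    exact single_pos _ _ this
  have hkn : ∀ k < m, ∀ r < n, k * n + r < m * n := by
    intro k hk r hr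
    have : (k + 1) * n ≤ m * n := Nat.mul_le_mul_right n hk
    rw [add_mul, one_mul] at this
    omega
  have hb2 : ∀ k < m, u (k * n + (n - 1)) 0 = x (k + 1) := by
    intro k hk
    have e : (((k * n + (n - 1) : ℕ) : ℝ) + 1) / n = ((k + 1 : ℕ) : ℝ) := by
      have h1 : ((k * n + (n - 1) : ℕ) : ℝ) + 1 = ((k + 1) * n : ℕ) := by
        have : k * n + (n - 1) + 1 = (k + 1) * n := by rw [add_mul, one_mul]; omega
        exact_mod_cast this
      rw [h1]; push_cast; field_simp
    have := hbot (k * n + (n - 1)) (hkn k hk (n - 1) (by omega)) ((k + 1 : ℕ) : ℝ)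
      (by rw [← e]; exact divle _) (by rw [e]) (by positivity) (by exact_mod_cast hk)
    rw [plp_nat x hm hk] at this
    exact single_pos _ _ this
  have hb1 : ∀ k < m, ∀ r < n, u (k * n + r) 0 = x k ∨ u (k * n + r) 0 = x (k + 1) := by
    intro k hk r hr
    have e1 : ((k * n + r : ℕ) : ℝ) / n = k + (r : ℝ) / n := by push_cast; field_simp
    have hr0 : 0 ≤ (r : ℝ) / n := by positivity
    have hr1 : (r : ℝ) / n ≤ 1 := by
      rw [div_le_one hnpos]; exact_mod_cast hr.le
    have hkm : (k : ℝ) + 1 ≤ m := by exact_mod_cast hk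
    have := hbot (k * n + r) (hkn k hk r hr) (k + (r : ℝ) / n) (by rw [e1])
      (by rw [← e1]; exact divle _) (by positivity) (by linarith)
    rw [plp_eq x m _ hk (by linarith) (by linarith)] at this
    by_contra hc
    push Not at hc
    rw [Pi.add_apply, Pi.smul_apply, Pi.smul_apply, Pi.single_eq_of_ne hc.1,
      Pi.single_eq_of_ne hc.2] at this
    simp at this
  obtain ⟨g, g0, gM, gs⟩ := bottom (hX := hX) (by omega : 1 ≤ n) hm x hadj (fun i => u i 0)
    hb1 hb2 hb3 G hG0 hG
  rcases Nat.eq_zero_or_pos (m * n - 1) with h0 | hpos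
  · rw [h0, g0] at gM
    exact gM.symm
  · have := grid u (m * n - 1) (n - 1) v (G 0) hG0 hpos hsq hl hr
      ht g g0 gs
    rw [← gM, this]

end CubeComplex

end Pool.Agent.H386R3.CC
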